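import Pool.Agent.OR.A.Defs

/-! # The operators on parallel strands preserve the weights (by helper40) -/

namespace Pool.Agent.OR

open Pool.Agent.H63.VC7 Pool.Agent.H63.VC8 Pool.Agent.H63.VC11 Pool.Agent.S4 Matrix

variable {n N : ℕ} {q : ℂ} {f : ℕ → ℂ} {M : Matrix (I2 n N) (I2 n N) ℂ}

/-! ### The weights are preserved -/

/-- `ψ` is supported on the pairs of indices with the sum `v`. -/
private def Sup (v : Fin n → ℕ) (ψ : (Fin n → ℕ) × (Fin n → ℕ) → ℂ) : Prop :=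
  ∀ x, ψ x ≠ 0 → x.1 + x.2 = v

private theorem Sup_E {v : Fin n → ℕ} {ψ : (Fin n → ℕ) × (Fin n → ℕ) → ℂ} (h : Sup v ψ) :
    Sup v (opE q ψ) := by
  intro x hx
  unfold opE at hx
  obtain ⟨i, _, hi⟩ := Finset.exists_ne_zero_of_sum_ne_zero hx
  have h1 : x.1 i ≠ 0 := by
    intro h0
    rw [h0, Nat.cast_zero, qn_zero, mul_zero, zero_mul] at hi
    exact hi rfl
  have h2 := h _ (right_ne_zero_of_mul hi)
  rw [← h2]
  obtain ⟨b, hb⟩ := exists_add h1
  simp only [hb, add_sub_single]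
  rw [add_assoc, add_comm x.2]

private theorem Sup_F {v : Fin n → ℕ} {ψ : (Fin n → ℕ) × (Fin n → ℕ) → ℂ} (h : Sup v ψ) :
    Sup v (opF q ψ) := by
  intro x hx
  unfold opF at hx
  obtain ⟨i, _, hi⟩ := Finset.exists_ne_zero_of_sum_ne_zero hx
  have h1 : x.2 i ≠ 0 := by
    intro h0
    rw [h0, Nat.cast_zero, qn_zero, mul_zero, zero_mul] at hi
    exact hi rfl
  have h2 := h _ (right_ne_zero_of_mul hi)
  rw [← h2]
  obtain ⟨b, hb⟩ := exists_add h1
  simp only [hb, add_sub_single]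
  rw [add_assoc, add_comm b]

private theorem Sup_it {v : Fin n → ℕ} {T : ((Fin n → ℕ) × (Fin n → ℕ) → ℂ) →
    (Fin n → ℕ) × (Fin n → ℕ) → ℂ} (hT : ∀ ψ, Sup v ψ → Sup v (T ψ)) (k : ℕ)
    {ψ : (Fin n → ℕ) × (Fin n → ℕ) → ℂ} (h : Sup v ψ) : Sup v (T^[k] ψ) := by
  induction k generalizing ψ with
  | zero => exact h
  | succ k ih => exact ih (hT _ h)

private theorem wt_add' (hq : q ≠ 0) (a b : Fin n → ℕ) : wt q (a + b) = wt q a * wt q b := by
  unfold wt
  rw [← zpow_add₀ hq, ← Finset.sum_add_distrib]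
  congr 1
  refine Finset.sum_congr rfl fun i _ => ?_
  rw [Pi.add_apply]
  push_cast
  ring

theorem Lm_ne {k : ℕ} {x y : I2 n N} (h : Lm q n N k x y ≠ 0) :
    x.1.val + x.2.val = y.1.val + y.2.val := by
  have h1 : Sup (y.1.val + y.2.val)
      (fun p : (Fin n → ℕ) × (Fin n → ℕ) => if p = (y.1.val, y.2.val) then (1 : ℂ) else 0) := by
    intro z hz
    by_cases h2 : z = (y.1.val, y.2.val)
    · rw [h2]
    · exact absurd (if_neg h2) hz
  have h3 := Sup_it (v := y.1.val + y.2.val) (T := opE q) (fun _ => Sup_E) k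
    (Sup_it (v := y.1.val + y.2.val) (T := opF q) (fun _ => Sup_F) k h1)
  refine h3 (x.1.val, x.2.val) fun h4 => h ?_
  unfold Lm
  rw [h4, zero_div]

theorem Lm_wt (hq : q ≠ 0) {k : ℕ} {x y : I2 n N} (h : Lm q n N k x y ≠ 0) :
    wt q x.1.val * wt q x.2.val = wt q y.1.val * wt q y.2.val := by
  rw [← wt_add' hq, ← wt_add' hq, Lm_ne h]

theorem IsP.wt (hq : q ≠ 0) (hM : IsP q n N f M) {x y : I2 n N} (h : M x y ≠ 0) :
    wt q x.1.val * wt q x.2.val = wt q y.1.val * wt q y.2.val := by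
  obtain ⟨c, rfl, _⟩ := hM
  rw [Matrix.sum_apply] at h
  obtain ⟨k, _, hk⟩ := Finset.exists_ne_zero_of_sum_ne_zero h
  rw [Matrix.smul_apply, smul_eq_mul] at hk
  exact Lm_wt hq (right_ne_zero_of_mul hk)

end Pool.Agent.OR
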