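import Pool.Agent.OR.A.Defs
import Pool.Agent.S4.B.LE
import Pool.Agent.S4.B.TwS

/-! # The operators on parallel strands -/

set_option autoImplicit false

namespace Pool.Agent.OR

open Pool.Agent.H63.VC7 Pool.Agent.H63.VC8 Pool.Agent.H63.VC11 Pool.Agent.S4 Matrix

variable {n N : ℕ} {q : ℂ} {a : ℤ} {f g : ℕ → ℂ} {M M' : Matrix (I2 n N) (I2 n N) ℂ}

/-- The basis vectors. -/
noncomputable def dl (y : I2 n N) : Fn2 n := fun p => if p = (y.1.val, y.2.val) then 1 else 0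

theorem HomD_dl (y : I2 n N) : HomD (N : ℤ) N (dl y) := by
  intro x hx
  have h : x = (y.1.val, y.2.val) := by
    by_contra h
    exact hx (if_neg h)
  rw [h]
  exact ⟨by rw [y.1.sum], by rw [y.2.sum]⟩

theorem dl_apply (x y : I2 n N) : dl y (x.1.val, x.2.val) = if x = y then 1 else 0 := by
  unfold dl
  by_cases hxy : x = y
  · rw [hxy, if_pos rfl, if_pos rfl]
  · rw [if_neg hxy, if_neg]
    intro h
    apply hxy
    exact Prod.ext (Vn.ext (congrArg Prod.fst h)) (Vn.ext (congrArg Prod.snd h))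

theorem dl_expand (φ : Fn2 n) (h : HomD (N : ℤ) N φ) :
    φ = ∑ z : I2 n N, φ (z.1.val, z.2.val) • dl z := by
  funext x
  rw [Finset.sum_apply]
  simp only [Pi.smul_apply, smul_eq_mul, dl]
  by_cases hx : φ x = 0
  · rw [hx]
    symm
    refine Finset.sum_eq_zero fun z _ => ?_
    by_cases hz : x = (z.1.val, z.2.val)
    · rw [← hz, hx, zero_mul]
    · rw [if_neg hz, mul_zero]
  · have h1 := h x hx
    rw [Finset.sum_eq_single ((⟨x.1, by exact_mod_cast h1.1⟩, ⟨x.2, by exact_mod_cast h1.2⟩) :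
      I2 n N)]
    · simp
    · intro z _ hz
      rw [if_neg, mul_zero]
      intro h2
      apply hz
      subst h2
      rfl
    · intro h2
      exact absurd (Finset.mem_univ _) h2

theorem Lm_apply (q : ℂ) (k : ℕ) (x y : I2 n N) : Lm q n N k x y =
    (Eo q n ^ k) ((Fo q n ^ k) (dl y)) (x.1.val, x.2.val) / qf q k ^ 2 := by
  rw [Fo_pow, Eo_pow]
  rfl

/-- The action of the matrix. -/
theorem Lm_sum (q : ℂ) (k : ℕ) (φ : Fn2 n) (h : HomD (N : ℤ) N φ) (x : I2 n N) :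
    ∑ z : I2 n N, Lm q n N k x z * φ (z.1.val, z.2.val) =
      (Eo q n ^ k) ((Fo q n ^ k) φ) (x.1.val, x.2.val) / qf q k ^ 2 := by
  conv_rhs => rw [dl_expand φ h, map_sum, map_sum, Finset.sum_apply, Finset.sum_div]
  refine Finset.sum_congr rfl fun z _ => ?_
  rw [map_smul, map_smul, Pi.smul_apply, smul_eq_mul, Lm_apply]
  ring

theorem HomD_EF (q : ℂ) {ψ : Fn2 n} (h : HomD (N : ℤ) N ψ) :
    HomD (N : ℤ) N (Eo q n (Fo q n ψ)) := by
  have h2 := HomD_E q (HomD_F q h)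
  rwa [sub_add_cancel, add_sub_cancel_right] at h2

private theorem EFk (hq : q ≠ 0) (h1 : br q 1 ≠ 0) {A B : ℤ} {ψ : Fn2 n}
    (h : HomD A B ψ) (k : ℕ) : Eo q n ((Fo q n ^ (k + 1)) ψ) =
      (Fo q n ^ (k + 1)) (Eo q n ψ) +
        (qn q ((k : ℤ) + 1) * qn q (A - B - k)) • (Fo q n ^ k) ψ := by
  induction k with
  | zero =>
    rw [zero_add, pow_one, pow_zero, EF_comm q hq h]
    simp [qn_one q h1]
  | succ k ih =>
    have hF := HomD_Fpow q (k + 1) h
    have hc := EF_comm q hq hF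
    rw [pow_succ' (Fo q n) (k + 1), Module.End.mul_apply, Module.End.mul_apply, hc, ih, map_add,
      map_smul, ← Module.End.mul_apply (Fo q n) (Fo q n ^ k), ← pow_succ', add_assoc,
      ← add_smul]
    congr 2
    have ht := qn_three_term q hq (A - B - ((k : ℤ) + 1)) ((k : ℤ) + 1) 1
    rw [qn_one q h1, one_mul, show A - B - ((k : ℤ) + 1) + 1 = A - B - k by ring] at ht
    push_cast
    rw [show A - ((k : ℤ) + 1) - (B + ((k : ℤ) + 1)) = A - B - ((k : ℤ) + 1) - ((k : ℤ) + 1) by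
      ring]
    linear_combination -ht

theorem EF_step (hq : q ≠ 0) (h1 : br q 1 ≠ 0) {ψ : Fn2 n}
    (h : HomD (N : ℤ) N ψ) (k : ℕ) : (Eo q n ^ k) ((Fo q n ^ k) (Eo q n (Fo q n ψ))) =
      (Eo q n ^ (k + 1)) ((Fo q n ^ (k + 1)) ψ) +
        (qn q k * qn q ((k : ℤ) + 1)) • (Eo q n ^ k) ((Fo q n ^ k) ψ) := by
  have hc := EF_comm q hq h
  rw [sub_self, qn_zero, zero_smul, add_zero] at hc
  rw [pow_succ (Eo q n), Module.End.mul_apply, EFk hq h1 h k, map_add, map_smul, hc,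
    pow_succ (Fo q n), Module.End.mul_apply, add_assoc, ← add_smul]
  have h2 : qn q ((k : ℤ) + 1) * qn q ((N : ℤ) - N - k) + qn q k * qn q ((k : ℤ) + 1) = 0 := by
    rw [show (N : ℤ) - N - (k : ℤ) = -(k : ℤ) by ring, qn_neg]
    ring
  rw [h2, zero_smul, add_zero]

/-- The product with `L_1`. -/
theorem Lm_mul_one (hg : Gen q n N) (hn : 2 ≤ n) {k : ℕ} (hk : k ≤ N) :
    Lm q n N k * Lm q n N 1 = qn q ((k : ℤ) + 1) ^ 2 • Lm q n N (k + 1) +
      (qn q k * qn q ((k : ℤ) + 1)) • Lm q n N k := by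
  have hq := hg.1
  have h1 : br q 1 ≠ 0 := hg.br_one (by omega)
  have hf : qf q k ≠ 0 := hg.qf_ne (by omega) (by omega)
  have hf1 : qn q ((k : ℤ) + 1) ≠ 0 := hg.qn_ne (by omega) (by omega) (by omega)
  ext x y
  rw [Matrix.mul_apply]
  have e1 : ∀ z : I2 n N, Lm q n N 1 z y = (Eo q n (Fo q n (dl y))) (z.1.val, z.2.val) := by
    intro z
    rw [Lm_apply, pow_one, pow_one, qf_succ, qf_zero]
    simp [qn_one q h1]
  simp only [e1]
  rw [Lm_sum q k _ (HomD_EF q (HomD_dl y)), EF_step hq h1 (HomD_dl y)]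
  simp only [Matrix.add_apply, Matrix.smul_apply, smul_eq_mul, Pi.add_apply, Pi.smul_apply,
    Lm_apply, qf_succ]
  field_simp

theorem Lm_top (q : ℂ) (n N : ℕ) : Lm q n N (N + 1) = 0 := by
  ext x y
  rw [Lm_apply, HomD_neg_left (HomD_Fpow q (N + 1) (HomD_dl y)) (by push_cast; omega), map_zero]
  simp

theorem Lm_zero (q : ℂ) (n N : ℕ) : Lm q n N 0 = 1 := by
  ext x y
  rw [Lm_apply, pow_zero, pow_zero, qf_zero, Matrix.one_apply]
  simp only [Module.End.one_apply, one_pow, div_one]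
  exact dl_apply x y

theorem LE_zero (q : ℂ) (j : ℕ) : LE q 0 j = 1 := by
  unfold S4.LE
  rw [qb_zero_right, qb_zero_right, one_mul]

/-- The recursion for the values on the channels. -/
theorem LE_mul_one (hg : Gen q n N) (hn : 2 ≤ n) {k j : ℕ} (hk : k ≤ N) (hj : j ≤ N) :
    LE q k j * LE q 1 j = qn q ((k : ℤ) + 1) ^ 2 * LE q (k + 1) j +
      (qn q k * qn q ((k : ℤ) + 1)) * LE q k j := by
  have hq := hg.1
  have hb : ∀ k : ℕ, 1 ≤ k → k ≤ 2 * (N + 1) → br q k ≠ 0 := fun k h1 h2 =>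
    hg.2 k h1 (by omega)
  have h1 : br q 1 ≠ 0 := hg.br_one (by omega)
  have hk1 : br q ((k : ℤ) + 1) ≠ 0 := hg.br_ne (by omega) (by omega)
  rw [LE_prod hq hb (k := 1) (by omega) (j := j) (by omega),
    LE_prod hq hb (k := k) (by omega) (j := j) (by omega),
    LE_prod hq hb (k := k + 1) (by omega) (j := j) (by omega), Finset.prod_range_one,
    Finset.prod_range_succ]
  generalize ∏ i ∈ Finset.range k, (br q ((j : ℤ) - i) * br q ((j : ℤ) + i + 1) /
    br q ((i : ℤ) + 1) ^ 2) = A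
  have e2 : br q ((j : ℤ) - k) * br q ((j : ℤ) + k + 1) =
      br q j * br q ((j : ℤ) + 1) - br q k * br q ((k : ℤ) + 1) := by
    unfold br
    simp only [sub_mul, mul_sub, ← zpow_add₀ hq]
    rw [show -((j : ℤ) - k) + ((j : ℤ) + k + 1) = 2 * k + 1 by ring,
      show (j : ℤ) - k + ((j : ℤ) + k + 1) = 2 * j + 1 by ring,
      show (j : ℤ) - k + -((j : ℤ) + k + 1) = -(2 * k + 1) by ring,
      show -((j : ℤ) - k) + -((j : ℤ) + k + 1) = -(2 * j + 1) by ring,
      show (j : ℤ) + ((j : ℤ) + 1) = 2 * j + 1 by ring,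
      show (j : ℤ) + -((j : ℤ) + 1) = -1 by ring,
      show -(j : ℤ) + ((j : ℤ) + 1) = 1 by ring,
      show -(j : ℤ) + -((j : ℤ) + 1) = -(2 * j + 1) by ring,
      show (k : ℤ) + ((k : ℤ) + 1) = 2 * k + 1 by ring,
      show (k : ℤ) + -((k : ℤ) + 1) = -1 by ring,
      show -(k : ℤ) + ((k : ℤ) + 1) = 1 by ring,
      show -(k : ℤ) + -((k : ℤ) + 1) = -(2 * k + 1) by ring]
    ring
  simp only [Nat.cast_zero, sub_zero, add_zero, zero_add]
  unfold qn
  rw [e2]
  field_simp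
  ring

/-! ### The calculus -/

theorem IsP.congr (hf : IsP q n N f M) (h : ∀ j ≤ N, g j = f j) : IsP q n N g M := by
  obtain ⟨c, h1, h2⟩ := hf
  exact ⟨c, h1, fun j hj => (h j hj).trans (h2 j hj)⟩

theorem IsP.add (hf : IsP q n N f M) (hg : IsP q n N g M') :
    IsP q n N (fun j => f j + g j) (M + M') := by
  obtain ⟨c, h1, h2⟩ := hf
  obtain ⟨d, h3, h4⟩ := hg
  refine ⟨fun k => c k + d k, ?_, fun j hj => ?_⟩
  · rw [h1, h3, ← Finset.sum_add_distrib]
    exact Finset.sum_congr rfl fun k _ => (add_smul _ _ _).symm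
  · simp only [h2 j hj, h4 j hj, ← Finset.sum_add_distrib]
    exact Finset.sum_congr rfl fun k _ => by ring

theorem IsP.smul (c0 : ℂ) (hf : IsP q n N f M) : IsP q n N (fun j => c0 * f j) (c0 • M) := by
  obtain ⟨c, h1, h2⟩ := hf
  refine ⟨fun k => c0 * c k, ?_, fun j hj => ?_⟩
  · rw [h1, Finset.smul_sum]
    exact Finset.sum_congr rfl fun k _ => smul_smul _ _ _
  · simp only [h2 j hj, Finset.mul_sum]
    exact Finset.sum_congr rfl fun k _ => by ring

theorem IsP.zero : IsP q n N (fun _ => 0) (0 : Matrix (I2 n N) (I2 n N) ℂ) :=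
  ⟨fun _ => 0, by simp, fun j _ => by simp⟩

theorem IsP.sum {ι : Type*} (s : Finset ι) (F : ι → ℕ → ℂ)
    (X : ι → Matrix (I2 n N) (I2 n N) ℂ) (h : ∀ i ∈ s, IsP q n N (F i) (X i)) :
    IsP q n N (fun j => ∑ i ∈ s, F i j) (∑ i ∈ s, X i) := by
  classical
  induction s using Finset.induction_on with
  | empty => simpa using IsP.zero
  | insert b s hb ih =>
    have h1 := (h b (Finset.mem_insert_self _ _)).add
      (ih fun i hi => h i (Finset.mem_insert_of_mem hi))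
    rw [Finset.sum_insert hb]
    exact h1.congr fun j _ => Finset.sum_insert hb

theorem IsP.L {k : ℕ} (hk : k ≤ N + 1) : IsP q n N (LE q k) (Lm q n N k) := by
  rcases Nat.lt_or_ge N k with h | h
  · obtain rfl : k = N + 1 := by omega
    rw [Lm_top]
    exact IsP.zero.congr fun j hj => LE_lt (by omega)
  · refine ⟨fun i => if i = k then 1 else 0, ?_, fun j _ => ?_⟩
    · rw [Finset.sum_eq_single_of_mem k (Finset.mem_range.2 (by omega))
        (fun i _ hi => by beta_reduce; rw [if_neg hi, zero_smul])]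
      beta_reduce
      rw [if_pos rfl, one_smul]
    · rw [Finset.sum_eq_single_of_mem k (Finset.mem_range.2 (by omega))
        (fun i _ hi => by beta_reduce; rw [if_neg hi, zero_mul])]
      beta_reduce
      rw [if_pos rfl, one_mul]

theorem IsP.one (_hg : Gen q n N) (_hn : 2 ≤ n) : IsP q n N (fun _ => 1) 1 := by
  have h := IsP.L (q := q) (n := n) (N := N) (Nat.zero_le (N + 1))
  rw [Lm_zero] at h
  exact h.congr fun j _ => (LE_zero q j).symm

private theorem mul_L1 (hg : Gen q n N) (hn : 2 ≤ n) (hf : IsP q n N f M) :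
    IsP q n N (fun j => f j * LE q 1 j) (M * Lm q n N 1) := by
  obtain ⟨c, h1, h2⟩ := hf
  have h3 : M * Lm q n N 1 = ∑ k ∈ Finset.range (N + 1), c k •
      (qn q ((k : ℤ) + 1) ^ 2 • Lm q n N (k + 1) +
        (qn q k * qn q ((k : ℤ) + 1)) • Lm q n N k) := by
    rw [h1, Finset.sum_mul]
    refine Finset.sum_congr rfl fun k hk => ?_
    rw [Matrix.smul_mul, Lm_mul_one hg hn (Nat.lt_succ_iff.1 (Finset.mem_range.1 hk))]
  rw [h3]
  refine (IsP.sum (Finset.range (N + 1)) (fun k j => c k * (qn q ((k : ℤ) + 1) ^ 2 *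
    LE q (k + 1) j + (qn q k * qn q ((k : ℤ) + 1)) * LE q k j)) _ fun k hk => ?_).congr
      fun j hj => ?_
  · have hk' := Nat.lt_succ_iff.1 (Finset.mem_range.1 hk)
    exact (((IsP.L (by omega)).smul _).add ((IsP.L (by omega)).smul _)).smul _
  · rw [h2 j hj, Finset.sum_mul]
    refine Finset.sum_congr rfl fun k hk => ?_
    rw [mul_assoc, LE_mul_one hg hn (Nat.lt_succ_iff.1 (Finset.mem_range.1 hk)) hj]

private theorem mul_L (hg : Gen q n N) (hn : 2 ≤ n) (hf : IsP q n N f M) (k : ℕ) (hk : k ≤ N) :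
    IsP q n N (fun j => f j * LE q k j) (M * Lm q n N k) := by
  induction k with
  | zero =>
    rw [Lm_zero, Matrix.mul_one]
    exact hf.congr fun j _ => by rw [LE_zero, mul_one]
  | succ k ih =>
    have hk' : k ≤ N := by omega
    have h1 := ih hk'
    have hne : qn q ((k : ℤ) + 1) ≠ 0 := hg.qn_ne (by omega) (by omega) (by omega)
    have h2 := ((mul_L1 hg hn h1).add (h1.smul (-(qn q k * qn q ((k : ℤ) + 1))))).smul
      (qn q ((k : ℤ) + 1) ^ 2)⁻¹
    have h3 : M * Lm q n N (k + 1) = (qn q ((k : ℤ) + 1) ^ 2)⁻¹ •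
        (M * Lm q n N k * Lm q n N 1 + (-(qn q k * qn q ((k : ℤ) + 1))) •
          (M * Lm q n N k)) := by
      rw [Matrix.mul_assoc, Lm_mul_one hg hn hk', Matrix.mul_add, Matrix.mul_smul,
        Matrix.mul_smul, neg_smul, add_neg_cancel_right, smul_smul,
        inv_mul_cancel₀ (pow_ne_zero 2 hne), one_smul]
    rw [h3]
    refine h2.congr fun j hj => ?_
    have h4 := LE_mul_one hg hn hk' hj
    field_simp
    linear_combination (-(f j)) * h4

theorem IsP.mul (hg : Gen q n N) (hn : 2 ≤ n) (hf : IsP q n N f M) (hg' : IsP q n N g M') :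
    IsP q n N (fun j => f j * g j) (M * M') := by
  obtain ⟨c, h1, h2⟩ := hg'
  have h3 := IsP.sum (Finset.range (N + 1)) (fun k j => c k * (f j * LE q k j))
    (fun k => c k • (M * Lm q n N k)) fun k hk =>
      (mul_L hg hn hf k (Nat.lt_succ_iff.1 (Finset.mem_range.1 hk))).smul (c k)
  have h4 : M * M' = ∑ k ∈ Finset.range (N + 1), c k • (M * Lm q n N k) := by
    rw [h1, Finset.mul_sum]
    exact Finset.sum_congr rfl fun k _ => Matrix.mul_smul _ _ _
  rw [h4]
  refine h3.congr fun j hj => ?_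
  rw [h2 j hj, Finset.mul_sum]
  exact Finset.sum_congr rfl fun k _ => by ring

theorem IsP.of (hg : Gen q n N) (_hn : 2 ≤ n) (f : ℕ → ℂ) : ∃ M, IsP q n N f M := by
  obtain ⟨c, hc⟩ := le_span hg f
  exact ⟨_, c, rfl, hc⟩

theorem Rm_eq_sum (q : ℂ) (n N : ℕ) (e : ℤ) : Rm q n N e =
    ∑ k ∈ Finset.range (N + 1), ((-1) ^ (N - k) * q ^ (e * ((k : ℤ) - N))) • Lm q n N k := by
  ext x y
  rw [Matrix.sum_apply]
  unfold Rm opR
  refine Finset.sum_congr rfl fun k _ => ?_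
  rw [Matrix.smul_apply, smul_eq_mul]
  unfold Lm
  ring

theorem IsP_Rm (hg : Gen q n N) (_hn : 2 ≤ n) (p : Bool) :
    IsP q n N (hw q n N p true) (Rm q n N (if p then 1 else -1)) := by
  obtain ⟨e, he, hp⟩ : ∃ e : ℤ, (e = 1 ∨ e = -1) ∧ (if p then (1 : ℤ) else -1) = e := by
    cases p
    · exact ⟨-1, Or.inr rfl, rfl⟩
    · exact ⟨1, Or.inl rfl, rfl⟩
  rw [hp]
  refine ⟨_, Rm_eq_sum q n N e, fun j hj => ?_⟩
  have hq := hg.1
  have h1 := twS_LE hg he (Nat.zero_le N) hj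
  rw [LE_zero, mul_one] at h1
  have h2 : q ^ ((N : ℤ) * ((N : ℤ) + n - 1)) * (ka q n N)⁻¹ = (-1) ^ N * q ^ (-(N : ℤ)) := by
    have hs : ((-1 : ℂ) ^ N)⁻¹ = (-1) ^ N := by
      rcases neg_one_pow_eq_or ℂ N with h | h <;> rw [h] <;> norm_num
    unfold ka
    rw [mul_inv, hs, ← _root_.zpow_neg, mul_left_comm, ← zpow_add₀ hq]
    congr 2
    ring
  unfold hw
  rw [if_pos rfl, hp, h2, _root_.mul_zpow, h1, Finset.mul_sum]
  refine Finset.sum_congr rfl fun k hk => ?_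
  have hk' := Nat.lt_succ_iff.1 (Finset.mem_range.1 hk)
  have h3 : ((-1 : ℂ) ^ N * q ^ (-(N : ℤ))) ^ e = (-1) ^ N * q ^ (e * -(N : ℤ)) := by
    rw [_root_.mul_zpow, ← _root_.zpow_mul, mul_comm (-(N : ℤ)) e]
    congr 1
    rcases he with rfl | rfl
    · rw [zpow_one]
    · rw [_root_.zpow_neg_one]
      rcases neg_one_pow_eq_or ℂ N with h | h <;> rw [h] <;> norm_num
  have h4 : (-1 : ℂ) ^ (N - k) = (-1) ^ N * (-1) ^ k := by
    rw [← pow_add, show N + k = (N - k) + 2 * k by omega, pow_add, pow_mul]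
    simp
  rw [h3, qb_zero_right, h4, show e * ((k : ℤ) - N) = e * -(N : ℤ) + e * (0 + 1) * k by ring,
    zpow_add₀ hq]
  push_cast
  ring

end Pool.Agent.OR
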