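import Pool.Agent.OR.A.Defs

/-! # Rotations of diagrams, for all orientations -/

namespace Pool.Agent.OR

open Pool.Agent.H63.VC7 Pool.Agent.H63.VC8 Pool.Agent.H63.VC11 Pool.Agent.S4 Matrix

variable {n N : ℕ} {q : ℂ}

/-- The rotation by a quarter turn, with a minimum whose left end has the direction `c` and a maximum
whose left end has the direction `e`. -/
noncomputable def rotC (q : ℂ) (c e : Bool) (B : Matrix (I2 n N) (I2 n N) ℂ) :
    Matrix (I2 n N) (I2 n N) ℂ := fun x y =>
  (if c then 1 else (wt q x.1.val)⁻¹) * (if e then wt q y.2.val else 1) * B (x.2, y.2) (x.1, y.1)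

private theorem Rot_cup (q : ℂ) (c : Bool) (i : ℕ) (ψ : List (Fin n → ℕ) → ℂ)
    (p r : List (Fin n → ℕ)) (a b : Fin n → ℕ) (hp : p.length = i) :
    act q n N (cup c i) ψ (p ++ a :: b :: r) =
      if a = b ∧ ∑ j, a j = N then (if c then 1 else (wt q a)⁻¹) * ψ (p ++ r) else 0 := by
  cases c
  · simp only [cup, Bool.false_eq_true, if_false, act, List.drop_left' hp, List.take_left' hp]
  · simp only [cup, if_true, act, List.drop_left' hp, List.take_left' hp, one_mul]

private theorem Rot_cap (q : ℂ) (e : Bool) (i : ℕ) (ψ : List (Fin n → ℕ) → ℂ)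
    (p r : List (Fin n → ℕ)) (hp : p.length = i) :
    act q n N (cap e i) ψ (p ++ r) =
      ∑ a : Vn n N, (if e then wt q a.val else 1) * ψ (p ++ a.val :: a.val :: r) := by
  cases e
  · simp only [cap, Bool.false_eq_true, if_false, act, List.drop_left' hp, List.take_left' hp,
      one_mul]
    rw [sum_Vn]
  · simp only [cap, if_true, act, List.drop_left' hp, List.take_left' hp]
    rw [sum_Vn]

/-- The rotation by a quarter turn. -/
theorem Acts_rotC {i : ℕ} {w : List Piece} {B : Matrix (I2 n N) (I2 n N) ℂ} (c e : Bool)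
    (h : Acts q w (i + 1) B) :
    Acts q (cup c i :: (w ++ [cap e (i + 2)])) i (rotC q c e B) := by
  intro ψ p s x hp
  have e1 : eval q n N (cup c i :: (w ++ [cap e (i + 2)])) ψ =
      act q n N (cap e (i + 2)) (eval q n N w (act q n N (cup c i) ψ)) := by
    change eval q n N (w ++ [cap e (i + 2)]) (act q n N (cup c i) ψ) = _
    rw [eval_append]
    rfl
  rw [e1]
  have hl : p ++ x.1.val :: x.2.val :: s = (p ++ [x.1.val, x.2.val]) ++ s := by simp
  have hlen : (p ++ [x.1.val, x.2.val]).length = i + 2 := by simp [hp]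
  rw [hl, Rot_cap q e (i + 2) _ _ _ hlen]
  have key : ∀ a : Vn n N, eval q n N w (act q n N (cup c i) ψ)
      (p ++ [x.1.val, x.2.val] ++ a.val :: a.val :: s) =
      ∑ d : Vn n N, B (x.2, a) (x.1, d) *
        ((if c then 1 else (wt q x.1.val)⁻¹) * ψ (p ++ d.val :: a.val :: s)) := by
    intro a
    have e2 : p ++ [x.1.val, x.2.val] ++ a.val :: a.val :: s =
        (p ++ [x.1.val]) ++ ((x.2, a) : I2 n N).1.val :: ((x.2, a) : I2 n N).2.val ::
          a.val :: s := by simp
    rw [e2, h (act q n N (cup c i) ψ) (p ++ [x.1.val]) (a.val :: s) (x.2, a) (by simp [hp]),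
      Fintype.sum_prod_type, Finset.sum_eq_single x.1]
    · refine Finset.sum_congr rfl fun d _ => ?_
      congr 1
      have e3 : (p ++ [x.1.val]) ++ ((x.1, d) : I2 n N).1.val :: ((x.1, d) : I2 n N).2.val ::
          a.val :: s = p ++ x.1.val :: x.1.val :: (d.val :: a.val :: s) := by simp
      rw [e3, Rot_cup q c i _ _ _ _ _ hp, if_pos ⟨rfl, x.1.sum⟩]
    · intro b _ hb
      refine Finset.sum_eq_zero fun d _ => ?_
      have e3 : (p ++ [x.1.val]) ++ ((b, d) : I2 n N).1.val :: ((b, d) : I2 n N).2.val ::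
          a.val :: s = p ++ x.1.val :: b.val :: (d.val :: a.val :: s) := by simp
      rw [e3, Rot_cup q c i _ _ _ _ _ hp, if_neg, mul_zero]
      rintro ⟨hd, _⟩
      exact hb (Vn.ext hd).symm
    · intro hne
      exact absurd (Finset.mem_univ _) hne
  simp only [key, Fintype.sum_prod_type]
  simp only [Finset.mul_sum]
  rw [Finset.sum_comm]
  refine Finset.sum_congr rfl fun d _ => ?_
  refine Finset.sum_congr rfl fun a _ => ?_
  simp only [rotC]
  ring

end Pool.Agent.OR
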