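import Pool.Agent.OR.A.Flip
import Pool.Agent.OR.A.Par
import Pool.Agent.OR.A.RotC
import Pool.Agent.OR.A.LmWt
import Pool.Agent.H63.VC11.Bra11

/-! # The tangle of a child -/

namespace Pool.Agent.OR

open Pool.Agent.H63.VC7 Pool.Agent.H63.VC8 Pool.Agent.H63.VC11 Pool.Agent.S4 Matrix

variable {n N : ℕ} {q : ℂ} {a : ℤ} {f g : ℕ → ℂ} {M M' : Matrix (I2 n N) (I2 n N) ℂ}

/-- The transforms are inverse to each other. -/
theorem Ro_Rt (hg : Gen q n N) (hn : 2 ≤ n) (ha : IsA n N a) (f : ℕ → ℂ) {l : ℕ} (hl : l ≤ N) :
    Ro n q N a (Rt n q N a f) l = f l := by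
  set A : Matrix (Fin (N + 1)) (Fin (N + 1)) ℂ := fun l j =>
    dimT n N q j / dimS n N q * six n q N a j l with hA
  set B : Matrix (Fin (N + 1)) (Fin (N + 1)) ℂ := fun j l =>
    dimA n q l / dimS n N q * six n q N a j l with hB
  have h1 : B * A = 1 := by
    ext j k
    have h2 := Rt_Ro hg hn ha (fun i => if i = (k : ℕ) then 1 else 0)
      (Nat.lt_succ_iff.1 j.isLt)
    unfold Rt Ro at h2
    rw [← Fin.sum_univ_eq_sum_range (fun l => dimA n q l / dimS n N q * six n q N a j l *
      ∑ i ∈ Finset.range (N + 1), dimT n N q i / dimS n N q * six n q N a i l *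
        if i = (k : ℕ) then 1 else 0)] at h2
    rw [Matrix.mul_apply]
    have h3 : ∀ l : Fin (N + 1), B j l * A l k = dimA n q l / dimS n N q * six n q N a j l *
      ∑ i ∈ Finset.range (N + 1), dimT n N q i / dimS n N q * six n q N a i l *
        (if i = (k : ℕ) then 1 else 0) := by
      intro l
      simp only [mul_ite, mul_one, mul_zero]
      rw [Finset.sum_ite_eq', if_pos (Finset.mem_range.2 k.isLt)]
    rw [Finset.sum_congr rfl fun l _ => h3 l, h2, Matrix.one_apply]
    by_cases h4 : j = k
    · rw [if_pos h4, if_pos (by rw [h4])]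
    · rw [if_neg h4, if_neg fun h5 => h4 (Fin.ext h5)]
  have h2 : A * B = 1 := mul_eq_one_comm.1 h1
  have h3 : (A * B).mulVec (fun i => f i) ⟨l, Nat.lt_succ_iff.2 hl⟩ = f l := by
    rw [h2, Matrix.one_mulVec]
  rw [← h3, ← Matrix.mulVec_mulVec]
  unfold Ro Rt Matrix.mulVec dotProduct
  rw [← Fin.sum_univ_eq_sum_range (fun j => dimT n N q j / dimS n N q * six n q N a j l *
    ∑ l ∈ Finset.range (N + 1), dimA n q l / dimS n N q * six n q N a j l * f l)]
  refine Finset.sum_congr rfl fun j _ => ?_
  rw [← Fin.sum_univ_eq_sum_range (fun l => dimA n q l / dimS n N q * six n q N a j l * f l)]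

private theorem rotC_ff (hg : Gen q n N) (hn : 2 ≤ n) (f : ℕ → ℂ) :
    rotC q false false (Oh q n N f) = flipM q (Oh q n N (Ph q n N f)) := by
  rw [← rot_Oh q N hg (by omega), ← rotD_eq q hg.1 _ (Oh_wt q N _)]
  funext x y
  have h1 := wt_ne hg.1 x.1.val
  simp only [rotC, rotD, Bool.false_eq_true, if_false, mul_one]
  rw [Oh_half hg.1 f (x.2, y.2) (x.1, y.1)]
  simp only
  field_simp

private theorem rotC_tt (hg : Gen q n N) (hn : 2 ≤ n) (f : ℕ → ℂ) :
    rotC q true true (flipM q (Oh q n N f)) = Oh q n N (Ph q n N f) := by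
  rw [← rot_Oh q N hg (by omega), ← rotU_flipM q hg.1 _ (Oh_wt q N _)]
  funext x y
  simp only [rotC, rotU, if_true, one_mul]

private theorem rotC_ft (B : Matrix (I2 n N) (I2 n N) ℂ) : rotC q false true B = X1b q B := by
  funext x y
  simp only [rotC, X1b, if_true, if_false, Bool.false_eq_true]

private theorem rotC_tf_DDb (B : Matrix (I2 n N) (I2 n N) ℂ) :
    rotC q true false (DDb B) = X2b B := by
  funext x y
  simp only [rotC, X2b, DDb, if_true, if_false, Bool.false_eq_true, one_mul]

private theorem rotC_tf_X2b (B : Matrix (I2 n N) (I2 n N) ℂ) :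
    rotC q true false (X2b B) = B := by
  funext x y
  simp only [rotC, X2b, if_true, if_false, Bool.false_eq_true, one_mul]

private theorem rotC_ft_X1b (hq : q ≠ 0) (hM : IsP q n N f M) :
    rotC q false true (X1b q M) = DDb M := by
  funext x y
  simp only [rotC, X1b, DDb, if_true, if_false, Bool.false_eq_true]
  by_cases h : M (y.2, y.1) (x.2, x.1) = 0
  · rw [h]; simp
  · have h1 := hM.wt hq h
    have h2 := wt_ne hq x.1.val
    have h3 := wt_ne hq x.2.val
    have h4 := wt_ne hq y.1.val
    have h5 := wt_ne hq y.2.val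
    simp only at h1
    field_simp
    linear_combination h1

/-- The tangle of a child, rotated by a quarter turn. -/
theorem ActsT_blk (hg : Gen q n N) (hn : 2 ≤ n) (ha : IsA n N a) {T : Bool → ℕ → List Piece}
    {pv pc l : Bool} {i : ℕ} (h : ¬ (pv = true ∧ pc = true))
    (hT : ActsT q n N (T (if pc then l else !l) (i + 1)) (i + 1) pc (if pc then l else !l)
      (if pc then l else if pv then l else !l) f) :
    ActsT q n N (blk T pv pc l i) i pv l (if pv then l else (l ^^ pc))
      (kerF q n N a pv pc f) := by
  have k1 : kerF q n N a false false f = Ph q n N f := by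
    funext X
    simp [kerF]
  have k2 : kerF q n N a false true f = Ro n q N a f := by
    funext X
    simp [kerF]
  have k3 : kerF q n N a true false f = Rt n q N a f := by
    funext X
    simp [kerF]
  unfold blk
  cases pv
  · cases pc
    · -- both antiparallel
      rw [k1]
      simp only [ActsT, Bool.false_eq_true, if_false] at hT ⊢
      have h1 := Acts_rotC l l hT
      cases l
      · simp only [MA, Bool.not_false, if_true, Matrix.one_mul, Matrix.mul_one] at h1
        rw [rotC_ff hg hn] at h1
        simpa [MA, flipM_eq, Matrix.mul_assoc] using h1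
      · simp only [MA, Bool.not_true, Bool.false_eq_true, if_false, if_true,
          Matrix.one_mul] at h1
        rw [← flipM_eq, rotC_tt hg hn] at h1
        simpa [MA] using h1
    · -- the strands of the child are parallel
      rw [k2]
      simp only [ActsT, Bool.false_eq_true, if_false, if_true] at hT ⊢
      obtain ⟨-, M, hM, hT⟩ := hT
      cases l
      · have h1 := Acts_rotC true false hT
        simp only [Bool.false_eq_true, if_false] at h1
        rw [rotC_tf_DDb, hM.X2 hg hn ha] at h1
        simpa using h1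
      · have h1 := Acts_rotC false true hT
        simp only [if_true] at h1
        rw [rotC_ft, hM.X1 hg hn ha] at h1
        simpa using h1
  · cases pc
    · -- the strands of the node are parallel
      rw [k3]
      simp only [ActsT, Bool.false_eq_true, if_false, if_true] at hT ⊢
      obtain ⟨M, hM⟩ := IsP.of hg hn (Rt n q N a f)
      refine ⟨trivial, M, hM, ?_⟩
      have h0 : ∀ l l', MA q n N l l' (Ro n q N a (Rt n q N a f)) = MA q n N l l' f :=
        fun l l' => MA_congr l l' fun X hX => Ro_Rt hg hn ha f hX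
      cases l
      · have h1 := Acts_rotC false true hT
        simp only [Bool.not_false] at h1
        rw [← h0, ← hM.X1 hg hn ha, rotC_ft_X1b hg.1 hM] at h1
        simpa using h1
      · have h1 := Acts_rotC true false hT
        simp only [Bool.not_true] at h1
        rw [← h0, ← hM.X2 hg hn ha, rotC_tf_X2b] at h1
        simpa using h1
    · exact absurd ⟨rfl, rfl⟩ h

end Pool.Agent.OR
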