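import Pool.Agent.OR.A.Flip
import Pool.Agent.OR.A.Par

/-! # The crossings -/

set_option autoImplicit false

namespace Pool.Agent.OR

open Pool.Agent.H63.VC7 Pool.Agent.H63.VC8 Pool.Agent.H63.VC11 Pool.Agent.S4 Matrix

variable {n N : ℕ} {q : ℂ}

/-! ### Antiparallel strands -/

private theorem X1m_MA (hg : Gen q n N) (hn : 2 ≤ n) {e : ℤ} (he : e = 1 ∨ e = -1) :
    X1m q n N e = MA q n N true false (fun X => q ^ (e * ((N : ℤ) * ((N : ℤ) + n - 1))) *
      twA q n X ^ (-e)) := by
  have h1 : X1m q n N e = X1b q (Rm q n N e) := rfl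
  have h2 : Yb q (Rm q n N e) = Ym q n N e := rfl
  rw [h1, X1b_eq, h2, Ym_Uh hg hn he]
  simp [MA]

private theorem X2m_Ym (hg : Gen q n N) (hn : 2 ≤ n) (e : ℤ) :
    X2m q n N e = Ym q n N e * Si q n N := by
  ext x y
  rw [Matrix.mul_apply, Finset.sum_eq_single (y.2.rev, y.1.rev)]
  · have hw := wt_ne hg.1 y.1.val
    have h1 : Si q n N (y.2.rev, y.1.rev) y = wt q y.1.val := if_pos rfl
    rw [h1]
    simp only [X2m, Ym, Vn.rev_val]
    rw [An.Rm_flip q e hg (by omega) x.2 y.2 y.1 x.1, wt_rev]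
    field_simp
  · intro z _ hz
    have h1 : Si q n N z y = 0 := if_neg hz
    rw [h1, mul_zero]
  · intro h
    exact absurd (Finset.mem_univ _) h

private theorem X2m_MA (hg : Gen q n N) (hn : 2 ≤ n) {e : ℤ} (he : e = 1 ∨ e = -1) :
    X2m q n N e = MA q n N false true (fun X => q ^ (e * ((N : ℤ) * ((N : ℤ) + n - 1))) *
      twA q n X ^ (-e)) := by
  rw [X2m_Ym hg hn, Ym_Uh hg hn he]
  simp [MA]

/-! ### Parallel strands oriented downwards -/

private theorem act_cupDU (q : ℂ) (i : ℕ) (ψ : List (Fin n → ℕ) → ℂ) (p r : List (Fin n → ℕ))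
    (a b : Fin n → ℕ) (hp : p.length = i) :
    act q n N (Piece.cupDU i) ψ (p ++ a :: b :: r) =
      if a = b ∧ ∑ j, a j = N then (wt q a)⁻¹ * ψ (p ++ r) else 0 := by
  simp only [act, List.drop_left' hp, List.take_left' hp]

private theorem Acts_DU {q : ℂ} {i : ℕ} {w : List Piece} {B : Matrix (I2 n N) (I2 n N) ℂ}
    (h : Acts q w (i + 1) B) :
    Acts q (Piece.cupDU i :: (w ++ [Piece.capUD (i + 2)])) i
      (fun x y => (wt q x.1.val)⁻¹ * wt q y.2.val * B (x.2, y.2) (x.1, y.1)) := by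
  intro ψ p s x hp
  have e1 : eval q n N (Piece.cupDU i :: (w ++ [Piece.capUD (i + 2)])) ψ =
      act q n N (Piece.capUD (i + 2)) (eval q n N w (act q n N (Piece.cupDU i) ψ)) := by
    change eval q n N (w ++ [Piece.capUD (i + 2)]) (act q n N (Piece.cupDU i) ψ) = _
    rw [eval_append]
    rfl
  rw [e1]
  have hl : p ++ x.1.val :: x.2.val :: s = (p ++ [x.1.val, x.2.val]) ++ s := by simp
  have hlen : (p ++ [x.1.val, x.2.val]).length = i + 2 := by simp [hp]
  rw [hl]
  have hcap : ∀ φ : List (Fin n → ℕ) → ℂ,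
      act q n N (Piece.capUD (i + 2)) φ (p ++ [x.1.val, x.2.val] ++ s) =
      ∑ a : Vn n N, wt q a.val * φ (p ++ [x.1.val, x.2.val] ++ a.val :: a.val :: s) := by
    intro φ
    simp only [act, List.drop_left' hlen, List.take_left' hlen]
    rw [sum_Vn]
  rw [hcap]
  have key : ∀ a : Vn n N, eval q n N w (act q n N (Piece.cupDU i) ψ)
      (p ++ [x.1.val, x.2.val] ++ a.val :: a.val :: s) =
      ∑ c : Vn n N, B (x.2, a) (x.1, c) * ((wt q x.1.val)⁻¹ *
        ψ (p ++ c.val :: a.val :: s)) := by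
    intro a
    have e2 : p ++ [x.1.val, x.2.val] ++ a.val :: a.val :: s =
        (p ++ [x.1.val]) ++ ((x.2, a) : I2 n N).1.val :: ((x.2, a) : I2 n N).2.val ::
          a.val :: s := by simp
    rw [e2, h (act q n N (Piece.cupDU i) ψ) (p ++ [x.1.val]) (a.val :: s) (x.2, a)
      (by simp [hp]), Fintype.sum_prod_type, Finset.sum_eq_single x.1]
    · refine Finset.sum_congr rfl fun c _ => ?_
      congr 1
      have e3 : (p ++ [x.1.val]) ++ ((x.1, c) : I2 n N).1.val :: ((x.1, c) : I2 n N).2.val ::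
          a.val :: s = p ++ x.1.val :: x.1.val :: (c.val :: a.val :: s) := by simp
      rw [e3, act_cupDU _ _ _ _ _ _ _ hp, if_pos ⟨rfl, x.1.sum⟩]
    · intro b _ hb
      refine Finset.sum_eq_zero fun c _ => ?_
      have e3 : (p ++ [x.1.val]) ++ ((b, c) : I2 n N).1.val :: ((b, c) : I2 n N).2.val ::
          a.val :: s = p ++ x.1.val :: b.val :: (c.val :: a.val :: s) := by simp
      rw [e3, act_cupDU _ _ _ _ _ _ _ hp, if_neg, mul_zero]
      rintro ⟨hc, _⟩
      exact hb (Vn.ext hc).symm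
    · intro hne
      exact absurd (Finset.mem_univ _) hne
  simp only [key, Fintype.sum_prod_type, Finset.mul_sum]
  rw [Finset.sum_comm]
  refine Finset.sum_congr rfl fun y _ => ?_
  refine Finset.sum_congr rfl fun c _ => ?_
  ring

private theorem wt_add' {q : ℂ} (hq : q ≠ 0) (a b : Fin n → ℕ) :
    wt q (a + b) = wt q a * wt q b := by
  unfold wt
  rw [← zpow_add₀ hq]
  congr 1
  simp only [Pi.add_apply, Nat.cast_add, add_mul, Finset.sum_add_distrib]

private theorem wt_Rm (hg : Gen q n N) (hn : 2 ≤ n) {e : ℤ} {x y : I2 n N}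
    (h : Rm q n N e x y ≠ 0) :
    wt q x.1.val * wt q x.2.val = wt q y.1.val * wt q y.2.val := by
  rw [Rm_eq q N e hg (by omega)] at h
  have h1 := KR_wt q N e _ _ _ _ (left_ne_zero_of_mul (a := KR q N e x.1.val x.2.val y.1.val
    y.2.val) (b := (gf q y.1.val * gf q y.2.val)⁻¹) (by rwa [div_eq_mul_inv] at h))
  rw [← wt_add' hg.1, ← wt_add' hg.1, h1]

private theorem Acts_DD (hg : Gen q n N) (hn : 2 ≤ n) {i : ℕ} {P : ℕ → Piece} {e : ℤ}
    (h : Acts q [P (i + 2)] (i + 2) (Rm q n N e)) :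
    Acts q [Piece.cupDU i, Piece.cupDU (i + 1), P (i + 2), Piece.capUD (i + 3),
      Piece.capUD (i + 2)] i (DDb (Rm q n N e)) := by
  have h1 := Acts_DU (Acts_DU h)
  have h2 : (fun x y : I2 n N => (wt q x.1.val)⁻¹ * wt q y.2.val *
      (fun x y : I2 n N => (wt q x.1.val)⁻¹ * wt q y.2.val *
        Rm q n N e (x.2, y.2) (x.1, y.1)) (x.2, y.2) (x.1, y.1)) = DDb (Rm q n N e) := by
    funext x y
    show (wt q x.1.val)⁻¹ * wt q y.2.val * ((wt q x.2.val)⁻¹ * wt q y.1.val *
      Rm q n N e (y.2, y.1) (x.2, x.1)) = Rm q n N e (y.2, y.1) (x.2, x.1)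
    by_cases h0 : Rm q n N e (y.2, y.1) (x.2, x.1) = 0
    · rw [h0, mul_zero, mul_zero]
    · have h3 := wt_Rm hg hn h0
      simp only at h3
      have w1 := wt_ne hg.1 x.1.val
      have w2 := wt_ne hg.1 x.2.val
      have h4 : (wt q x.1.val)⁻¹ * wt q y.2.val * ((wt q x.2.val)⁻¹ * wt q y.1.val *
          Rm q n N e (y.2, y.1) (x.2, x.1)) = (wt q y.2.val * wt q y.1.val) *
          (wt q x.2.val * wt q x.1.val)⁻¹ * Rm q n N e (y.2, y.1) (x.2, x.1) := by
        rw [mul_inv]
        ring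
      rw [h4, h3, mul_inv_cancel₀ (mul_ne_zero w2 w1), one_mul]
  rw [← h2]
  exact h1

theorem ActsT_cross (hg : Gen q n N) (hn : 2 ≤ n) (p P l : Bool) (i : ℕ) :
    ActsT q n N (cross p l (if P then l else !l) i) i P l (if P then l else !l)
      (hw q n N p P) := by
  have hR : ∀ (p : Bool) (j : ℕ), Acts q [if p then Piece.pos j else Piece.neg j] j
      (Rm q n N (if p then 1 else -1)) := by
    intro p j
    cases p
    · exact Acts_neg q j
    · exact Acts_pos q j
  unfold ActsT
  cases P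
  · simp only [Bool.false_eq_true, if_false]
    have he : (if p then (-1 : ℤ) else 1) = 1 ∨ (if p then (-1 : ℤ) else 1) = -1 := by
      cases p
      · exact Or.inl rfl
      · exact Or.inr rfl
    have hA : ∀ j : ℕ, Acts q [(if p then Piece.neg else Piece.pos) j] j
        (Rm q n N (if p then -1 else 1)) := by
      intro j
      cases p
      · exact Acts_pos q j
      · exact Acts_neg q j
    have hf : hw q n N p false = fun X => q ^ ((if p then (-1 : ℤ) else 1) *
        ((N : ℤ) * ((N : ℤ) + n - 1))) * twA q n X ^ (-(if p then (-1 : ℤ) else 1)) := by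
      funext X
      unfold hw
      simp only [Bool.false_eq_true, if_false]
      rw [_root_.mul_zpow, ← _root_.zpow_mul]
      cases p
      · simp
      · simp
    cases l
    · rw [hf, Bool.not_false, ← X2m_MA hg hn he]
      exact Acts_crossDU (hA (i + 1))
    · rw [hf, Bool.not_true, ← X1m_MA hg hn he]
      exact Acts_crossUD (hA (i + 1))
  · simp only [if_true, true_and]
    refine ⟨_, IsP_Rm hg hn p, ?_⟩
    cases l
    · simp only [Bool.false_eq_true, if_false]
      have h1 := Acts_DD (P := if p then Piece.pos else Piece.neg) (i := i)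
        (e := if p then 1 else -1) hg hn (by
          cases p
          · exact Acts_neg q (i + 2)
          · exact Acts_pos q (i + 2))
      cases p
      · exact h1
      · exact h1
    · simp only [if_true]
      exact hR p i

end Pool.Agent.OR
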