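import Pool.Agent.OR.A.ActsN
import Pool.Agent.OR.A.ActsX
import Pool.Agent.OR.A.ActsB

/-! # The operators of the pieces of the diagrams of a tree -/
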