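import Pool.Agent.OR.A.Flip
import Pool.Agent.OR.A.Par

/-! # Composition of diagrams of four-ended tangles -/

namespace Pool.Agent.OR

open Pool.Agent.H63.VC7 Pool.Agent.H63.VC8 Pool.Agent.H63.VC11 Pool.Agent.S4 Matrix

variable {n N : ℕ} {q : ℂ} {a : ℤ} {f g : ℕ → ℂ} {M M' : Matrix (I2 n N) (I2 n N) ℂ}

theorem DDb_one : DDb (1 : Matrix (I2 n N) (I2 n N) ℂ) = 1 := by
  ext x y
  unfold DDb
  rw [Matrix.one_apply, Matrix.one_apply]
  congr 1
  rw [Prod.ext_iff, Prod.ext_iff]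
  exact propext ⟨fun h => ⟨h.2.symm, h.1.symm⟩, fun h => ⟨h.2.symm, h.1.symm⟩⟩

theorem DDb_mul (A B : Matrix (I2 n N) (I2 n N) ℂ) : DDb (A * B) = DDb B * DDb A := by
  ext x y
  unfold DDb
  rw [Matrix.mul_apply, Matrix.mul_apply, ← Equiv.sum_comp (Equiv.prodComm (Vn n N) (Vn n N))]
  refine Finset.sum_congr rfl fun z _ => ?_
  rw [Equiv.prodComm_apply, mul_comm]
  rfl

theorem ActsT_nil (hg : Gen q n N) (hn : 2 ≤ n) (i : ℕ) (P l : Bool) :
    ActsT q n N [] i P l l (fun _ => 1) := by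
  unfold ActsT
  cases P
  · simp only [Bool.false_eq_true, if_false]
    rw [MA_one hg hn]
    exact Acts_nil q i
  · rw [if_pos rfl]
    refine ⟨rfl, 1, IsP.one hg hn, ?_⟩
    rw [DDb_one, ite_self]
    exact Acts_nil q i

theorem ActsT_congr {w : List Piece} {i : ℕ} {P l l' : Bool} (h1 : ActsT q n N w i P l l' f)
    (h : ∀ X ≤ N, g X = f X) : ActsT q n N w i P l l' g := by
  unfold ActsT at h1 ⊢
  cases P
  · simp only [Bool.false_eq_true, if_false] at h1 ⊢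
    rw [MA_congr l l' h]
    exact h1
  · rw [if_pos rfl] at h1 ⊢
    obtain ⟨h2, M, h3, h4⟩ := h1
    exact ⟨h2, M, h3.congr h, h4⟩

theorem ActsT_append (hg : Gen q n N) (hn : 2 ≤ n) {w1 w2 : List Piece} {i : ℕ}
    {P l l' l'' : Bool} (h1 : ActsT q n N w1 i P l l' f) (h2 : ActsT q n N w2 i P l' l'' g) :
    ActsT q n N (w1 ++ w2) i P l l'' (fun X => f X * g X) := by
  unfold ActsT at h1 h2 ⊢
  cases P
  · simp only [Bool.false_eq_true, if_false] at h1 h2 ⊢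
    rw [← MA_mul hg hn l l' l'' f g]
    exact Acts_append h1 h2
  · rw [if_pos rfl] at h1 h2 ⊢
    obtain ⟨rfl, M1, h3, h4⟩ := h1
    obtain ⟨rfl, M2, h5, h6⟩ := h2
    cases l
    · refine ⟨rfl, M1 * M2, IsP.mul hg hn h3 h5, ?_⟩
      simp only [Bool.false_eq_true, if_false] at h4 h6 ⊢
      rw [DDb_mul]
      exact Acts_append h4 h6
    · refine ⟨rfl, M2 * M1, (IsP.mul hg hn h5 h3).congr fun j _ => mul_comm _ _, ?_⟩
      rw [if_pos rfl] at h4 h6 ⊢
      exact Acts_append h4 h6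

end Pool.Agent.OR
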