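import Pool.Agent.H63.VC11.KHb11
import Pool.Agent.H63.VC11.YDC11
import Pool.Agent.H63.VC11.Yk11

/-!
# Identities for the matrix elements of `F ^ k E ^ k`

The operators `Bk : V_N ⊗ V_N* → V_{N+1} ⊗ V_{N+1}*` and `Bc : V_{N+1} ⊗ V_{N+1}* → V_N ⊗ V_N*`.
-/

set_option autoImplicit false

namespace Pool.Agent.OR

open Pool.Agent.H63.VC7 Pool.Agent.H63.VC8 Pool.Agent.H63.VC11 Matrix

variable {n : ℕ}

private theorem gen (P Q : Fin n → Module.End ℂ (Fn2 n)) (A B : Module.End ℂ (Fn2 n))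
    (u : Fin n → ℂ) (ψ : Fn2 n) (s : ℂ) (hP : ∀ i, Commute (P i) A) (hQ : ∀ i, Commute (Q i) B)
    (hs : ∀ x, ∑ i, u i * P i (Q i (B ψ)) x = s * (B ψ) x)
    (x : (Fin n → ℕ) × (Fin n → ℕ)) :
    ∑ i, u i * P i (A (B (Q i ψ))) x = s * A (B ψ) x := by
  have h1 : ∀ i, P i (A (B (Q i ψ))) = A (P i (Q i (B ψ))) := by
    intro i
    have e1 : B (Q i ψ) = Q i (B ψ) := by
      have := congrArg (fun L : Module.End ℂ (Fn2 n) => L ψ) (hQ i).eq
      simpa [Module.End.mul_apply] using this.symm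
    have e2 : ∀ φ : Fn2 n, P i (A φ) = A (P i φ) := by
      intro φ
      have := congrArg (fun L : Module.End ℂ (Fn2 n) => L φ) (hP i).eq
      simpa [Module.End.mul_apply] using this
    rw [e1, e2]
  have h2 : (∑ i, u i • P i (Q i (B ψ))) = s • B ψ := by
    funext y
    rw [Finset.sum_apply]
    simpa [Pi.smul_apply, smul_eq_mul] using hs y
  have h3 := congrArg (fun φ : Fn2 n => A φ x) h2
  simp only [map_sum, map_smul, Finset.sum_apply, Pi.smul_apply, smul_eq_mul] at h3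
  rw [← h3]
  refine Finset.sum_congr rfl fun i _ => ?_
  rw [h1]

private theorem mXL1 (q : ℂ) (i : Fin n) (b a : Fin n → ℕ) :
    XL1 q i (mon q b a) = q ^ (lo b i) • mon q (b + Pi.single i 1) a := by
  funext x
  obtain ⟨c, d⟩ := x
  change qn q (c i) * q ^ (lo c i) * mon q b a (c - Pi.single i 1, d) =
    q ^ (lo b i) * mon q (b + Pi.single i 1) a (c, d)
  unfold mon
  by_cases hd : c i = 0
  · have h1 : ((c, d) : (Fin n → ℕ) × (Fin n → ℕ)) ≠ (b + Pi.single i 1, a) := by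
      intro h
      have := congrFun (Prod.mk.inj h).1 i
      rw [add_single_self] at this
      omega
    rw [if_neg h1, hd]
    simp [qn_zero]
  · obtain ⟨c', rfl⟩ := exists_add hd
    rw [add_sub_single]
    by_cases h : c' = b ∧ d = a
    · obtain ⟨rfl, rfl⟩ := h
      rw [if_pos rfl, if_pos rfl, gf_add, lo_add_self, add_single_self]
      push_cast
      ring
    · rw [if_neg (fun h' => h ⟨(Prod.mk.inj h').1, (Prod.mk.inj h').2⟩), if_neg, mul_zero, mul_zero]
      intro h'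
      exact h ⟨add_right_cancel (Prod.mk.inj h').1, (Prod.mk.inj h').2⟩

private theorem mDL1 (q : ℂ) (i : Fin n) (b a : Fin n → ℕ) :
    DL1 q i (mon q b a) = (qn q (b i) * q ^ (-(hi b i))) • mon q (b - Pi.single i 1) a := by
  funext x
  obtain ⟨c, d⟩ := x
  change q ^ (-(hi c i)) * mon q b a (c + Pi.single i 1, d) =
    qn q (b i) * q ^ (-(hi b i)) * mon q (b - Pi.single i 1) a (c, d)
  unfold mon
  by_cases hb : b i = 0
  · have h1 : ((c + Pi.single i 1, d) : (Fin n → ℕ) × (Fin n → ℕ)) ≠ (b, a) := by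
      intro h
      have := congrFun (Prod.mk.inj h).1 i
      rw [add_single_self] at this
      omega
    rw [if_neg h1, hb]
    simp [qn_zero]
  · obtain ⟨b', rfl⟩ := exists_add hb
    rw [add_sub_single]
    by_cases h : c = b' ∧ d = a
    · obtain ⟨rfl, rfl⟩ := h
      rw [if_pos rfl, if_pos rfl, gf_add, hi_add_self, add_single_self]
      push_cast
      ring
    · rw [if_neg (fun h' => h ⟨add_right_cancel (Prod.mk.inj h').1, (Prod.mk.inj h').2⟩), if_neg,
        mul_zero, mul_zero]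
      intro h'
      exact h ⟨(Prod.mk.inj h').1, (Prod.mk.inj h').2⟩

/-- The matrix elements of `E ^ k F ^ k`. -/
noncomputable def KE (q : ℂ) (k : ℕ) (c d b a : Fin n → ℕ) : ℂ :=
  (Eo q n ^ k) ((Fo q n ^ k) (mon q b a)) (c, d)

theorem KE_KK (q : ℂ) (hq : q ≠ 0) (h1 : br q 1 ≠ 0) (k : ℕ) (c d b a : Fin n → ℕ)
    (hb : ∑ i, b i = ∑ i, a i) : KE q k c d b a = KK q k c d b a := by
  unfold KE KK
  have h := HomD_mon q b a
  rw [hb] at h
  rw [EF_eq_FE q hq h1 h k]

theorem KK_cc (q : ℂ) (hq : q ≠ 0) (N k : ℕ) (c d b a : Fin n → ℕ) (hb : ∑ i, b i = N) :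
    ∑ i : Fin n, (q ^ ((n : ℤ) - 1 - 2 * (i : ℕ)))⁻¹ * q ^ (lo b i - hi c i) *
        KK q k (c + Pi.single i 1) d (b + Pi.single i 1) a =
      qn q ((N : ℤ) + k + n) * KK q k c d b a := by
  have hH : HomD (N : ℤ) ((∑ i, a i : ℕ) : ℤ) (mon q b a) := by
    have := HomD_mon q b a
    rw [hb] at this
    exact_mod_cast this
  have h1 : ∑ i : Fin n, (q ^ ((n : ℤ) - 1 - 2 * (i : ℕ)))⁻¹ *
      DL1 q i ((Fo q n ^ k) ((Eo q n ^ k) (XL1 q i (mon q b a)))) (c, d) =
      qn q ((N : ℤ) + k + n) * (Fo q n ^ k) ((Eo q n ^ k) (mon q b a)) (c, d) := by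
    apply gen (fun i => DL1 q i) (fun i => XL1 q i)
    · intro i
      exact Commute.pow_right (DL1_F q hq i) k
    · intro i
      exact Commute.pow_right (XL1_E q hq i) k
    · intro x
      rw [sum_DL1_XL1 q hq]
      by_cases hx : (Eo q n ^ k) (mon q b a) x = 0
      · rw [hx, mul_zero, mul_zero]
      · have := (HomD_Epow q k hH x hx).1
        rw [this]
  change _ = _ * (Fo q n ^ k) ((Eo q n ^ k) (mon q b a)) (c, d)
  rw [← h1]
  refine Finset.sum_congr rfl fun i _ => ?_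
  unfold KK
  rw [mXL1, map_smul, map_smul, map_smul]
  change _ = _ * (q ^ (lo b i) * (q ^ (-(hi c i)) * (Fo q n ^ k) ((Eo q n ^ k)
    (mon q (b + Pi.single i 1) a)) (c + Pi.single i 1, d)))
  rw [show lo b i - hi c i = lo b i + -(hi c i) by ring, zpow_add₀ hq]
  ring

theorem KE_dd (q : ℂ) (hq : q ≠ 0) (N k : ℕ) (c d b a : Fin n → ℕ) (hb : ∑ i, b i = N + 1) :
    ∑ j, qn q (c j) * qn q (b j) * q ^ (lo c j - hi b j) *
        KE q k (c - Pi.single j 1) d (b - Pi.single j 1) a =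
      qn q ((N : ℤ) + 1 - k) * KE q k c d b a := by
  have hH : HomD ((N : ℤ) + 1) ((∑ i, a i : ℕ) : ℤ) (mon q b a) := by
    have := HomD_mon q b a
    rw [hb] at this
    exact_mod_cast this
  have h1 : ∑ i : Fin n, 1 *
      XL1 q i ((Eo q n ^ k) ((Fo q n ^ k) (DL1 q i (mon q b a)))) (c, d) =
      qn q ((N : ℤ) + 1 - k) * (Eo q n ^ k) ((Fo q n ^ k) (mon q b a)) (c, d) := by
    apply gen (fun i => XL1 q i) (fun i => DL1 q i)
    · intro i
      exact Commute.pow_right (XL1_E q hq i) k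
    · intro i
      exact Commute.pow_right (DL1_F q hq i) k
    · intro x
      simp only [one_mul]
      rw [sum_XL1_DL1 q hq]
      by_cases hx : (Fo q n ^ k) (mon q b a) x = 0
      · rw [hx, mul_zero, mul_zero]
      · have := (HomD_Fpow q k hH x hx).1
        rw [this]
  change _ = _ * (Eo q n ^ k) ((Fo q n ^ k) (mon q b a)) (c, d)
  rw [← h1]
  refine Finset.sum_congr rfl fun j _ => ?_
  unfold KE
  rw [mDL1, map_smul, map_smul, map_smul]
  change _ = 1 * (qn q (b j) * q ^ (-(hi b j)) * (qn q (c j) * q ^ (lo c j) *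
    (Eo q n ^ k) ((Fo q n ^ k) (mon q (b - Pi.single j 1) a)) (c - Pi.single j 1, d)))
  rw [show lo c j - hi b j = lo c j + -(hi b j) by ring, zpow_add₀ hq]
  ring

/-! ### The matrices -/

/-- The right half of the rotated `F ^ k E ^ k`. -/
noncomputable def Bk (q : ℂ) (n N k : ℕ) : Matrix (I2 n (N + 1)) (I2 n N) ℂ := fun x y =>
  wt q y.2.val * (KK q k (fun i => x.1.val i.rev) y.2.val (fun i => x.2.val i.rev) y.1.val /
    (gf q x.2.val * gf q y.1.val))

/-- The left half of the rotated `E ^ k F ^ k`. -/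
noncomputable def Bc (q : ℂ) (n N k : ℕ) : Matrix (I2 n N) (I2 n (N + 1)) ℂ := fun x y =>
  wt q y.2.val * (KE q k (fun i => x.1.val i.rev) y.2.val (fun i => x.2.val i.rev) y.1.val /
    (gf q x.2.val * gf q y.1.val))

private theorem rev_add (a : Fin n → ℕ) (i : Fin n) :
    (fun j : Fin n => (a + Pi.single i 1 : Fin n → ℕ) j.rev) =
      (fun j : Fin n => a j.rev) + Pi.single i.rev 1 := by
  funext j
  have h := congrFun (rev_single i) j
  simp only [Pi.add_apply]
  rw [← h]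

private theorem rev_sub (a : Fin n → ℕ) (i : Fin n) :
    (fun j : Fin n => (a - Pi.single i 1 : Fin n → ℕ) j.rev) =
      (fun j : Fin n => a j.rev) - Pi.single i.rev 1 := by
  funext j
  have h := congrFun (rev_single i) j
  simp only [Pi.sub_apply]
  rw [← h]

private theorem u_rev (q : ℂ) (i : Fin n) :
    (q ^ ((n : ℤ) - 1 - 2 * ((i.rev : Fin n) : ℕ)))⁻¹ = q ^ ((n : ℤ) - 1 - 2 * (i : ℕ)) := by
  rw [← _root_.zpow_neg]
  congr 1
  rw [Fin.val_rev]
  have h : (i : ℕ) + 1 ≤ n := i.2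
  push_cast [Nat.cast_sub h]
  ring

/-- The rotated `F ^ k E ^ k` factors through `CC`. -/
theorem Bk_CC (q : ℂ) (N k : ℕ) (hk : k ≤ N) (hg : Gen q n (N + 1)) (hn : 1 ≤ n) :
    Bk q n N k * CC q n N = qn q ((N : ℤ) + 1 - k) • Yk q n (N + 1) k := by
  have hq : q ≠ 0 := hg.1
  ext x y
  rw [Matrix.smul_apply, smul_eq_mul]
  have hgy : gf q y.1.val ≠ 0 := Gen.gf_ne hg hn (by omega) y.1
  have hgx : gf q x.2.val ≠ 0 := Gen.gf_ne hg hn (by omega) x.2
  set β : (Fin n → ℕ) → (Fin n → ℕ) → ℂ := fun a d : Fin n → ℕ =>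
    wt q d * (KK q k (fun i : Fin n => x.1.val i.rev) d
        (fun i : Fin n => x.2.val i.rev) a / (gf q x.2.val * gf q a)) with hβ
  have hD : (Bk q n N k * CC q n N) x y = ∑ i : Fin n, if y.1.val i ≠ 0 ∧ y.2.val i ≠ 0 then
        β (y.1.val - Pi.single i 1) (y.2.val - Pi.single i 1) *
          (q ^ ((n : ℤ) - 1 - 2 * (i : ℕ)) *
            (qn q (y.2.val i) * q ^ (hi y.2.val i - lo y.1.val i))) else 0 := by
    rw [Matrix.mul_apply]
    exact mul_CC_fun q β y
  rw [hD]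
  unfold Yk
  have h3 := KH3 q N k hk hq (fun i : Fin n => x.1.val i.rev) y.2.val
    (fun i : Fin n => x.2.val i.rev) y.1.val (Yk11_rev_sum x.1) (Yk11_rev_sum x.2) y.2.sum y.1.sum
  have h4 : qn q ((N : ℤ) + 1 - k) * (wt q y.2.val * (KK q k (fun i : Fin n => x.1.val i.rev)
      y.2.val (fun i : Fin n => x.2.val i.rev) y.1.val / (gf q x.2.val * gf q y.1.val))) =
      wt q y.2.val / (gf q x.2.val * gf q y.1.val) * (qn q ((N : ℤ) + 1 - k) *
        KK q k (fun i : Fin n => x.1.val i.rev) y.2.val (fun i : Fin n => x.2.val i.rev)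
          y.1.val) := by ring
  rw [h4, h3, Finset.mul_sum]
  refine Finset.sum_congr rfl fun i _ => ?_
  simp only [hβ]
  split_ifs with h
  · have h2 : gf q y.1.val = gf q (y.1.val - Pi.single i 1) * qn q (y.1.val i) := by
      obtain ⟨b, hb⟩ := exists_add h.1
      rw [hb, gf_add, add_sub_single, add_single_self]
      push_cast
      rfl
    have h3 : gf q (y.1.val - Pi.single i 1) ≠ 0 := by
      intro h0
      rw [h0, zero_mul] at h2
      exact hgy h2
    have h4 : qn q (y.1.val i) ≠ 0 := by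
      intro h0
      rw [h0, mul_zero] at h2
      exact hgy h2
    have h5 : wt q y.2.val = wt q (y.2.val - Pi.single i 1) *
        q ^ ((n : ℤ) - 1 - 2 * (i : ℕ)) := by
      obtain ⟨b, hb⟩ := exists_add h.2
      rw [hb, wt_add hq, add_sub_single]
    rw [h2, h5]
    field_simp
  · have h0 : qn q (y.2.val i) * qn q (y.1.val i) = 0 := by
      by_cases h1 : y.1.val i = 0
      · rw [h1, Nat.cast_zero, qn_zero, mul_zero]
      · have h5 : y.2.val i = 0 := by
          by_contra h6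
          exact h ⟨h1, h6⟩
        rw [h5, Nat.cast_zero, qn_zero, zero_mul]
    rw [h0, zero_mul, zero_mul, mul_zero]

/-- Closing a pair of strands at the other side. -/
theorem CC_Bk (q : ℂ) (N k : ℕ) (hg : Gen q n (N + 1)) (hn : 1 ≤ n) :
    CC q n N * Bk q n N k = qn q ((N : ℤ) + k + n) • Yk q n N k := by
  have hq : q ≠ 0 := hg.1
  ext x y
  rw [CC_mul, Matrix.smul_apply, smul_eq_mul]
  have hgy : gf q y.1.val ≠ 0 := Gen.gf_ne hg hn (by omega) y.1
  have hgx : gf q x.2.val ≠ 0 := Gen.gf_ne hg hn (by omega) x.2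
  have hL : ∀ i : Fin n, q ^ ((n : ℤ) - 1 - 2 * (i : ℕ)) *
      (qn q ((x.2.val i : ℤ) + 1) * q ^ (hi x.2.val i - lo x.1.val i)) *
      Bk q n N k (x.1.add i, x.2.add i) y =
      wt q y.2.val / (gf q x.2.val * gf q y.1.val) *
        ((q ^ ((n : ℤ) - 1 - 2 * ((i.rev : Fin n) : ℕ)))⁻¹ *
          q ^ (lo (fun i => x.2.val i.rev) i.rev - hi (fun i => x.1.val i.rev) i.rev) *
          KK q k ((fun i => x.1.val i.rev) + Pi.single i.rev 1) y.2.val
            ((fun i => x.2.val i.rev) + Pi.single i.rev 1) y.1.val) := by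
    intro i
    have hle : x.2.val i ≤ N := by
      have h1 := x.2.sum
      have h2 := Finset.single_le_sum (f := x.2.val) (fun j _ => Nat.zero_le _) (Finset.mem_univ i)
      omega
    have hqn : qn q ((x.2.val i : ℤ) + 1) ≠ 0 := hg.qn_ne hn (by omega) (by omega)
    unfold Bk
    simp only [Vn.add_val]
    rw [gf_add, u_rev, lo_rev, hi_rev, Fin.rev_rev, ← rev_add, ← rev_add]
    field_simp
  rw [Finset.sum_congr rfl fun i _ => hL i, ← Finset.mul_sum]
  have hS := Equiv.sum_comp Fin.revPerm (fun i : Fin n => (q ^ ((n : ℤ) - 1 - 2 * (i : ℕ)))⁻¹ *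
          q ^ (lo (fun k : Fin n => x.2.val k.rev) i - hi (fun k : Fin n => x.1.val k.rev) i) *
          KK q k ((fun k : Fin n => x.1.val k.rev) + Pi.single i 1) y.2.val
            ((fun k : Fin n => x.2.val k.rev) + Pi.single i 1) y.1.val)
  simp only [Fin.revPerm_apply] at hS
  rw [hS, KK_cc q hq N k (fun k : Fin n => x.1.val k.rev) y.2.val
      (fun k : Fin n => x.2.val k.rev) y.1.val (Yk11_rev_sum x.2)]
  unfold Yk
  ring

/-- The rotated `F ^ k E ^ k` factors through `DD`. -/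
theorem DD_Bc (q : ℂ) (N k : ℕ) (hg : Gen q n (N + 1)) (hn : 1 ≤ n) :
    DD q n N * Bc q n N k = qn q ((N : ℤ) + 1 - k) • Yk q n (N + 1) k := by
  have hq : q ≠ 0 := hg.1
  ext x y
  rw [Matrix.smul_apply, smul_eq_mul]
  have hgy : gf q y.1.val ≠ 0 := Gen.gf_ne hg hn (by omega) y.1
  have hgx : gf q x.2.val ≠ 0 := Gen.gf_ne hg hn (by omega) x.2
  set β : (Fin n → ℕ) → (Fin n → ℕ) → ℂ := fun a d : Fin n → ℕ =>
    wt q y.2.val * (KE q k (fun i : Fin n => a i.rev) y.2.val
        (fun i : Fin n => d i.rev) y.1.val / (gf q d * gf q y.1.val)) with hβ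
  have hD : (DD q n N * Bc q n N k) x y = ∑ i, if x.1.val i ≠ 0 ∧ x.2.val i ≠ 0 then
        qn q (x.1.val i) * q ^ (hi x.1.val i - lo x.2.val i) *
          β (x.1.val - Pi.single i 1) (x.2.val - Pi.single i 1) else 0 := by
    rw [Matrix.mul_apply]
    exact DD_mul_fun q β x
  rw [hD]
  unfold Yk
  rw [← KE_KK q hq (hg.br_one hn) k _ _ _ _ ((Yk11_rev_sum x.2).trans y.1.sum.symm)]
  have h3 := KE_dd q hq N k (fun i : Fin n => x.1.val i.rev) y.2.val
    (fun i : Fin n => x.2.val i.rev) y.1.val (Yk11_rev_sum x.2)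
  have h4 : qn q ((N : ℤ) + 1 - k) * (wt q y.2.val * (KE q k (fun i : Fin n => x.1.val i.rev)
      y.2.val (fun i : Fin n => x.2.val i.rev) y.1.val / (gf q x.2.val * gf q y.1.val))) =
      wt q y.2.val / (gf q x.2.val * gf q y.1.val) * (qn q ((N : ℤ) + 1 - k) *
        KE q k (fun i : Fin n => x.1.val i.rev) y.2.val (fun i : Fin n => x.2.val i.rev)
          y.1.val) := by ring
  rw [h4, ← h3, Finset.mul_sum]
  symm
  rw [← Equiv.sum_comp Fin.revPerm]
  refine Finset.sum_congr rfl fun i _ => ?_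
  simp only [Fin.revPerm_apply, Fin.rev_rev]
  rw [lo_rev, hi_rev, Fin.rev_rev]
  simp only [hβ]
  split_ifs with h
  · have h2 : gf q x.2.val = gf q (x.2.val - Pi.single i 1) * qn q (x.2.val i) := by
      obtain ⟨b, hb⟩ := exists_add h.2
      rw [hb, gf_add, add_sub_single, add_single_self]
      push_cast
      rfl
    have h3 : gf q (x.2.val - Pi.single i 1) ≠ 0 := by
      intro h0
      rw [h0, zero_mul] at h2
      exact hgx h2
    have h4 : qn q (x.2.val i) ≠ 0 := by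
      intro h0
      rw [h0, mul_zero] at h2
      exact hgx h2
    rw [rev_sub, rev_sub, h2]
    field_simp
  · have h0 : qn q (x.1.val i) * qn q (x.2.val i) = 0 := by
      by_cases h1 : x.1.val i = 0
      · rw [h1, Nat.cast_zero, qn_zero, zero_mul]
      · have h5 : x.2.val i = 0 := by
          by_contra h6
          exact h ⟨h1, h6⟩
        rw [h5, Nat.cast_zero, qn_zero, mul_zero]
    rw [h0, zero_mul, zero_mul, mul_zero]

end Pool.Agent.OR
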