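import Pool.Agent.H63.VC.Cross
import Pool.Agent.H63.VC.EndB
import Pool.Agent.H63.VC.Riem
import Pool.Agent.H63.VC.SlowL
import Pool.Agent.H63.VC.SlowU
import Pool.Agent.H63.VC11.Brac11
import Pool.Agent.H63.VC12.Path12
import Pool.Agent.H63.VC4.Checks
import Pool.Agent.H63.VC4.GeoDefs
import Pool.Agent.S4.Defs

/-!
# Identities for the functions `wk`
-/

set_option autoImplicit false

namespace Pool.Agent.OR

open Pool.Agent.H63.VC7 Pool.Agent.H63.VC8 Pool.Agent.H63.VC11 Pool.Agent.S4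

/-- The eigenvalues of the half twist of antiparallel strands, of sign `-e`, framed. -/
noncomputable def hf (q : ℂ) (n N : ℕ) (e : ℤ) (X : ℕ) : ℂ :=
  q ^ (e * ((N : ℤ) * ((N : ℤ) + n - 1))) * twA q n X ^ (-e)

theorem hf_eq {q : ℂ} (hq : q ≠ 0) (n N : ℕ) {e : ℤ} (he : e = 1 ∨ e = -1) (X : ℕ) :
    hf q n N e X =
      (-1) ^ X * q ^ (e * ((N : ℤ) * ((N : ℤ) + n - 1) - (X : ℤ) * ((X : ℤ) + n - 1))) := by
  have hs : ((-1 : ℂ) ^ X)⁻¹ = (-1) ^ X := by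
    rcases neg_one_pow_eq_or ℂ X with h | h <;> rw [h] <;> norm_num
  unfold hf twA
  rcases he with rfl | rfl
  · rw [zpow_neg_one, mul_inv, hs, ← zpow_neg, show (1 : ℤ) * ((N : ℤ) * ((N : ℤ) + n - 1) -
      (X : ℤ) * ((X : ℤ) + n - 1)) = 1 * ((N : ℤ) * ((N : ℤ) + n - 1)) +
      -((X : ℤ) * ((X : ℤ) + n - 1)) by ring, zpow_add₀ hq]
    ring
  · rw [neg_neg, zpow_one, show (-1 : ℤ) * ((N : ℤ) * ((N : ℤ) + n - 1) -
      (X : ℤ) * ((X : ℤ) + n - 1)) = -1 * ((N : ℤ) * ((N : ℤ) + n - 1)) +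
      (X : ℤ) * ((X : ℤ) + n - 1) by ring, zpow_add₀ hq]
    ring

theorem hf_sq {q : ℂ} (hq : q ≠ 0) (n N : ℕ) {e : ℤ} (he : e = 1 ∨ e = -1) (X : ℕ) :
    hf q n N e X * hf q n N e X =
      q ^ (e * (2 * ((N : ℤ) * ((N : ℤ) + n - 1) - (X : ℤ) * ((X : ℤ) + n - 1)))) := by
  rw [hf_eq hq n N he, mul_mul_mul_comm, ← zpow_add₀ hq, ← pow_add, ← two_mul, pow_mul]
  norm_num
  congr 1
  ring

theorem hf_neg {q : ℂ} (hq : q ≠ 0) (n N : ℕ) (e : ℤ) (X : ℕ) :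
    hf q n N e X * hf q n N (-e) X = 1 := by
  have h : twA q n X ≠ 0 := by
    unfold twA
    exact mul_ne_zero (pow_ne_zero _ (by norm_num)) (zpow_ne_zero _ hq)
  unfold hf
  rw [mul_mul_mul_comm, ← zpow_add₀ hq, ← zpow_add₀ h]
  rw [show e * ((N : ℤ) * ((N : ℤ) + n - 1)) + -e * ((N : ℤ) * ((N : ℤ) + n - 1)) = 0 by ring,
    show -e + - -e = 0 by ring, zpow_zero, zpow_zero, one_mul]

theorem hf_succ {q : ℂ} (hq : q ≠ 0) (n N : ℕ) (e : ℤ) (X : ℕ) :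
    hf q n (N + 1) e X = q ^ (e * (2 * (N : ℤ) + n)) * hf q n N e X := by
  unfold hf
  have h : q ^ (e * (((N + 1 : ℕ) : ℤ) * (((N + 1 : ℕ) : ℤ) + n - 1))) =
      q ^ (e * (2 * (N : ℤ) + n)) * q ^ (e * ((N : ℤ) * ((N : ℤ) + n - 1))) := by
    rw [← zpow_add₀ hq]
    congr 1
    push_cast
    ring
  rw [h]
  ring

/-- The recursion for `wk`. -/
theorem wk_succ {n N : ℕ} {q : ℂ} (hg : Gen q n (N + 1)) (hn : 2 ≤ n) {k X : ℕ} (hk : k ≤ N)
    (hX : X ≤ N) : qn q ((N : ℤ) + 1 - k) * wk q n (N + 1) k X =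
      qn q ((N : ℤ) + k + n) * wk q n N k X := by
  have nf : ∀ j ≤ 4 * N + 2 * n, qf q j ≠ 0 := fun j hj => hg.qf_ne (by omega) (by omega)
  unfold wk
  by_cases h : X ≤ k
  · rw [if_pos h, if_pos h]
    have f1 := qb_fac q hg.1 (N + 1 - X) (k - X) (by omega)
    have f2 := qb_fac q hg.1 (N + 1 + n + k - 1) (N + 1 - X) (by omega)
    have f3 := qb_fac q hg.1 (N - X) (k - X) (by omega)
    have f4 := qb_fac q hg.1 (N + n + k - 1) (N - X) (by omega)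
    rw [show N + 1 - X - (k - X) = (N - k) + 1 by omega, qf_succ] at f1
    rw [show N + 1 + n + k - 1 = (N + n + k - 1) + 1 by omega,
      show N + n + k - 1 + 1 - (N + 1 - X) = n + k + X - 1 by omega, qf_succ] at f2
    rw [show N - X - (k - X) = N - k by omega] at f3
    rw [show N + n + k - 1 - (N - X) = n + k + X - 1 by omega] at f4
    rw [show N + 1 + n + k - 1 = (N + n + k - 1) + 1 by omega]
    have c1 : ((N - k : ℕ) : ℤ) + 1 = (N : ℤ) + 1 - k := by omega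
    have c2 : ((N + n + k - 1 : ℕ) : ℤ) + 1 = (N : ℤ) + k + n := by omega
    rw [c1] at f1
    rw [c2] at f2
    have n1 := nf (k - X) (by omega)
    have n2 := nf (N - k) (by omega)
    have n3 := nf (n + k + X - 1) (by omega)
    have n4 := nf (N - X) (by omega)
    have n5 : qf q (N + 1 - X) ≠ 0 := hg.qf_ne (by omega) (by omega)
    apply mul_right_cancel₀ (mul_ne_zero (mul_ne_zero n1 n2) n3)
    apply mul_right_cancel₀ (mul_ne_zero n4 n5)
    linear_combination ((-1) ^ X * qb q (N + n + k - 1 + 1) (N + 1 - X) *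
        qf q (n + k + X - 1) * qf q (N - X) * qf q (N + 1 - X)) * f1 +
      ((-1) ^ X * qf q (N + 1 - X) * qf q (N - X)) * f2 -
      ((-1) ^ X * qn q ((N : ℤ) + k + n) * qb q (N + n + k - 1) (N - X) *
        qf q (n + k + X - 1) * qf q (N - X) * qf q (N + 1 - X)) * f3 -
      ((-1) ^ X * qn q ((N : ℤ) + k + n) * qf q (N - X) * qf q (N + 1 - X)) * f4
  · rw [if_neg h, if_neg h, mul_zero, mul_zero]

theorem wk_lt (q : ℂ) (n N : ℕ) {k X : ℕ} (h : k < X) : wk q n N k X = 0 := by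
  unfold wk
  rw [if_neg (by omega)]

/-! ### The half twist -/

private theorem pas {q : ℂ} (hq : q ≠ 0) (h1 : br q 1 ≠ 0) {δ : ℤ} (hδ : δ = 1 ∨ δ = -1) {m k : ℕ}
    (hf : ∀ j ≤ m + 1, qf q j ≠ 0) :
    qb q (m + 1) (k + 1) = q ^ (δ * ((k : ℤ) + 1)) * qb q m (k + 1) +
      q ^ (-δ * ((m : ℤ) - k)) * qb q m k := by
  rcases hδ with rfl | rfl
  · have : qb q (m + 1) (k + 1) =
      q ^ ((k : ℤ) + 1) * qb q m (k + 1) + q ^ (-((m : ℤ) - k)) * qb q m k := rfl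
    rw [this]
    congr 3 <;> ring
  · rw [qb_succ' q hq h1 m k hf]
    congr 3 <;> ring

private theorem sum_pas {q : ℂ} (hq : q ≠ 0) (h1 : br q 1 ≠ 0) {δ : ℤ} (hδ : δ = 1 ∨ δ = -1) {M : ℕ}
    (hf : ∀ j ≤ M + 1, qf q j ≠ 0) (g : ℕ → ℂ) :
    ∑ m ∈ Finset.range (M + 2), g m * qb q (M + 1) m =
      ∑ m ∈ Finset.range (M + 1), qb q M m *
        (q ^ (δ * (m : ℤ)) * g m + q ^ (-δ * ((M : ℤ) - m)) * g (m + 1)) := by
  rw [Finset.sum_range_succ' _ (M + 1)]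
  have e1 : ∀ m ∈ Finset.range (M + 1), g (m + 1) * qb q (M + 1) (m + 1) =
      q ^ (δ * ((m + 1 : ℕ) : ℤ)) * g (m + 1) * qb q M (m + 1) +
        qb q M m * (q ^ (-δ * ((M : ℤ) - m)) * g (m + 1)) := by
    intro m _
    rw [pas hq h1 hδ hf]
    push_cast
    ring
  rw [Finset.sum_congr rfl e1, Finset.sum_add_distrib]
  have e2 : ∑ m ∈ Finset.range (M + 2), q ^ (δ * (m : ℤ)) * g m * qb q M m =
      ∑ m ∈ Finset.range (M + 1), q ^ (δ * (m : ℤ)) * g m * qb q M m := by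
    rw [Finset.sum_range_succ _ (M + 1), qb_lt q M (M + 1) (by omega), mul_zero, add_zero]
  rw [Finset.sum_range_succ' _ (M + 1)] at e2
  have e3 : ∑ m ∈ Finset.range (M + 1), qb q M m *
      (q ^ (δ * (m : ℤ)) * g m + q ^ (-δ * ((M : ℤ) - m)) * g (m + 1)) =
      ∑ m ∈ Finset.range (M + 1), q ^ (δ * (m : ℤ)) * g m * qb q M m +
      ∑ m ∈ Finset.range (M + 1), qb q M m * (q ^ (-δ * ((M : ℤ) - m)) * g (m + 1)) := by
    rw [← Finset.sum_add_distrib]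
    exact Finset.sum_congr rfl fun m _ => by ring
  rw [e3, ← e2]
  simp only [qb_zero_right, Nat.cast_zero, mul_zero, zpow_zero, one_mul, mul_one]
  ring

/-- The `q`-difference of a `q`-binomial coefficient. -/
private theorem dif {q : ℂ} (hq : q ≠ 0) (h1 : br q 1 ≠ 0) {δ : ℤ} (hδ : δ = 1 ∨ δ = -1) (a : ℕ) :
    ∀ M b : ℕ, M ≤ b → (∀ j ≤ a + M, qf q j ≠ 0) →
    ∑ m ∈ Finset.range (M + 1), (-1) ^ m * q ^ (δ * ((M : ℤ) - 1 - b) * m) * qb q (a + m) b *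
      qb q M m = (-1) ^ M * q ^ (-δ * (M * ((a : ℤ) + 1))) * qb q a (b - M) := by
  intro M
  induction M with
  | zero =>
    intro b _ _
    simp [qb_zero_right]
  | succ M ih =>
    intro b hb ha
    obtain ⟨c, rfl⟩ : ∃ c, b = c + 1 := ⟨b - 1, by omega⟩
    rw [sum_pas hq h1 hδ fun j hj => ha j (by omega)]
    have e1 : ∀ m ∈ Finset.range (M + 1), qb q M m * (q ^ (δ * (m : ℤ)) *
        ((-1) ^ m * q ^ (δ * (((M + 1 : ℕ) : ℤ) - 1 - ((c + 1 : ℕ) : ℤ)) * m) * qb q (a + m) (c + 1)) +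
        q ^ (-δ * ((M : ℤ) - m)) * ((-1) ^ (m + 1) *
          q ^ (δ * (((M + 1 : ℕ) : ℤ) - 1 - ((c + 1 : ℕ) : ℤ)) * ((m + 1 : ℕ) : ℤ)) *
            qb q (a + (m + 1)) (c + 1))) =
        -q ^ (-δ * ((a : ℤ) + 1)) * ((-1) ^ m * q ^ (δ * ((M : ℤ) - 1 - c) * m) * qb q (a + m) c *
          qb q M m) := by
      intro m hm
      rw [Finset.mem_range] at hm
      have h2 := pas hq h1 hδ (m := a + m) (k := c) (fun j hj => ha j (by omega))
      rw [← add_assoc, h2]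
      have p1 : q ^ (δ * (m : ℤ)) * q ^ (δ * (((M + 1 : ℕ) : ℤ) - 1 - ((c + 1 : ℕ) : ℤ)) * m) =
          q ^ (-δ * ((M : ℤ) - m)) * (q ^ (δ * (((M + 1 : ℕ) : ℤ) - 1 - ((c + 1 : ℕ) : ℤ)) *
            ((m + 1 : ℕ) : ℤ)) * q ^ (δ * ((c : ℤ) + 1))) := by
        rw [← zpow_add₀ hq, ← zpow_add₀ hq, ← zpow_add₀ hq]
        congr 1
        push_cast
        ring
      have p2 : q ^ (-δ * ((M : ℤ) - m)) * (q ^ (δ * (((M + 1 : ℕ) : ℤ) - 1 - ((c + 1 : ℕ) : ℤ)) *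
            ((m + 1 : ℕ) : ℤ)) * q ^ (-δ * (((a + m : ℕ) : ℤ) - c))) =
          q ^ (-δ * ((a : ℤ) + 1)) * q ^ (δ * ((M : ℤ) - 1 - c) * m) := by
        rw [← zpow_add₀ hq, ← zpow_add₀ hq, ← zpow_add₀ hq]
        congr 1
        push_cast
        ring
      rw [pow_succ]
      linear_combination ((-1) ^ m * qb q (a + m) (c + 1) * qb q M m) * p1 -
        ((-1) ^ m * qb q (a + m) c * qb q M m) * p2
    rw [Finset.sum_congr rfl e1, ← Finset.mul_sum, ih c (by omega) (fun j hj => ha j (by omega))]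
    have e2 : c + 1 - (M + 1) = c - M := by omega
    have p3 : q ^ (-δ * (((M + 1 : ℕ) : ℤ) * ((a : ℤ) + 1))) =
        q ^ (-δ * ((a : ℤ) + 1)) * q ^ (-δ * ((M : ℤ) * ((a : ℤ) + 1))) := by
      rw [← zpow_add₀ hq]
      congr 1
      push_cast
      ring
    rw [e2, p3, pow_succ]
    ring

/-- The transform of the half twist is the half twist. -/
theorem sum_wk {n N : ℕ} {q : ℂ} (hg : Gen q n N) (hn : 2 ≤ n) {e : ℤ} (he : e = 1 ∨ e = -1)
    {X : ℕ} (hX : X ≤ N) :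
    ∑ k ∈ Finset.range (N + 1), (-1) ^ (N - k) * q ^ (e * ((k : ℤ) - N)) * wk q n N k X =
      hf q n N e X := by
  have hq := hg.1
  have h1 : br q 1 ≠ 0 := hg.br_one (by omega)
  rw [hf_eq hq n N he]
  obtain ⟨M, rfl⟩ : ∃ M, N = X + M := ⟨N - X, by omega⟩
  have hN : X + M + 1 = X + (M + 1) := by ring
  rw [hN, Finset.sum_range_add]
  have z1 : ∑ k ∈ Finset.range X, (-1) ^ (X + M - k) * q ^ (e * ((k : ℤ) - ((X + M : ℕ) : ℤ))) *
      wk q n (X + M) k X = 0 :=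
    Finset.sum_eq_zero fun k hk => by
      rw [wk_lt q n _ (Finset.mem_range.1 hk), mul_zero]
  rw [z1, zero_add]
  have hD := dif hq h1 (δ := -e) (by rcases he with rfl | rfl <;> simp) (X + M + n + X - 1) M M
    le_rfl (fun j hj => hg.qf_ne (by omega) (by omega))
  rw [Nat.sub_self, qb_zero_right, mul_one] at hD
  have hT : ∑ m ∈ Finset.range (M + 1), (-1) ^ (X + M - (X + m)) *
      q ^ (e * (((X + m : ℕ) : ℤ) - ((X + M : ℕ) : ℤ))) * wk q n (X + M) (X + m) X =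
      ((-1) ^ M * (-1) ^ X * q ^ (-(e * M))) *
        ∑ m ∈ Finset.range (M + 1), (-1) ^ m * q ^ (-e * ((M : ℤ) - 1 - M) * m) *
          qb q (X + M + n + X - 1 + m) M * qb q M m := by
    rw [Finset.mul_sum]
    refine Finset.sum_congr rfl fun m hm => ?_
    rw [Finset.mem_range] at hm
    unfold wk
    rw [if_pos (by omega), show X + M - X = M by omega, show X + m - X = m by omega,
      show X + M + n + (X + m) - 1 = X + M + n + X - 1 + m by omega,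
      show X + M - (X + m) = M - m by omega]
    have s1 : (-1 : ℂ) ^ (M - m) = (-1) ^ M * (-1) ^ m := by
      have h2 : (-1 : ℂ) ^ m * (-1) ^ m = 1 := by rw [← mul_pow]; norm_num
      have h3 : (-1 : ℂ) ^ M = (-1) ^ (M - m) * (-1) ^ m := by
        rw [← pow_add]
        congr 1
        omega
      rw [h3]
      linear_combination -((-1 : ℂ) ^ (M - m)) * h2
    have p1 : q ^ (e * (((X + m : ℕ) : ℤ) - ((X + M : ℕ) : ℤ))) =
        q ^ (-(e * M)) * q ^ (-e * ((M : ℤ) - 1 - M) * m) := by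
      rw [← zpow_add₀ hq]
      congr 1
      push_cast
      ring
    rw [s1, p1]
    ring
  rw [hT, hD]
  have s2 : (-1 : ℂ) ^ M * (-1) ^ M = 1 := by rw [← mul_pow]; norm_num
  have p2 : q ^ (e * (((X + M : ℕ) : ℤ) * (((X + M : ℕ) : ℤ) + n - 1) -
      (X : ℤ) * ((X : ℤ) + n - 1))) = q ^ (-(e * M)) *
        q ^ (- -e * (M * (((X + M + n + X - 1 : ℕ) : ℤ) + 1))) := by
    rw [← zpow_add₀ hq]
    congr 1
    have c1 : ((X + M + n + X - 1 : ℕ) : ℤ) = (X : ℤ) + M + n + X - 1 := by omega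
    rw [c1]
    push_cast
    ring
  rw [p2]
  linear_combination ((-1 : ℂ) ^ X * q ^ (-(e * M)) *
    q ^ (- -e * (M * (((X + M + n + X - 1 : ℕ) : ℤ) + 1)))) * s2

end Pool.Agent.OR
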