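import Pool.Agent.H63.VC11.T11
import Pool.Agent.OR.A.KH
import Pool.Agent.OR.A.Wk

/-!
# The rotated `F ^ k E ^ k`, composed with a crossing
-/

set_option autoImplicit false

namespace Pool.Agent.OR

open Pool.Agent.H63.VC7 Pool.Agent.H63.VC8 Pool.Agent.H63.VC11 Pool.Agent.S4 Matrix

variable {n : ℕ}

/-- The crossing commutes with the operators `Oh`. -/
theorem Ym_Oh (q : ℂ) (N : ℕ) {e : ℤ} (he : e = 1 ∨ e = -1) (hg : Gen q n N) (hn : 1 ≤ n)
    (f : ℕ → ℂ) : Ym q n N e * Oh q n N f = Oh q n N f * Ym q n N e := by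
  induction N generalizing f with
  | zero =>
    rw [Ym_zero q e hg hn, Matrix.one_mul, Matrix.mul_one]
  | succ N ih =>
    have ih' := ih (hg.mono (Nat.le_succ N)) (dv q n N f)
    have h1 := Y_DD q N e he hg hn
    have h2 := CC_Y q N e he hg hn
    simp only [Oh]
    rw [Matrix.mul_add, Matrix.add_mul, Matrix.mul_smul, Matrix.smul_mul, Matrix.mul_one,
      Matrix.one_mul]
    congr 1
    calc Ym q n (N + 1) e * (DD q n N * Oh q n N (dv q n N f) * CC q n N)
        = Ym q n (N + 1) e * DD q n N * Oh q n N (dv q n N f) * CC q n N := by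
          simp only [Matrix.mul_assoc]
      _ = q ^ (e * (2 * N + n)) • (DD q n N * (Ym q n N e * Oh q n N (dv q n N f)) * CC q n N) := by
          rw [h1, Matrix.smul_mul, Matrix.smul_mul]
          simp only [Matrix.mul_assoc]
      _ = DD q n N * Oh q n N (dv q n N f) *
          (q ^ (e * (2 * N + n)) • (Ym q n N e * CC q n N)) := by
          rw [ih', Matrix.mul_smul]
          simp only [Matrix.mul_assoc]
      _ = DD q n N * Oh q n N (dv q n N f) * CC q n N * Ym q n (N + 1) e := by
          rw [← h2]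
          simp only [Matrix.mul_assoc]

/-- The inverse of `CC * DD`. -/
theorem CDA (q : ℂ) (N : ℕ) (hg : Gen q n (N + 1)) (hn : 1 ≤ n) :
    CC q n N * DD q n N * Oh q n N (fun X => (E1 q n (N + 1) X)⁻¹) = 1 := by
  rw [CD_Oh q N hg hn, Oh_mul q N (hg.mono (Nat.le_succ N)) hn]
  rw [Oh_congr q N (fun X => E1 q n (N + 1) X * (E1 q n (N + 1) X)⁻¹) (fun _ => 1)
    (fun X hX => mul_inv_cancel₀ (E1_ne hg hn (Nat.lt_succ_of_le hX))), Oh_const, one_smul]

theorem ACD (q : ℂ) (N : ℕ) (hg : Gen q n (N + 1)) (hn : 1 ≤ n) :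
    Oh q n N (fun X => (E1 q n (N + 1) X)⁻¹) * (CC q n N * DD q n N) = 1 := by
  rw [CD_Oh q N hg hn, Oh_mul q N (hg.mono (Nat.le_succ N)) hn]
  rw [Oh_congr q N (fun X => (E1 q n (N + 1) X)⁻¹ * E1 q n (N + 1) X) (fun _ => 1)
    (fun X hX => inv_mul_cancel₀ (E1_ne hg hn (Nat.lt_succ_of_le hX))), Oh_const, one_smul]

/-- The recursion. -/
theorem Yk_succ (q : ℂ) (N k : ℕ) (hk : k ≤ N) (hg : Gen q n (N + 1)) (hn : 1 ≤ n) :
    qn q ((N : ℤ) + 1 - k) • Yk q n (N + 1) k = qn q ((N : ℤ) + k + n) •
      (DD q n N * Oh q n N (fun X => (E1 q n (N + 1) X)⁻¹) * Yk q n N k * CC q n N) := by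
  set A := Oh q n N (fun X => (E1 q n (N + 1) X)⁻¹) with hA
  have h1 := CDA q N hg hn
  have h2 := ACD q N hg hn
  rw [← hA] at h1 h2
  have h3 := Bk_CC q N k hk hg hn
  have h4 := DD_Bc q N k hg hn
  have h5 : Bk q n N k = DD q n N * A * (CC q n N * Bk q n N k) := by
    have h6 : Bk q n N k = DD q n N * Bc q n N k * (DD q n N * A) := by
      rw [h4, ← h3]
      calc Bk q n N k = Bk q n N k * (CC q n N * DD q n N * A) := by rw [h1, Matrix.mul_one]
        _ = _ := by simp only [Matrix.mul_assoc]
    have h7 : DD q n N * A * (CC q n N * (DD q n N * Bc q n N k * (DD q n N * A))) =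
        DD q n N * (A * (CC q n N * DD q n N)) * (Bc q n N k * (DD q n N * A)) := by
      simp only [Matrix.mul_assoc]
    conv_rhs => rw [h6, h7, h2, Matrix.mul_one]
    rw [h6]
    simp only [Matrix.mul_assoc]
  rw [← h3, h5, CC_Bk q N k hg hn, Matrix.mul_smul, Matrix.smul_mul]

/-- The rotated `F ^ k E ^ k`, composed with a crossing. -/
theorem Ym_Yk_Oh (q : ℂ) (N : ℕ) {e : ℤ} (he : e = 1 ∨ e = -1) (hg : Gen q n N) (hn : 2 ≤ n) :
    ∀ k ≤ N, Ym q n N e * Yk q n N k =
      qf q k ^ 2 • Oh q n N (fun X => hf q n N e X * wk q n N k X) := by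
  have hn1 : 1 ≤ n := by omega
  -- the case `k = N` from the cases `k < N`
  have top : ∀ N, Gen q n N → (∀ k < N, Ym q n N e * Yk q n N k =
      qf q k ^ 2 • Oh q n N (fun X => hf q n N e X * wk q n N k X)) →
      Ym q n N e * Yk q n N N =
        qf q N ^ 2 • Oh q n N (fun X => hf q n N e X * wk q n N N X) := by
    intro N hg h
    have hq := hg.1
    have nf : ∀ j ≤ N, qf q j ≠ 0 := fun j hj => hg.qf_ne hn1 (by omega)
    have h1 := Ym_Yk q N e hg hn1
    have h2 : Ym q n N e * Ym q n N e = Oh q n N (fun X => hf q n N e X * hf q n N e X) := by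
      rw [Y_sq q N e he hg hn1]
      apply Oh_congr
      intro X _
      rw [hf_sq hq n N he]
    have h3 : Ym q n N e * Ym q n N e = Oh q n N (fun X => ∑ k ∈ Finset.range N,
        ((-1) ^ (N - k) * q ^ (e * ((k : ℤ) - N))) * (hf q n N e X * wk q n N k X)) +
        (qf q N ^ 2)⁻¹ • (Ym q n N e * Yk q n N N) := by
      refine (congrArg (fun Z => Ym q n N e * Z) h1).trans ?_
      rw [Matrix.mul_sum, Finset.sum_range_succ, Oh_sum]
      congr 1
      · refine Finset.sum_congr rfl fun k hk => ?_
        have hk' := Finset.mem_range.1 hk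
        rw [Matrix.mul_smul, h k hk', smul_smul, Oh_smul]
        congr 1
        rw [div_mul_cancel₀ _ (pow_ne_zero 2 (nf k hk'.le))]
      · rw [Matrix.mul_smul, Nat.sub_self, pow_zero, one_mul, sub_self, mul_zero, zpow_zero,
          one_div]
    have h4 : (qf q N ^ 2)⁻¹ • (Ym q n N e * Yk q n N N) =
        Oh q n N (fun X => hf q n N e X * wk q n N N X) := by
      have h5 : Oh q n N (fun X => hf q n N e X * hf q n N e X) =
          Oh q n N (fun X => ∑ k ∈ Finset.range N,
            ((-1) ^ (N - k) * q ^ (e * ((k : ℤ) - N))) * (hf q n N e X * wk q n N k X)) +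
          Oh q n N (fun X => hf q n N e X * wk q n N N X) := by
        rw [← Oh_add]
        apply Oh_congr
        intro X hX
        have h6 := sum_wk hg hn he hX
        rw [Finset.sum_range_succ, Nat.sub_self, pow_zero, one_mul, sub_self, mul_zero,
          zpow_zero, one_mul] at h6
        refine (congrArg (fun Z => hf q n N e X * Z) h6.symm).trans ?_
        rw [mul_add, Finset.mul_sum]
        congr 1
        refine Finset.sum_congr rfl fun k _ => ?_
        ring
      rw [h2, h5] at h3
      exact (add_left_cancel h3).symm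
    rw [← h4, smul_smul, mul_inv_cancel₀ (pow_ne_zero 2 (nf N le_rfl)), one_smul]
  induction N with
  | zero =>
    intro k hk
    obtain rfl : k = 0 := by omega
    exact top 0 hg fun k hk => absurd hk (by omega)
  | succ N ih =>
    have hgN : Gen q n N := hg.mono (Nat.le_succ N)
    have hq := hg.1
    have low : ∀ k < N + 1, Ym q n (N + 1) e * Yk q n (N + 1) k =
        qf q k ^ 2 • Oh q n (N + 1) (fun X => hf q n (N + 1) e X * wk q n (N + 1) k X) := by
      intro k hk
      have hk' : k ≤ N := by omega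
      have h1 := ih hgN k hk'
      have h2 := Yk_succ q N k hk' hg hn1
      have h3 := Y_DD q N e he hg hn1
      have h4 := Ym_Oh q N he hgN hn1 (fun X => (E1 q n (N + 1) X)⁻¹)
      have hne : qn q ((N : ℤ) + 1 - k) ≠ 0 := hg.qn_ne hn1 (by omega) (by omega)
      have h5 : qn q ((N : ℤ) + 1 - k) • (Ym q n (N + 1) e * Yk q n (N + 1) k) =
          (qn q ((N : ℤ) + k + n) * q ^ (e * (2 * N + n)) * qf q k ^ 2) • (DD q n N *
            (Oh q n N (fun X => (E1 q n (N + 1) X)⁻¹) *
              Oh q n N (fun X => hf q n N e X * wk q n N k X)) * CC q n N) := by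
        calc qn q ((N : ℤ) + 1 - k) • (Ym q n (N + 1) e * Yk q n (N + 1) k)
            = Ym q n (N + 1) e * (qn q ((N : ℤ) + 1 - k) • Yk q n (N + 1) k) := by
              rw [Matrix.mul_smul]
          _ = qn q ((N : ℤ) + k + n) • (Ym q n (N + 1) e * DD q n N *
              Oh q n N (fun X => (E1 q n (N + 1) X)⁻¹) * Yk q n N k * CC q n N) := by
              rw [h2, Matrix.mul_smul]
              simp only [Matrix.mul_assoc]
          _ = (qn q ((N : ℤ) + k + n) * q ^ (e * (2 * N + n))) • (DD q n N *
              (Ym q n N e * Oh q n N (fun X => (E1 q n (N + 1) X)⁻¹)) * Yk q n N k *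
                CC q n N) := by
              rw [h3, Matrix.smul_mul, Matrix.smul_mul, Matrix.smul_mul, smul_smul]
              simp only [Matrix.mul_assoc]
          _ = (qn q ((N : ℤ) + k + n) * q ^ (e * (2 * N + n))) • (DD q n N *
              Oh q n N (fun X => (E1 q n (N + 1) X)⁻¹) * (Ym q n N e * Yk q n N k) *
                CC q n N) := by
              rw [h4]
              simp only [Matrix.mul_assoc]
          _ = _ := by
              rw [h1, Matrix.mul_smul, Matrix.smul_mul, smul_smul]
              simp only [Matrix.mul_assoc]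
      have h6 : Oh q n (N + 1) (fun X => hf q n (N + 1) e X * wk q n (N + 1) k X) =
          (qn q ((N : ℤ) + k + n) * q ^ (e * (2 * N + n)) / qn q ((N : ℤ) + 1 - k)) • (DD q n N *
            (Oh q n N (fun X => (E1 q n (N + 1) X)⁻¹) *
              Oh q n N (fun X => hf q n N e X * wk q n N k X)) * CC q n N) := by
        have hd : (Oh q n (N + 1) (fun X => hf q n (N + 1) e X * wk q n (N + 1) k X)) =
            (hf q n (N + 1) e (N + 1) * wk q n (N + 1) k (N + 1)) • 1 + DD q n N *
              Oh q n N (dv q n N (fun X => hf q n (N + 1) e X * wk q n (N + 1) k X)) *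
                CC q n N := rfl
        rw [hd, wk_lt q n (N + 1) (show k < N + 1 by omega), mul_zero, zero_smul, zero_add,
          Oh_mul q N hgN hn1, ← Matrix.smul_mul, ← Matrix.mul_smul, ← Oh_smul]
        congr 2
        apply Oh_congr
        intro X hX
        have h7 := wk_succ hg hn hk' hX
        have hE := E1_ne (X := X) hg hn1 (by omega)
        unfold dv
        simp only
        rw [wk_lt q n (N + 1) (show k < N + 1 by omega), mul_zero, sub_zero, hf_succ hq]
        field_simp
        linear_combination (hf q n N e X) * h7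
      have h8 := congrArg (fun Z => (qn q ((N : ℤ) + 1 - k))⁻¹ • Z) h5
      simp only [smul_smul] at h8
      rw [inv_mul_cancel₀ hne, one_smul] at h8
      rw [h8, h6, smul_smul]
      congr 1
      field_simp
    intro k hk
    rcases Nat.lt_or_ge k (N + 1) with h | h
    · exact low k h
    · obtain rfl : k = N + 1 := by omega
      exact top (N + 1) hg low

end Pool.Agent.OR
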