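import Pool.Agent.H63.VC11.Flip11
import Pool.Agent.OR.A.YkOh

/-!
# Operators which exchange two antiparallel strands

`Z1 f : V ⊗ V* → V* ⊗ V` and `Z2 f : V* ⊗ V → V ⊗ V*`.
-/

set_option autoImplicit false

namespace Pool.Agent.OR.An

open Pool.Agent.H63.VC7 Pool.Agent.H63.VC8 Pool.Agent.H63.VC11 Pool.Agent.S4 Matrix

variable {n N : ℕ}

/-! ### The view from behind -/

/-- The exchange of the two factors followed by the reversal. -/
def tauE (n N : ℕ) : I2 n N ≃ I2 n N where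
  toFun w := (w.2.rev, w.1.rev)
  invFun w := (w.2.rev, w.1.rev)
  left_inv w := by simp
  right_inv w := by simp

/-- The exchange of the two factors in the target. -/
noncomputable def lT (q : ℂ) (X : Matrix (I2 n N) (I2 n N) ℂ) : Matrix (I2 n N) (I2 n N) ℂ :=
  fun x y => (wt q x.1.val)⁻¹ * X (x.2.rev, x.1.rev) y

/-- The exchange of the two factors in the source. -/
noncomputable def rT (q : ℂ) (X : Matrix (I2 n N) (I2 n N) ℂ) : Matrix (I2 n N) (I2 n N) ℂ :=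
  fun x y => X x (y.2.rev, y.1.rev) * wt q y.1.val

theorem flipM_eq (q : ℂ) (X : Matrix (I2 n N) (I2 n N) ℂ) : flipM q X = lT q (rT q X) := by
  ext x y
  simp only [flipM, lT, rT]
  ring

theorem lT_mul (q : ℂ) (A B : Matrix (I2 n N) (I2 n N) ℂ) : lT q A * B = lT q (A * B) := by
  ext x y
  simp only [lT, Matrix.mul_apply, Finset.mul_sum]
  refine Finset.sum_congr rfl fun z _ => ?_
  ring

theorem mul_rT (q : ℂ) (A B : Matrix (I2 n N) (I2 n N) ℂ) : A * rT q B = rT q (A * B) := by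
  ext x y
  simp only [rT, Matrix.mul_apply, Finset.sum_mul]
  refine Finset.sum_congr rfl fun z _ => ?_
  ring

theorem rT_mul_lT (q : ℂ) (hq : q ≠ 0) (A B : Matrix (I2 n N) (I2 n N) ℂ) :
    rT q A * lT q B = A * B := by
  ext x y
  rw [Matrix.mul_apply, Matrix.mul_apply, ← Equiv.sum_comp (tauE n N)
    (fun z => A x z * B z y)]
  refine Finset.sum_congr rfl fun z _ => ?_
  have hw := wt_ne hq z.1.val
  simp only [rT, lT, tauE, Equiv.coe_fn_mk]
  field_simp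

theorem lT_rT_comm (q : ℂ) (X : Matrix (I2 n N) (I2 n N) ℂ) : lT q (rT q X) = rT q (lT q X) := by
  ext x y
  simp only [lT, rT]
  ring

theorem lT_smul (q c : ℂ) (X : Matrix (I2 n N) (I2 n N) ℂ) : lT q (c • X) = c • lT q X := by
  ext x y
  simp only [lT, Matrix.smul_apply, smul_eq_mul]
  ring

theorem rT_smul (q c : ℂ) (X : Matrix (I2 n N) (I2 n N) ℂ) : rT q (c • X) = c • rT q X := by
  ext x y
  simp only [rT, Matrix.smul_apply, smul_eq_mul]
  ring

theorem lT_add (q : ℂ) (X Y : Matrix (I2 n N) (I2 n N) ℂ) : lT q (X + Y) = lT q X + lT q Y := by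
  ext x y
  simp only [lT, Matrix.add_apply]
  ring

theorem rT_add (q : ℂ) (X Y : Matrix (I2 n N) (I2 n N) ℂ) : rT q (X + Y) = rT q X + rT q Y := by
  ext x y
  simp only [rT, Matrix.add_apply]
  ring

/-! ### The algebra of the crossings -/

/-- The crossing, up to a function of the channel. -/
noncomputable def Wh (q : ℂ) (n N : ℕ) (f : ℕ → ℂ) : Matrix (I2 n N) (I2 n N) ℂ :=
  Ym q n N (-1) * Oh q n N (fun X => f X * hf q n N 1 X)

theorem Wh_congr (q : ℂ) (f g : ℕ → ℂ) (h : ∀ X ≤ N, f X = g X) : Wh q n N f = Wh q n N g := by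
  unfold Wh
  congr 1
  exact Oh_congr q N _ _ fun X hX => by rw [h X hX]

theorem Wh_add (q : ℂ) (f g : ℕ → ℂ) :
    Wh q n N (fun X => f X + g X) = Wh q n N f + Wh q n N g := by
  unfold Wh
  rw [← Matrix.mul_add, ← Oh_add]
  congr 1
  exact Oh_congr q N _ _ fun X _ => by ring

theorem Wh_smul (q c : ℂ) (f : ℕ → ℂ) : Wh q n N (fun X => c * f X) = c • Wh q n N f := by
  unfold Wh
  rw [← Matrix.mul_smul, ← Oh_smul]
  congr 1
  exact Oh_congr q N _ _ fun X _ => by ring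

theorem Wh_zero (q : ℂ) : Wh q n N (fun _ => 0) = 0 := by
  have h := Wh_smul (n := n) (N := N) q 0 (fun _ => 0)
  rw [zero_smul] at h
  simpa using h

theorem Wh_sum (q : ℂ) {ι : Type*} (s : Finset ι) (F : ι → ℕ → ℂ) :
    Wh q n N (fun X => ∑ i ∈ s, F i X) = ∑ i ∈ s, Wh q n N (F i) := by
  classical
  induction s using Finset.induction_on with
  | empty =>
    simp only [Finset.sum_empty]
    exact Wh_zero q
  | insert a s ha ih =>
    simp only [Finset.sum_insert ha]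
    rw [Wh_add, ih]

theorem Ym_Ym {q : ℂ} (hg : Gen q n N) (hn : 2 ≤ n) {e e' : ℤ} (he : e = 1 ∨ e = -1)
    (he' : e' = 1 ∨ e' = -1) :
    Ym q n N e * Ym q n N e' = Oh q n N (fun X => hf q n N e X * hf q n N e' X) := by
  have hn1 : 1 ≤ n := by omega
  have nf : ∀ j ≤ N, qf q j ≠ 0 := fun j hj => hg.qf_ne hn1 (by omega)
  refine (congrArg (fun Z => Ym q n N e * Z) (Ym_Yk q N e' hg hn1)).trans ?_
  rw [Matrix.mul_sum]
  have h1 : Oh q n N (fun X => hf q n N e X * hf q n N e' X) =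
      Oh q n N (fun X => ∑ k ∈ Finset.range (N + 1),
        ((-1) ^ (N - k) * q ^ (e' * ((k : ℤ) - N))) * (hf q n N e X * wk q n N k X)) := by
    apply Oh_congr
    intro X hX
    rw [← sum_wk hg hn he' hX, Finset.mul_sum]
    refine Finset.sum_congr rfl fun k _ => ?_
    ring
  rw [h1, Oh_sum]
  refine Finset.sum_congr rfl fun k hk => ?_
  have hk' : k ≤ N := Nat.lt_succ_iff.1 (Finset.mem_range.1 hk)
  rw [Matrix.mul_smul, Ym_Yk_Oh q N he hg hn k hk', smul_smul, Oh_smul]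
  congr 1
  rw [div_mul_cancel₀ _ (pow_ne_zero 2 (nf k hk'))]

theorem Ym_neg {q : ℂ} (hg : Gen q n N) (hn : 2 ≤ n) : Ym q n N (-1) * Ym q n N 1 = 1 := by
  rw [Ym_Ym hg hn (Or.inr rfl) (Or.inl rfl), ← one_smul ℂ (1 : Matrix (I2 n N) (I2 n N) ℂ),
    ← Oh_const]
  refine Oh_congr q N _ _ fun X _ => ?_
  rw [mul_comm]
  exact hf_neg hg.1 n N 1 X

theorem Ym_Wh {q : ℂ} (hg : Gen q n N) (hn : 2 ≤ n) {e : ℤ} (he : e = 1 ∨ e = -1) :
    Ym q n N e = Wh q n N (hf q n N e) := by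
  have hn1 : 1 ≤ n := by omega
  unfold Wh
  rcases he with rfl | rfl
  · have h1 := Ym_Ym hg hn (e := 1) (e' := 1) (Or.inl rfl) (Or.inl rfl)
    rw [← h1, ← Matrix.mul_assoc, Ym_neg hg hn, Matrix.one_mul]
  · have h1 : Oh q n N (fun X => hf q n N (-1) X * hf q n N 1 X) = 1 := by
      rw [← one_smul ℂ (1 : Matrix (I2 n N) (I2 n N) ℂ), ← Oh_const]
      refine Oh_congr q N _ _ fun X _ => ?_
      rw [mul_comm]
      exact hf_neg hg.1 n N 1 X
    rw [h1, Matrix.mul_one]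

theorem Yk_Wh {q : ℂ} (hg : Gen q n N) (hn : 2 ≤ n) {k : ℕ} (hk : k ≤ N) :
    Yk q n N k = qf q k ^ 2 • Wh q n N (wk q n N k) := by
  have h1 := Ym_Yk_Oh q N (e := 1) (Or.inl rfl) hg hn k hk
  have h2 := congrArg (fun Z => Ym q n N (-1) * Z) h1
  rw [← Matrix.mul_assoc, Ym_neg hg hn, Matrix.one_mul, Matrix.mul_smul] at h2
  rw [h2]
  unfold Wh
  congr 2
  refine Oh_congr q N _ _ fun X _ => ?_
  ring

theorem Oh_mul_Wh {q : ℂ} (hg : Gen q n N) (hn : 1 ≤ n) (f g : ℕ → ℂ) :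
    Oh q n N f * Wh q n N g = Wh q n N (fun X => f X * g X) := by
  unfold Wh
  rw [← Matrix.mul_assoc, ← Ym_Oh q N (Or.inr rfl) hg hn, Matrix.mul_assoc, Oh_mul q N hg hn]
  congr 1
  exact Oh_congr q N _ _ fun X _ => by ring

theorem Wh_mul_Oh {q : ℂ} (hg : Gen q n N) (hn : 1 ≤ n) (f g : ℕ → ℂ) :
    Wh q n N f * Oh q n N g = Wh q n N (fun X => f X * g X) := by
  unfold Wh
  rw [Matrix.mul_assoc, Oh_mul q N hg hn]
  congr 1
  exact Oh_congr q N _ _ fun X _ => by ring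

theorem Wh_mul_Wh {q : ℂ} (hg : Gen q n N) (hn : 2 ≤ n) (f g : ℕ → ℂ) :
    Wh q n N f * Wh q n N g = Oh q n N (fun X => f X * g X) := by
  have hn1 : 1 ≤ n := by omega
  unfold Wh
  calc Ym q n N (-1) * Oh q n N (fun X => f X * hf q n N 1 X) *
        (Ym q n N (-1) * Oh q n N (fun X => g X * hf q n N 1 X))
      = Ym q n N (-1) * (Oh q n N (fun X => f X * hf q n N 1 X) * Ym q n N (-1)) *
          Oh q n N (fun X => g X * hf q n N 1 X) := by simp only [Matrix.mul_assoc]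
    _ = Ym q n N (-1) * Ym q n N (-1) * (Oh q n N (fun X => f X * hf q n N 1 X) *
          Oh q n N (fun X => g X * hf q n N 1 X)) := by
        rw [← Ym_Oh q N (Or.inr rfl) hg hn1]
        simp only [Matrix.mul_assoc]
    _ = _ := by
        rw [Ym_Ym hg hn (Or.inr rfl) (Or.inr rfl), Oh_mul q N hg hn1, Oh_mul q N hg hn1]
        refine Oh_congr q N _ _ fun X _ => ?_
        have h := hf_neg hg.1 n N 1 X
        linear_combination (f X * g X * (hf q n N 1 X * hf q n N (-1) X + 1)) * h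

/-! ### The operators `Z1`, `Z2` -/

/-- The operators `V ⊗ V* → V* ⊗ V`. -/
noncomputable def Z1 (q : ℂ) (n N : ℕ) (f : ℕ → ℂ) : Matrix (I2 n N) (I2 n N) ℂ :=
  lT q (Wh q n N f)

/-- The operators `V* ⊗ V → V ⊗ V*`. -/
noncomputable def Z2 (q : ℂ) (n N : ℕ) (f : ℕ → ℂ) : Matrix (I2 n N) (I2 n N) ℂ :=
  rT q (Wh q n N f)

theorem Z1_congr (q : ℂ) (f g : ℕ → ℂ) (h : ∀ X ≤ N, f X = g X) : Z1 q n N f = Z1 q n N g := by
  unfold Z1
  rw [Wh_congr q f g h]

theorem Z2_congr (q : ℂ) (f g : ℕ → ℂ) (h : ∀ X ≤ N, f X = g X) : Z2 q n N f = Z2 q n N g := by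
  unfold Z2
  rw [Wh_congr q f g h]

theorem Z2_mul_Z1 {q : ℂ} (hg : Gen q n N) (hn : 2 ≤ n) (f g : ℕ → ℂ) :
    Z2 q n N f * Z1 q n N g = Oh q n N (fun X => f X * g X) := by
  unfold Z1 Z2
  rw [rT_mul_lT q hg.1, Wh_mul_Wh hg hn]

theorem Z1_mul_Z2 {q : ℂ} (hg : Gen q n N) (hn : 2 ≤ n) (f g : ℕ → ℂ) :
    Z1 q n N f * Z2 q n N g = flipM q (Oh q n N (fun X => f X * g X)) := by
  unfold Z1 Z2
  rw [lT_mul, mul_rT, Wh_mul_Wh hg hn, flipM_eq]

theorem Z1_mul_Oh {q : ℂ} (hg : Gen q n N) (hn : 1 ≤ n) (f g : ℕ → ℂ) :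
    Z1 q n N f * Oh q n N g = Z1 q n N (fun X => f X * g X) := by
  unfold Z1
  rw [lT_mul, Wh_mul_Oh hg hn]

theorem flip_mul_Z1 {q : ℂ} (hg : Gen q n N) (hn : 1 ≤ n) (f g : ℕ → ℂ) :
    flipM q (Oh q n N f) * Z1 q n N g = Z1 q n N (fun X => f X * g X) := by
  unfold Z1
  rw [flipM_eq, lT_mul, rT_mul_lT q hg.1, Oh_mul_Wh hg hn]

theorem Oh_mul_Z2 {q : ℂ} (hg : Gen q n N) (hn : 1 ≤ n) (f g : ℕ → ℂ) :
    Oh q n N f * Z2 q n N g = Z2 q n N (fun X => f X * g X) := by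
  unfold Z2
  rw [mul_rT, Oh_mul_Wh hg hn]

theorem Z2_mul_flip {q : ℂ} (hg : Gen q n N) (hn : 1 ≤ n) (f g : ℕ → ℂ) :
    Z2 q n N f * flipM q (Oh q n N g) = Z2 q n N (fun X => f X * g X) := by
  unfold Z2
  rw [flipM_eq, rT_mul_lT q hg.1, mul_rT, Wh_mul_Oh hg hn]

/-- The crossing of two strands, the left one oriented upwards. -/
theorem X1m_eq {q : ℂ} (hg : Gen q n N) (hn : 2 ≤ n) {e : ℤ} (he : e = 1 ∨ e = -1) :
    X1m q n N e = Z1 q n N (hf q n N e) := by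
  unfold Z1
  rw [← Ym_Wh hg hn he]
  ext x y
  simp only [X1m, lT, Ym, Vn.rev_rev]
  ring

private theorem gf_rev' (q : ℂ) (a : Fin n → ℕ) : gf q (fun i => a i.rev) = gf q a := by
  unfold gf
  exact Equiv.prod_comp Fin.revPerm (fun i => qf q (a i))

/-- The symmetry of the crossing. -/
theorem Rm_flip (q : ℂ) (e : ℤ) (hg : Gen q n N) (hn : 1 ≤ n) (a b c d : Vn n N) :
    Rm q n N e (c, d) (b, a) = Rm q n N e (d.rev, c.rev) (a.rev, b.rev) := by
  rw [Rm_eq q N e hg hn, Rm_eq q N e hg hn]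
  simp only [Vn.rev_val]
  rw [KR_flip q N e hg.1 (hg.br_one hn) c.val d.val b.val a.val (b.sum.trans a.sum.symm),
    gf_rev', gf_rev', mul_comm (gf q b.val)]

/-- The crossing of two strands, the left one oriented downwards. -/
theorem X2m_eq {q : ℂ} (hg : Gen q n N) (hn : 2 ≤ n) {e : ℤ} (he : e = 1 ∨ e = -1) :
    X2m q n N e = Z2 q n N (hf q n N e) := by
  unfold Z2
  rw [← Ym_Wh hg hn he]
  ext x y
  have hw := wt_ne hg.1 y.1.val
  simp only [X2m, rT, Ym, Vn.rev_val]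
  rw [Rm_flip q e hg (by omega) x.2 y.2 y.1 x.1, wt_rev]
  field_simp

end Pool.Agent.OR.An
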