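import Pool.Agent.OR.A.Flip
import Pool.Agent.S4.B.Mf

/-! # The closures of a tangle with four ends -/

namespace Pool.Agent.OR

open Pool.Agent.H63.VC7 Pool.Agent.H63.VC8 Pool.Agent.H63.VC11 Pool.Agent.S4 Matrix

variable {n N : ℕ} {q : ℂ} {a : ℤ} {f g : ℕ → ℂ} {M M' : Matrix (I2 n N) (I2 n N) ℂ}

/-! ### The closure as a trace -/

/-- The coefficient of a minimum. -/
private noncomputable def kc (q : ℂ) (l : Bool) (a : Fin n → ℕ) : ℂ := if l then 1 else (wt q a)⁻¹

/-- The coefficient of a maximum. -/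
private noncomputable def kp (q : ℂ) (l : Bool) (a : Fin n → ℕ) : ℂ := if l then wt q a else 1

private theorem act_cup (q : ℂ) (l : Bool) (i : ℕ) (ψ : List (Fin n → ℕ) → ℂ)
    (p r : List (Fin n → ℕ)) (a b : Fin n → ℕ) (hp : p.length = i) :
    act q n N (cup l i) ψ (p ++ a :: b :: r) =
      if a = b ∧ ∑ j, a j = N then kc q l a * ψ (p ++ r) else 0 := by
  cases l
  · simp only [cup, kc, Bool.false_eq_true, if_false, act, List.drop_left' hp, List.take_left' hp]
  · simp only [cup, kc, if_true, act, List.drop_left' hp, List.take_left' hp, one_mul]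

private theorem act_cap (q : ℂ) (l : Bool) (i : ℕ) (ψ : List (Fin n → ℕ) → ℂ)
    (p r : List (Fin n → ℕ)) (hp : p.length = i) :
    act q n N (cap l i) ψ (p ++ r) =
      ∑ a : Vn n N, kp q l a.val * ψ (p ++ a.val :: a.val :: r) := by
  cases l
  · simp only [cap, kp, Bool.false_eq_true, if_false, act, List.drop_left' hp, List.take_left' hp,
      one_mul]
    rw [sum_Vn]
  · simp only [cap, kp, if_true, act, List.drop_left' hp, List.take_left' hp]
    rw [sum_Vn]

private theorem closure {w : List Piece} {X : Matrix (I2 n N) (I2 n N) ℂ} (l r : Bool)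
    (h : Acts q w 0 X) :
    bracket q n N ([cup l 0, cup r 1] ++ w ++ [cap r 1, cap l 0]) =
      ∑ x : I2 n N, kp q l x.1.val * kc q l x.1.val * (kp q r x.2.val * kc q r x.2.val) *
        X x x := by
  set δ : List (Fin n → ℕ) → ℂ := fun l => if l = [] then 1 else 0 with hδ
  have e1 : bracket q n N ([cup l 0, cup r 1] ++ w ++ [cap r 1, cap l 0]) =
      act q n N (cap l 0) (act q n N (cap r 1)
        (eval q n N w (act q n N (cup r 1) (act q n N (cup l 0) δ)))) [] := by
    unfold bracket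
    rw [eval_append, eval_append]
    rfl
  have key : ∀ a b : Vn n N,
      eval q n N w (act q n N (cup r 1) (act q n N (cup l 0) δ))
        [a.val, b.val, b.val, a.val] = X (a, b) (a, b) * (kc q r b.val * kc q l a.val) := by
    intro a b
    have e2 := h (act q n N (cup r 1) (act q n N (cup l 0) δ)) [] [b.val, a.val]
      (a, b) rfl
    simp only [List.nil_append] at e2
    rw [e2, Finset.sum_eq_single (a, b)]
    · have e3 : ([a.val, b.val, b.val, a.val] : List (Fin n → ℕ)) =
        [a.val] ++ b.val :: b.val :: [a.val] := rfl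
      rw [e3, act_cup q r 1 _ _ _ _ _ rfl, if_pos ⟨rfl, b.sum⟩]
      have e4 : ([a.val] ++ [a.val] : List (Fin n → ℕ)) = [] ++ a.val :: a.val :: [] := rfl
      rw [e4, act_cup q l 0 _ _ _ _ _ rfl, if_pos ⟨rfl, a.sum⟩]
      simp [hδ]
    · intro y _ hy
      have e3 : (y.1.val :: y.2.val :: [b.val, a.val] : List (Fin n → ℕ)) =
        [y.1.val] ++ y.2.val :: b.val :: [a.val] := rfl
      rw [e3, act_cup q r 1 _ _ _ _ _ rfl]
      by_cases h1 : y.2.val = b.val ∧ ∑ j, y.2.val j = N
      · rw [if_pos h1]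
        have e4 : ([y.1.val] ++ [a.val] : List (Fin n → ℕ)) = [] ++ y.1.val :: a.val :: [] := rfl
        rw [e4, act_cup q l 0 _ _ _ _ _ rfl, if_neg, mul_zero, mul_zero]
        rintro ⟨h2, _⟩
        exact hy (Prod.ext (Vn.ext h2) (Vn.ext h1.1))
      · rw [if_neg h1, mul_zero]
    · intro hne
      exact absurd (Finset.mem_univ _) hne
  rw [e1]
  have f1 : ∀ φ : List (Fin n → ℕ) → ℂ, act q n N (cap l 0) φ [] =
      ∑ a : Vn n N, kp q l a.val * φ [a.val, a.val] := fun φ => by
    have := act_cap (N := N) q l 0 φ [] [] rfl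
    simpa using this
  have f2 : ∀ (φ : List (Fin n → ℕ) → ℂ) (a : Fin n → ℕ), act q n N (cap r 1) φ [a, a] =
      ∑ b : Vn n N, kp q r b.val * φ [a, b.val, b.val, a] := fun φ a => by
    have := act_cap (N := N) q r 1 φ [a] [a] rfl
    simpa using this
  rw [f1]
  simp only [f2, key, Fintype.sum_prod_type, Finset.mul_sum]
  refine Finset.sum_congr rfl fun a _ => Finset.sum_congr rfl fun b _ => ?_
  ring

private theorem kpc (q : ℂ) (l : Bool) (a : Fin n → ℕ) :
    kp q l a * kc q l a = if l then wt q a else (wt q a)⁻¹ := by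
  cases l
  · simp [kp, kc]
  · simp [kp, kc]

/-! ### The invariant vector -/

/-- The invariant vector. -/
private def uv (n N : ℕ) : I2 n N → ℂ := fun x => if x.1.val = x.2.val then 1 else 0

private theorem tele (hq : q ≠ 0) (c : Fin n → ℕ) :
    ∑ i, qn q (c i) * q ^ (hi c i - lo c i) = qn q ((∑ i, c i : ℕ) : ℤ) := by
  set S : ℤ := ((∑ i, c i : ℕ) : ℤ) with hS
  set T : ℕ → ℤ := fun k => ∑ j : Fin n, if j.val < k then (c j : ℤ) else 0 with hT
  have hlo : ∀ i : Fin n, T i.val = lo c i := by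
    intro i
    simp only [hT, lo]
    rw [← Finset.sum_filter]
    refine Finset.sum_congr ?_ fun _ _ => rfl
    ext j
    simp
  have hsucc : ∀ i : Fin n, T (i.val + 1) = T i.val + c i := by
    intro i
    have h1 : (c i : ℤ) = ∑ j : Fin n, if j = i then (c j : ℤ) else 0 := by
      rw [Finset.sum_ite_eq', if_pos (Finset.mem_univ _)]
    simp only [hT]
    rw [h1, ← Finset.sum_add_distrib]
    refine Finset.sum_congr rfl fun j _ => ?_
    by_cases h2 : j = i
    · subst h2
      simp
    · have h3 : j.val ≠ i.val := fun h => h2 (Fin.ext h)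
      by_cases h4 : j.val < i.val
      · rw [if_pos (by omega), if_pos h4, if_neg h2, add_zero]
      · rw [if_neg (by omega), if_neg h4, if_neg h2, add_zero]
  have h0 : T 0 = 0 := by simp [hT]
  have hn : T n = S := by
    simp only [hT, hS]
    push_cast
    exact Finset.sum_congr rfl fun j _ => if_pos j.2
  have hterm : ∀ i : Fin n, qn q (c i) * q ^ (hi c i - lo c i) =
      (fun k : ℕ => (q ^ (S - 2 * T k) - q ^ (S - 2 * T (k + 1))) / br q 1) i.val := by
    intro i
    show _ = (q ^ (S - 2 * T i.val) - q ^ (S - 2 * T (i.val + 1))) / br q 1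
    rw [hsucc, hlo]
    have h1 := lo_self_hi c i
    unfold qn br
    have e1 : (c i : ℤ) + (hi c i - lo c i) = S - 2 * lo c i := by rw [hS]; linarith
    have e2 : -(c i : ℤ) + (hi c i - lo c i) = S - 2 * (lo c i + c i) := by rw [hS]; linarith
    rw [div_mul_eq_mul_div, sub_mul, ← zpow_add₀ hq, ← zpow_add₀ hq, e1, e2]
  rw [Finset.sum_congr rfl fun i _ => hterm i,
    Fin.sum_univ_eq_sum_range (fun k => (q ^ (S - 2 * T k) - q ^ (S - 2 * T (k + 1))) / br q 1) n,
    ← Finset.sum_div]
  have h2 := Finset.sum_range_sub' (fun k => q ^ (S - 2 * T k)) n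
  have e3 : S - 2 * 0 = S := by ring
  have e4 : S - 2 * S = -S := by ring
  rw [h2, h0, hn, e3, e4]
  rfl

private theorem DD_uv (hq : q ≠ 0) (n N : ℕ) :
    DD q n N *ᵥ uv n N = qn q ((N : ℤ) + 1) • uv n (N + 1) := by
  funext x
  have h1 := DD_mul_fun q (fun a b : Fin n → ℕ => if a = b then (1 : ℂ) else 0) x
  have h2 : (DD q n N *ᵥ uv n N) x = ∑ z : I2 n N, DD q n N x z *
      (fun a b : Fin n → ℕ => if a = b then (1 : ℂ) else 0) z.1.val z.2.val := rfl
  rw [h2, h1, Pi.smul_apply, smul_eq_mul]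
  unfold uv
  by_cases hx : x.1.val = x.2.val
  · rw [if_pos hx, mul_one]
    have h3 := tele hq x.1.val
    rw [x.1.sum] at h3
    push_cast at h3
    rw [← h3]
    refine Finset.sum_congr rfl fun i _ => ?_
    rw [← hx]
    by_cases h4 : x.1.val i = 0
    · rw [if_neg (by simp [h4]), h4, Nat.cast_zero, qn_zero, zero_mul]
    · rw [if_pos ⟨h4, h4⟩, if_pos rfl, mul_one]
  · rw [if_neg hx, mul_zero]
    refine Finset.sum_eq_zero fun i _ => ?_
    split_ifs with h4 h5
    · exfalso
      apply hx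
      rw [← sub_add_single h4.1, ← sub_add_single h4.2, h5]
    · rw [mul_zero]
    · rfl

private theorem uv_succ (hg : Gen q n (N + 1)) (hn : 1 ≤ n) :
    uv n (N + 1) = (qn q ((N : ℤ) + 1))⁻¹ • (DD q n N *ᵥ uv n N) := by
  have h1 : qn q ((N : ℤ) + 1) ≠ 0 := hg.qn_ne hn (by omega) (by push_cast; omega)
  rw [DD_uv hg.1, smul_smul, inv_mul_cancel₀ h1, one_smul]

private theorem Oh_DD (hg : Gen q n (N + 1)) (hn : 1 ≤ n) (f : ℕ → ℂ) :
    Oh q n (N + 1) f * DD q n N = DD q n N * Oh q n N f := by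
  have hgN : Gen q n N := hg.mono (Nat.le_succ N)
  have h2 : Oh q n (N + 1) f = f (N + 1) • 1 + DD q n N * Oh q n N (dv q n N f) * CC q n N := rfl
  rw [h2, Matrix.add_mul, Matrix.smul_mul, Matrix.one_mul, Matrix.mul_assoc, CD_Oh q N hg hn,
    Matrix.mul_assoc, Oh_mul q N hgN hn]
  have h3 : f (N + 1) • DD q n N = DD q n N * Oh q n N (fun _ => f (N + 1)) := by
    rw [Oh_const, Matrix.mul_smul, Matrix.mul_one]
  rw [h3, ← Matrix.mul_add, ← Oh_add]
  congr 1
  refine Oh_congr q N _ _ fun X hX => ?_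
  have hE := E1_ne (X := X) hg hn (by omega)
  unfold dv
  field_simp
  ring

private theorem Oh_uv (hg : Gen q n N) (hn : 1 ≤ n) (f : ℕ → ℂ) :
    Oh q n N f *ᵥ uv n N = f 0 • uv n N := by
  induction N generalizing f with
  | zero =>
    show (f 0 • (1 : Matrix (I2 n 0) (I2 n 0) ℂ)) *ᵥ uv n 0 = _
    rw [Matrix.smul_mulVec, Matrix.one_mulVec]
  | succ N ih =>
    rw [uv_succ hg hn, Matrix.mulVec_smul, Matrix.mulVec_mulVec, Oh_DD hg hn,
      ← Matrix.mulVec_mulVec, ih (hg.mono (Nat.le_succ N)), Matrix.mulVec_smul, smul_comm]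

private theorem Uh_zero (n : ℕ) : Uh q n 0 *ᵥ uv n 0 = uv n 0 := by
  have hv : ∀ a : Vn n 0, a.val = 0 := fun a => by
    have h := a.sum
    rw [Finset.sum_eq_zero_iff] at h
    funext i
    exact h i (Finset.mem_univ _)
  have hs : ∀ x y : I2 n 0, x = y := fun x y =>
    Prod.ext (Vn.ext ((hv _).trans (hv _).symm)) (Vn.ext ((hv _).trans (hv _).symm))
  have h1 : ∀ x y : I2 n 0, Rm q n 0 (-1) x y = 1 := fun x y => by
    unfold Rm opR
    rw [zero_add, Finset.sum_range_one, hs x y]
    simp [qf_zero]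
  funext x
  show ∑ y, Uh q n 0 x y * uv n 0 y = uv n 0 x
  rw [Finset.sum_eq_single x (fun y _ hy => absurd (hs y x) hy)
    (fun h => absurd (Finset.mem_univ _) h)]
  have h2 : Uh q n 0 x x = 1 := by
    unfold Uh
    have h3 : ∀ f : ℕ → ℂ, Oh q n 0 f = f 0 • (1 : Matrix (I2 n 0) (I2 n 0) ℂ) := fun _ => rfl
    rw [h3, Matrix.mul_smul, Matrix.mul_one, Matrix.smul_apply, smul_eq_mul]
    unfold Ym
    rw [h1, hv, wt_zero]
    simp
  rw [h2, one_mul]

private theorem Uh_uv (hg : Gen q n N) (hn : 2 ≤ n) : Uh q n N *ᵥ uv n N = uv n N := by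
  induction N with
  | zero => exact Uh_zero n
  | succ N ih =>
    rw [uv_succ hg (by omega), Matrix.mulVec_smul, Matrix.mulVec_mulVec, Uh_DD hg hn,
      ← Matrix.mulVec_mulVec, ih (hg.mono (Nat.le_succ N))]

/-! ### The traces -/

private theorem Ro_zero (hg : Gen q n N) (hn : 2 ≤ n) (a : ℤ) (f : ℕ → ℂ) :
    dimS n N q * Ro n q N a f 0 = ∑ X ∈ Finset.range (N + 1), dimT n N q X * f X := by
  have hd := Brac11_dimS_ne q n N hg hn
  unfold Ro
  rw [Finset.mul_sum]
  refine Finset.sum_congr rfl fun j _ => ?_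
  rw [six_zero]
  field_simp

private theorem trU (hg : Gen q n N) (hn : 2 ≤ n) (h : IsP q n N f M) :
    ∑ x : I2 n N, wt q x.1.val * wt q x.2.val * M x x =
      ∑ X ∈ Finset.range (N + 1), dimT n N q X * f X := by
  have hq := hg.1
  have h1 := h.X1 hg hn (a := (N : ℤ) + n) (Or.inl rfl)
  rw [← Ro_zero hg hn ((N : ℤ) + n) f]
  set c := Ro n q N ((N : ℤ) + n) f 0 with hc
  have h2 : X1b q M *ᵥ uv n N = c • (Sm q n N *ᵥ uv n N) := by
    rw [h1]
    have h3 : MA q n N true false (Ro n q N ((N : ℤ) + n) f) =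
        Sm q n N * (Uh q n N * Oh q n N (Ro n q N ((N : ℤ) + n) f)) := by
      unfold MA
      simp
    rw [h3, ← Matrix.mulVec_mulVec, ← Matrix.mulVec_mulVec, Oh_uv hg (by omega),
      Matrix.mulVec_smul, Matrix.mulVec_smul, Uh_uv hg hn]
  have h4 : ∀ a : Vn n N, ∑ b : Vn n N, wt q b.val * M (a, b) (a, b) = c := by
    intro a
    have h5 := congrFun h2 (a, a)
    have h6 : (X1b q M *ᵥ uv n N) (a, a) =
        ∑ b : Vn n N, (wt q a.val)⁻¹ * (wt q b.val * M (a, b) (a, b)) := by
      show ∑ y : I2 n N, X1b q M (a, a) y * uv n N y = _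
      rw [Fintype.sum_prod_type]
      refine Finset.sum_congr rfl fun b _ => ?_
      rw [Finset.sum_eq_single b]
      · unfold uv X1b
        rw [if_pos rfl]
        ring
      · intro c _ hcb
        unfold uv
        rw [if_neg (fun h => hcb (Vn.ext h).symm), mul_zero]
      · intro h
        exact absurd (Finset.mem_univ _) h
    have h7 : (c • (Sm q n N *ᵥ uv n N)) (a, a) = c * (wt q a.val)⁻¹ := by
      rw [Pi.smul_apply, smul_eq_mul]
      congr 1
      show ∑ y : I2 n N, Sm q n N (a, a) y * uv n N y = _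
      rw [Finset.sum_eq_single (a.rev, a.rev)]
      · unfold Sm uv
        simp
      · intro y _ hy
        unfold Sm
        rw [if_neg hy, zero_mul]
      · intro h
        exact absurd (Finset.mem_univ _) h
    rw [h6, h7, ← Finset.mul_sum, mul_comm] at h5
    have h8 : (wt q a.val)⁻¹ ≠ 0 := inv_ne_zero (wt_ne hq _)
    exact mul_right_cancel₀ h8 h5
  rw [Fintype.sum_prod_type]
  have h9 : ∀ a : Vn n N, ∑ b : Vn n N, wt q a.val * wt q b.val * M (a, b) (a, b) =
      wt q a.val * c := fun a => by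
    rw [← h4 a, Finset.mul_sum]
    exact Finset.sum_congr rfl fun b _ => mul_assoc _ _ _
  rw [Finset.sum_congr rfl fun a _ => h9 a, ← Finset.sum_mul, sum_wt q N hg (by omega)]

private theorem trD (hg : Gen q n N) (hn : 2 ≤ n) (h : IsP q n N f M) :
    ∑ x : I2 n N, (wt q x.1.val)⁻¹ * (wt q x.2.val)⁻¹ * DDb M x x =
      ∑ X ∈ Finset.range (N + 1), dimT n N q X * f X := by
  have hq := hg.1
  have h1 := h.X2 hg hn (a := (N : ℤ) + n) (Or.inl rfl)
  rw [← Ro_zero hg hn ((N : ℤ) + n) f]
  set c := Ro n q N ((N : ℤ) + n) f 0 with hc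
  set v : I2 n N → ℂ := fun x => (wt q x.1.val)⁻¹ * uv n N x with hv
  have hS : Si q n N *ᵥ v = uv n N := by
    funext z
    show ∑ y : I2 n N, Si q n N z y * v y = _
    rw [Finset.sum_eq_single (z.2.rev, z.1.rev)]
    · have h2 : uv n N (z.2.rev, z.1.rev) = uv n N z := by
        have h3 : z.2.rev.val = z.1.rev.val ↔ z.1.val = z.2.val := by
          constructor
          · intro h4
            exact (congrArg Vn.val (Vn.rev_inj.1 (Vn.ext h4))).symm
          · intro h4
            exact congrArg Vn.val (Vn.rev_inj.2 (Vn.ext h4).symm)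
        unfold uv
        by_cases h4 : z.1.val = z.2.val
        · rw [if_pos h4, if_pos (h3.2 h4)]
        · rw [if_neg h4, if_neg (fun h5 => h4 (h3.1 h5))]
      have h5 : wt q z.2.rev.val ≠ 0 := wt_ne hq _
      rw [hv]
      show Si q n N z (z.2.rev, z.1.rev) * ((wt q z.2.rev.val)⁻¹ * uv n N (z.2.rev, z.1.rev)) = _
      rw [h2]
      unfold Si
      rw [if_pos (by simp)]
      show wt q z.2.rev.val * ((wt q z.2.rev.val)⁻¹ * uv n N z) = _
      field_simp
    · intro y _ hy
      unfold Si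
      rw [if_neg, zero_mul]
      intro h3
      apply hy
      rw [h3]
      simp
    · intro h
      exact absurd (Finset.mem_univ _) h
  have h2 : X2b M *ᵥ v = c • uv n N := by
    rw [h1]
    have h3 : MA q n N false true (Ro n q N ((N : ℤ) + n) f) =
        Uh q n N * Oh q n N (Ro n q N ((N : ℤ) + n) f) * Si q n N := by
      unfold MA
      simp
    rw [h3, ← Matrix.mulVec_mulVec, hS, ← Matrix.mulVec_mulVec, Oh_uv hg (by omega),
      Matrix.mulVec_smul, Uh_uv hg hn]
  have h4 : ∀ b : Vn n N, ∑ a : Vn n N, (wt q a.val)⁻¹ * M (a, b) (a, b) = c := by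
    intro b
    have h5 := congrFun h2 (b, b)
    have h6 : (X2b M *ᵥ v) (b, b) = ∑ a : Vn n N, (wt q a.val)⁻¹ * M (a, b) (a, b) := by
      show ∑ y : I2 n N, X2b M (b, b) y * v y = _
      rw [Fintype.sum_prod_type]
      refine Finset.sum_congr rfl fun a _ => ?_
      rw [Finset.sum_eq_single a]
      · rw [hv]
        unfold uv X2b
        simp only [if_true]
        ring
      · intro c _ hcb
        rw [hv]
        unfold uv
        simp only
        rw [if_neg (fun h => hcb (Vn.ext h).symm), mul_zero, mul_zero]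
      · intro h
        exact absurd (Finset.mem_univ _) h
    rw [h6, Pi.smul_apply, smul_eq_mul] at h5
    rw [h5]
    unfold uv
    rw [if_pos rfl, mul_one]
  rw [Fintype.sum_prod_type]
  have h9 : ∀ b : Vn n N, ∑ a : Vn n N, (wt q b.val)⁻¹ * (wt q a.val)⁻¹ *
      DDb M (b, a) (b, a) = (wt q b.val)⁻¹ * c := fun b => by
    rw [← h4 b, Finset.mul_sum]
    exact Finset.sum_congr rfl fun a _ => mul_assoc _ _ _
  rw [Finset.sum_congr rfl fun a _ => h9 a, ← Finset.sum_mul, sum_wt_inv q N hg (by omega)]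

private theorem trO (hg : Gen q n N) (hn : 2 ≤ n) (f : ℕ → ℂ) :
    ∑ x : I2 n N, (wt q x.1.val)⁻¹ * wt q x.2.val * flipM q (Oh q n N f) x x =
      ∑ X ∈ Finset.range (N + 1), dimA n q X * f X := by
  have hq := hg.1
  rw [← trq_Oh q N hg hn f]
  unfold trq
  rw [← Equiv.sum_comp (((Vn.revE n N).prodCongr (Vn.revE n N)))]
  refine Finset.sum_congr rfl fun x _ => ?_
  have h1 : ((Vn.revE n N).prodCongr (Vn.revE n N)) x = (x.1.rev, x.2.rev) := rfl
  rw [h1]
  unfold flipM
  simp only [Vn.rev_rev]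
  rw [Oh_half hq f (x.2, x.1) (x.2, x.1)]
  have h2 : wt q x.1.rev.val = (wt q x.1.val)⁻¹ := wt_rev _
  have h3 : wt q x.2.rev.val = (wt q x.2.val)⁻¹ := wt_rev _
  rw [h2, h3]
  have h4 := wt_ne hq x.1.val
  have h5 := wt_ne hq x.2.val
  field_simp

theorem ActsT_close (hg : Gen q n N) (hn : 2 ≤ n) {w : List Piece} {P l : Bool}
    (h : ActsT q n N w 0 P l l f) :
    bracket q n N ([cup l 0, cup (if P then l else !l) 1] ++ w ++
        [cap (if P then l else !l) 1, cap l 0]) =
      ∑ X ∈ Finset.range (N + 1), (if P then dimT n N q X else dimA n q X) * f X := by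
  unfold ActsT at h
  cases P
  · simp only [Bool.false_eq_true, if_false] at h ⊢
    rw [closure l (!l) h]
    simp only [kpc]
    cases l
    · simp only [Bool.false_eq_true, if_false, Bool.not_false, if_true]
      rw [← trO hg hn f]
      refine Finset.sum_congr rfl fun x _ => ?_
      congr 1
      rw [flipM_eq]
      unfold MA
      simp
    · simp only [if_true, Bool.not_true, Bool.false_eq_true, if_false]
      rw [← trq_Oh q N hg hn f]
      unfold trq
      refine Finset.sum_congr rfl fun x _ => ?_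
      congr 1
      unfold MA
      simp
  · simp only [if_true] at h ⊢
    obtain ⟨_, M, hM, hA⟩ := h
    rw [closure l l hA]
    simp only [kpc]
    cases l
    · simp only [Bool.false_eq_true, if_false]
      exact trD hg hn hM
    · simp only [if_true]
      exact trU hg hn hM

end Pool.Agent.OR
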