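import Pool.Agent.OR.Diag
import Pool.Agent.OR.R.Tree
import Pool.Agent.H63.VC11.Bra11

/-! # Operators on the tensor product of two factors -/

namespace Pool.Agent.OR

open Pool.Agent.H63.VC7 Pool.Agent.H63.VC8 Pool.Agent.H63.VC11 Pool.Agent.S4 Matrix

variable {n N : ℕ}

/-- The matrix of `E ^ k F ^ k / [k]! ^ 2` on `V ⊗ V`. -/
noncomputable def Lm (q : ℂ) (n N k : ℕ) : Matrix (I2 n N) (I2 n N) ℂ := fun x y =>
  (opE q)^[k] ((opF q)^[k] (fun p => if p = (y.1.val, y.2.val) then 1 else 0))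
    (x.1.val, x.2.val) / qf q k ^ 2

/-- `M` is the operator on `V ⊗ V` which is `f j` on the channel `j`. -/
def IsP (q : ℂ) (n N : ℕ) (f : ℕ → ℂ) (M : Matrix (I2 n N) (I2 n N) ℂ) : Prop :=
  ∃ c : ℕ → ℂ, M = ∑ k ∈ Finset.range (N + 1), c k • Lm q n N k ∧
    ∀ j ≤ N, f j = ∑ k ∈ Finset.range (N + 1), c k * LE q k j

/-- The rotation of an operator on `V ⊗ V`, followed by the flip. -/
noncomputable def Yb (q : ℂ) (B : Matrix (I2 n N) (I2 n N) ℂ) : Matrix (I2 n N) (I2 n N) ℂ :=
  fun x y => wt q y.2.val * B (x.1.rev, y.2) (x.2.rev, y.1)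

/-- The rotation which appears at antiparallel strands with the directions up, down. -/
noncomputable def X1b (q : ℂ) (B : Matrix (I2 n N) (I2 n N) ℂ) : Matrix (I2 n N) (I2 n N) ℂ :=
  fun x y => (wt q x.1.val)⁻¹ * wt q y.2.val * B (x.2, y.2) (x.1, y.1)

/-- The rotation which appears at antiparallel strands with the directions down, up. -/
def X2b (B : Matrix (I2 n N) (I2 n N) ℂ) : Matrix (I2 n N) (I2 n N) ℂ :=
  fun x y => B (y.1, x.1) (y.2, x.2)

/-- The operator on the strands oriented downwards: the rotation by a half turn. -/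
def DDb (B : Matrix (I2 n N) (I2 n N) ℂ) : Matrix (I2 n N) (I2 n N) ℂ :=
  fun x y => B (y.2, y.1) (x.2, x.1)

/-- The flip. -/
noncomputable def Sm (q : ℂ) (n N : ℕ) : Matrix (I2 n N) (I2 n N) ℂ := fun x z =>
  if z = (x.2.rev, x.1.rev) then (wt q x.1.val)⁻¹ else 0

/-- The inverse of the flip. -/
noncomputable def Si (q : ℂ) (n N : ℕ) : Matrix (I2 n N) (I2 n N) ℂ := fun z y =>
  if z = (y.2.rev, y.1.rev) then wt q y.1.val else 0

/-- The half twist of antiparallel strands, followed by the flip and normalized such that its square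
is `1`. -/
noncomputable def Uh (q : ℂ) (n N : ℕ) : Matrix (I2 n N) (I2 n N) ℂ :=
  Ym q n N (-1) * Oh q n N (fun X => (-1) ^ X * q ^ ((N : ℤ) * ((N : ℤ) + n - 1) -
    (X : ℤ) * ((X : ℤ) + n - 1)))

/-- The operators on antiparallel strands, from strands with the directions `l`, `!l` to strands with
the directions `l'`, `!l'`. -/
noncomputable def MA (q : ℂ) (n N : ℕ) (l l' : Bool) (f : ℕ → ℂ) : Matrix (I2 n N) (I2 n N) ℂ :=
  (if l' then 1 else Sm q n N) * ((if l = l' then 1 else Uh q n N) * Oh q n N f) *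
    (if l then 1 else Si q n N)

/-- The diagram `w` acts on the strands `i`, `i + 1` as `f` of the channel. If `P` is true, the two
strands have the direction `l` below and `l'` above, otherwise the directions `l`, `!l` below and
`l'`, `!l'` above. -/
def ActsT (q : ℂ) (n N : ℕ) (w : List Piece) (i : ℕ) (P l l' : Bool) (f : ℕ → ℂ) : Prop :=
  if P then l = l' ∧ ∃ M, IsP q n N f M ∧ Acts q w i (if l then M else DDb M)
  else Acts q w i (MA q n N l l' f)

/-- The eigenvalue of a half twist, `pos` for `p = true` (in the unoriented diagram). -/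
noncomputable def hw (q : ℂ) (n N : ℕ) (p P : Bool) (X : ℕ) : ℂ :=
  if P then
    (q ^ ((N : ℤ) * ((N : ℤ) + n - 1)) * (ka q n N)⁻¹ * twS q X) ^ (if p then (1 : ℤ) else -1)
  else (q ^ (-((N : ℤ) * ((N : ℤ) + n - 1))) * twA q n X) ^ (if p then (1 : ℤ) else -1)

/-- The transform of the function of a child of type `pc` at a node of type `pv`. -/
noncomputable def kerF (q : ℂ) (n N : ℕ) (a : ℤ) (pv pc : Bool) (f : ℕ → ℂ) (X : ℕ) : ℂ :=
  if pv then Rt n q N a f X else if pc then Ro n q N a f X else Ph q n N f X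

variable {m : ℕ}

/-- The eigenvalues of the tangle of a subtree. -/
noncomputable def fT (q : ℂ) (n N : ℕ) (a : ℤ) (par : Fin m → Fin (m + 1))
    (P : Fin (m + 1) → Bool) (b : Fin (m + 1) → ℤ) : ℕ → Fin (m + 1) → ℕ → ℂ
  | 0, _, _ => 1
  | k + 1, v, X => hw q n N true (P v) X ^ b v *
      ∏ j ∈ Finset.univ.filter (fun j => par j = v),
        kerF q n N a (P v) (P j.succ) (fT q n N a par P b k j.succ) X

end Pool.Agent.OR
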