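import Pool.Agent.OR.A.Uh

/-! # The rotation of the operators `E ^ k F ^ k / [k]! ^ 2` -/

namespace Pool.Agent.OR

open Pool.Agent.H63.VC7 Pool.Agent.H63.VC8 Pool.Agent.H63.VC11 Pool.Agent.S4 Matrix

variable {n N : ℕ} {q : ℂ} {a : ℤ} {f g : ℕ → ℂ} {M M' : Matrix (I2 n N) (I2 n N) ℂ}

/-- The entries of `Lm`. -/
theorem Lm_KK (hg : Gen q n N) (hn : 2 ≤ n) (k : ℕ) (x y : I2 n N) :
    Lm q n N k x y = KK q k x.1.val x.2.val y.1.val y.2.val /
      (gf q y.1.val * gf q y.2.val * qf q k ^ 2) := by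
  have hn1 : 1 ≤ n := by omega
  have h1 := hg.gf_ne hn1 (by omega : N ≤ 4 * N + 2 * n) y.1
  have h2 := hg.gf_ne hn1 (by omega : N ≤ 4 * N + 2 * n) y.2
  rw [← KE_KK q hg.1 (hg.br_one hn1) k _ _ _ _ (y.1.sum.trans y.2.sum.symm)]
  unfold Lm KE
  have h3 : mon q y.1.val y.2.val = (gf q y.1.val * gf q y.2.val) •
      (fun p => if p = (y.1.val, y.2.val) then (1 : ℂ) else 0) := by
    funext p
    unfold mon
    rw [Pi.smul_apply, smul_eq_mul]
    split_ifs <;> simp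
  rw [h3, map_smul, map_smul, Pi.smul_apply, smul_eq_mul,
    mul_div_mul_left _ _ (mul_ne_zero h1 h2), Fo_pow, Eo_pow]

theorem Yb_Lm (hg : Gen q n N) (hn : 2 ≤ n) {k : ℕ} (hk : k ≤ N) :
    Yb q (Lm q n N k) = Uh q n N * Oh q n N (wk q n N k) := by
  have hn1 : 1 ≤ n := by omega
  have hf := hg.qf_ne hn1 (by omega : k ≤ 4 * N + 2 * n)
  have h1 := An.Yk_Wh hg hn hk
  rw [Wh_Uh hg hn] at h1
  have h2 : Yb q (Lm q n N k) = (qf q k ^ 2)⁻¹ • Yk q n N k := by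
    ext x y
    rw [Matrix.smul_apply, smul_eq_mul]
    unfold Yb Yk
    rw [Lm_KK hg hn]
    simp only [Vn.rev_val]
    have h3 : gf q (fun i => x.2.val i.rev) = gf q x.2.val := by
      unfold gf
      exact Equiv.prod_comp Fin.revPerm (fun i => qf q (x.2.val i))
    rw [h3]
    have h4 := hg.gf_ne hn1 (by omega : N ≤ 4 * N + 2 * n) x.2
    have h5 := hg.gf_ne hn1 (by omega : N ≤ 4 * N + 2 * n) y.1
    field_simp
  rw [h2, h1, smul_smul, inv_mul_cancel₀ (pow_ne_zero 2 hf), one_smul]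

end Pool.Agent.OR
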