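import Pool.Agent.OR.A.Uh
import Pool.Agent.OR.A.YW
import Pool.Agent.OR.R.RT

/-! # The flip -/

namespace Pool.Agent.OR

open Pool.Agent.H63.VC7 Pool.Agent.H63.VC8 Pool.Agent.H63.VC11 Pool.Agent.S4 Matrix

variable {n N : ℕ} {q : ℂ} {a : ℤ} {f g : ℕ → ℂ} {M M' : Matrix (I2 n N) (I2 n N) ℂ}

private theorem Flip_Sm_mul {p : Type*} (A : Matrix (I2 n N) p ℂ) (x : I2 n N) (y : p) :
    (Sm q n N * A) x y = (wt q x.1.val)⁻¹ * A (x.2.rev, x.1.rev) y := by
  rw [Matrix.mul_apply]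
  simp only [Sm, ite_mul, zero_mul]
  rw [Finset.sum_ite_eq', if_pos (Finset.mem_univ _)]

private theorem Flip_mul_Si {p : Type*} (A : Matrix p (I2 n N) ℂ) (x : p) (y : I2 n N) :
    (A * Si q n N) x y = A x (y.2.rev, y.1.rev) * wt q y.1.val := by
  rw [Matrix.mul_apply]
  simp only [Si, mul_ite, mul_zero]
  rw [Finset.sum_ite_eq', if_pos (Finset.mem_univ _)]

theorem flipM_eq (X : Matrix (I2 n N) (I2 n N) ℂ) : flipM q X = Sm q n N * X * Si q n N := by
  ext x y
  rw [Flip_mul_Si, Flip_Sm_mul]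
  unfold flipM
  ring

theorem Sm_Si (hq : q ≠ 0) : Sm q n N * Si q n N = 1 := by
  have h := flipM_eq (q := q) (1 : Matrix (I2 n N) (I2 n N) ℂ)
  rw [flipM_one q hq, Matrix.mul_one] at h
  exact h.symm

theorem Si_Sm (hq : q ≠ 0) : Si q n N * Sm q n N = 1 :=
  mul_eq_one_comm.1 (Sm_Si hq)

theorem X1b_eq (B : Matrix (I2 n N) (I2 n N) ℂ) : X1b q B = Sm q n N * Yb q B := by
  ext x y
  rw [Flip_Sm_mul]
  simp only [X1b, Yb, Vn.rev_rev]
  ring

/-! ### The symmetry of `Lm` -/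

/-- the reversal of functions of two indices -/
private def Flip_T (ψ : Fn2 n) : Fn2 n := fun x => ψ (fun i => x.2 i.rev, fun i => x.1 i.rev)

private theorem Flip_rev_sub (a : Fin n → ℕ) (i : Fin n) :
    (fun j : Fin n => (a - Pi.single i 1 : Fin n → ℕ) j.rev) =
      (fun j => a j.rev) - Pi.single i.rev 1 := by
  funext j
  simp only [Pi.sub_apply, ← rev_single]

private theorem Flip_rev_add (a : Fin n → ℕ) (i : Fin n) :
    (fun j : Fin n => (a + Pi.single i 1 : Fin n → ℕ) j.rev) =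
      (fun j => a j.rev) + Pi.single i.rev 1 := by
  funext j
  simp only [Pi.add_apply, ← rev_single]

private theorem Flip_TE (q : ℂ) (ψ : Fn2 n) : Flip_T (Eo q n ψ) = Fo q n (Flip_T ψ) := by
  funext x
  rw [Eo_apply, Fo_apply]
  unfold Flip_T opE opF
  rw [← Equiv.sum_comp Fin.revPerm]
  refine Finset.sum_congr rfl fun i _ => ?_
  simp only [Fin.revPerm_apply, hi_rev, Fin.rev_rev, Flip_rev_sub, Flip_rev_add]

private theorem Flip_TF (q : ℂ) (ψ : Fn2 n) : Flip_T (Fo q n ψ) = Eo q n (Flip_T ψ) := by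
  funext x
  rw [Eo_apply, Fo_apply]
  unfold Flip_T opE opF
  rw [← Equiv.sum_comp Fin.revPerm]
  refine Finset.sum_congr rfl fun i _ => ?_
  simp only [Fin.revPerm_apply, lo_rev, Fin.rev_rev, Flip_rev_sub, Flip_rev_add]

private theorem Flip_TEk (q : ℂ) (k : ℕ) (ψ : Fn2 n) :
    Flip_T ((Eo q n ^ k) ψ) = (Fo q n ^ k) (Flip_T ψ) := by
  induction k with
  | zero => simp
  | succ k ih =>
    rw [pow_succ', pow_succ', Module.End.mul_apply, Module.End.mul_apply, Flip_TE, ih]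

private theorem Flip_TFk (q : ℂ) (k : ℕ) (ψ : Fn2 n) :
    Flip_T ((Fo q n ^ k) ψ) = (Eo q n ^ k) (Flip_T ψ) := by
  induction k with
  | zero => simp
  | succ k ih =>
    rw [pow_succ', pow_succ', Module.End.mul_apply, Module.End.mul_apply, Flip_TF, ih]

/-- the basis vectors -/
private def Flip_d (b a : Fin n → ℕ) : Fn2 n := fun p => if p = (b, a) then 1 else 0

private theorem Flip_rev_inj (a b : Fin n → ℕ) :
    (fun i : Fin n => a i.rev) = (fun i => b i.rev) ↔ a = b := by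
  constructor
  · intro h
    funext i
    have := congrFun h i.rev
    simpa using this
  · rintro rfl
    rfl

private theorem Flip_Td (b a : Fin n → ℕ) :
    Flip_T (Flip_d (fun i => a i.rev) (fun i => b i.rev)) = Flip_d b a := by
  funext x
  unfold Flip_T Flip_d
  have h : ((fun i => x.2 i.rev, fun i => x.1 i.rev) : (Fin n → ℕ) × (Fin n → ℕ)) =
      (fun i => a i.rev, fun i => b i.rev) ↔ x = (b, a) := by
    rw [Prod.mk.injEq, Flip_rev_inj, Flip_rev_inj, Prod.ext_iff]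
    exact and_comm
  by_cases h1 : x = (b, a)
  · rw [if_pos h1, if_pos (h.2 h1)]
  · rw [if_neg h1, if_neg fun h2 => h1 (h.1 h2)]

private theorem Flip_HomD (b a : Fin n → ℕ) :
    HomD ((∑ i, b i : ℕ) : ℤ) ((∑ i, a i : ℕ) : ℤ) (Flip_d b a) := by
  intro x hx
  unfold Flip_d at hx
  split_ifs at hx with h
  · subst h
    exact ⟨rfl, rfl⟩
  · exact absurd rfl hx

private theorem Flip_Lm_eq (k : ℕ) (x y : I2 n N) : Lm q n N k x y =
    (Eo q n ^ k) ((Fo q n ^ k) (Flip_d y.1.val y.2.val)) (x.1.val, x.2.val) / qf q k ^ 2 := by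
  rw [Eo_pow, Fo_pow]
  rfl

/-- The symmetry of `Lm`. -/
theorem Lm_flip (hq : q ≠ 0) (h1 : br q 1 ≠ 0) (k : ℕ) (c d b a : Vn n N) :
    Lm q n N k (c, d) (b, a) = Lm q n N k (d.rev, c.rev) (a.rev, b.rev) := by
  rw [Flip_Lm_eq, Flip_Lm_eq]
  congr 1
  have h := Flip_HomD b.val a.val
  rw [b.sum, a.sum] at h
  have h2 : Flip_T ((Eo q n ^ k) ((Fo q n ^ k) (Flip_d (fun i => a.val i.rev)
      (fun i => b.val i.rev)))) = (Fo q n ^ k) ((Eo q n ^ k) (Flip_d b.val a.val)) := by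
    rw [Flip_TEk, Flip_TFk, Flip_Td]
  rw [EF_eq_FE q hq h1 h k, ← h2]
  rfl

theorem X2b_Lm (hg : Gen q n N) (hn : 2 ≤ n) {k : ℕ} (_hk : k ≤ N) :
    X2b (Lm q n N k) = Yb q (Lm q n N k) * Si q n N := by
  ext x y
  rw [Flip_mul_Si]
  simp only [X2b, Yb]
  rw [Lm_flip hg.1 (hg.br_one (by omega)), Vn.rev_val, wt_rev]
  have h := wt_ne hg.1 y.1.val
  field_simp

/-! ### The rotations of the operators on parallel strands -/

private theorem Flip_Yb_sum (hg : Gen q n N) (hn : 2 ≤ n) (c : ℕ → ℂ) :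
    Yb q (∑ k ∈ Finset.range (N + 1), c k • Lm q n N k) =
      Uh q n N * Oh q n N (fun X => ∑ k ∈ Finset.range (N + 1), c k * wk q n N k X) := by
  have h1 : Yb q (∑ k ∈ Finset.range (N + 1), c k • Lm q n N k) =
      ∑ k ∈ Finset.range (N + 1), c k • Yb q (Lm q n N k) := by
    ext x y
    simp only [Yb, Matrix.sum_apply, Matrix.smul_apply, smul_eq_mul, Finset.mul_sum]
    refine Finset.sum_congr rfl fun k _ => ?_
    ring
  rw [h1, Oh_sum, Finset.mul_sum]
  refine Finset.sum_congr rfl fun k hk => ?_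
  rw [Yb_Lm hg hn (by simpa [Nat.lt_succ_iff] using hk), Oh_smul, Matrix.mul_smul]

private theorem Flip_Ro (hg : Gen q n N) (hn : 2 ≤ n) (ha : IsA n N a) {c : ℕ → ℂ}
    (hf : ∀ j ≤ N, f j = ∑ k ∈ Finset.range (N + 1), c k * LE q k j) :
    Oh q n N (fun X => ∑ k ∈ Finset.range (N + 1), c k * wk q n N k X) =
      Oh q n N (Ro n q N a f) := by
  refine Oh_congr q N _ _ fun X hX => ?_
  rw [Ro_congr hf, Ro_sum]
  refine Finset.sum_congr rfl fun k hk => ?_
  rw [Ro_LE hg hn ha (by simpa [Nat.lt_succ_iff] using hk) hX]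

theorem IsP.X1 (hg : Gen q n N) (hn : 2 ≤ n) (ha : IsA n N a) (h : IsP q n N f M) :
    X1b q M = MA q n N true false (Ro n q N a f) := by
  obtain ⟨c, rfl, hf⟩ := h
  rw [X1b_eq, Flip_Yb_sum hg hn, Flip_Ro hg hn ha hf]
  simp [MA]

theorem IsP.X2 (hg : Gen q n N) (hn : 2 ≤ n) (ha : IsA n N a) (h : IsP q n N f M) :
    X2b M = MA q n N false true (Ro n q N a f) := by
  obtain ⟨c, rfl, hf⟩ := h
  have h1 : X2b (∑ k ∈ Finset.range (N + 1), c k • Lm q n N k) =
      Yb q (∑ k ∈ Finset.range (N + 1), c k • Lm q n N k) * Si q n N := by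
    have h2 : X2b (∑ k ∈ Finset.range (N + 1), c k • Lm q n N k) =
        ∑ k ∈ Finset.range (N + 1), c k • X2b (Lm q n N k) := by
      ext x y
      simp only [X2b, Matrix.sum_apply, Matrix.smul_apply, smul_eq_mul]
    have h3 : Yb q (∑ k ∈ Finset.range (N + 1), c k • Lm q n N k) =
        ∑ k ∈ Finset.range (N + 1), c k • Yb q (Lm q n N k) := by
      ext x y
      simp only [Yb, Matrix.sum_apply, Matrix.smul_apply, smul_eq_mul, Finset.mul_sum]
      refine Finset.sum_congr rfl fun k _ => ?_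
      ring
    rw [h2, h3, Finset.sum_mul]
    refine Finset.sum_congr rfl fun k hk => ?_
    rw [X2b_Lm hg hn (by simpa [Nat.lt_succ_iff] using hk), Matrix.smul_mul]
  rw [h1, Flip_Yb_sum hg hn, Flip_Ro hg hn ha hf]
  simp [MA]

/-! ### The operators on antiparallel strands -/

theorem MA_mul (hg : Gen q n N) (hn : 2 ≤ n) (l l' l'' : Bool) (f g : ℕ → ℂ) :
    MA q n N l' l'' g * MA q n N l l' f = MA q n N l l'' (fun X => f X * g X) := by
  have h1 : (if l' then (1 : Matrix (I2 n N) (I2 n N) ℂ) else Si q n N) *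
      (if l' then 1 else Sm q n N) = 1 := by
    cases l'
    · simpa using Si_Sm hg.1
    · simp
  have h2 : ((if l' = l'' then (1 : Matrix (I2 n N) (I2 n N) ℂ) else Uh q n N) * Oh q n N g) *
      ((if l = l' then 1 else Uh q n N) * Oh q n N f) =
      (if l = l'' then 1 else Uh q n N) * Oh q n N (fun X => f X * g X) := by
    have h3 : Oh q n N g * Oh q n N f = Oh q n N (fun X => f X * g X) := by
      rw [Oh_mul q N hg (by omega)]
      refine Oh_congr q N _ _ fun X _ => mul_comm _ _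
    have h4 := Uh_Oh hg hn g
    have h5 := Uh_sq hg hn
    have h6 : Uh q n N * (Uh q n N * Oh q n N (fun X => f X * g X)) =
        Oh q n N (fun X => f X * g X) := by
      rw [← Matrix.mul_assoc, h5, Matrix.one_mul]
    cases l <;> cases l' <;> cases l'' <;>
      simp only [if_true, if_false, Bool.false_eq_true, Bool.true_eq_false, Matrix.one_mul,
        Matrix.mul_assoc, h3]
    · rw [← Matrix.mul_assoc (Oh q n N g), ← h4, Matrix.mul_assoc, h3, h6]
    · rw [← Matrix.mul_assoc (Oh q n N g), ← h4, Matrix.mul_assoc, h3]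
    · rw [← Matrix.mul_assoc (Oh q n N g), ← h4, Matrix.mul_assoc, h3]
    · rw [← Matrix.mul_assoc (Oh q n N g), ← h4, Matrix.mul_assoc, h3, h6]
  unfold MA
  rw [← h2]
  simp only [Matrix.mul_assoc]
  rw [← Matrix.mul_assoc (if l' then (1 : Matrix (I2 n N) (I2 n N) ℂ) else Si q n N)
    (if l' then 1 else Sm q n N), h1, Matrix.one_mul]

theorem MA_one (hg : Gen q n N) (_hn : 2 ≤ n) (l : Bool) : MA q n N l l (fun _ => 1) = 1 := by
  have h := Sm_Si (n := n) (N := N) hg.1
  unfold MA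
  rw [Oh_const, one_smul]
  cases l
  · simpa using h
  · simp

theorem MA_congr (l l' : Bool) (h : ∀ X ≤ N, f X = g X) : MA q n N l l' f = MA q n N l l' g := by
  unfold MA
  rw [Oh_congr q N f g h]

/-! ### The rotation by a half turn -/

private theorem Flip_CC (hq : q ≠ 0) (x : I2 n N) (y : I2 n (N + 1)) :
    CC q n N x y = wt q y.1.val * (wt q x.1.val)⁻¹ * DD q n N (y.2, y.1) (x.2, x.1) := by
  unfold CC DD
  rw [Finset.mul_sum]
  refine Finset.sum_congr rfl fun i _ => ?_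
  by_cases h : y.1 = x.1.add i ∧ y.2 = x.2.add i
  · rw [if_pos h, if_pos h.symm, h.1]
    have h1 : wt q (x.1.add i).val = wt q x.1.val * q ^ ((n : ℤ) - 1 - 2 * (i : ℕ)) :=
      wt_add hq x.1.val i
    have h2 := wt_ne hq x.1.val
    rw [h1]
    field_simp
  · rw [if_neg h, if_neg fun h' => h h'.symm, mul_zero]

private theorem Flip_DD (hq : q ≠ 0) (x : I2 n (N + 1)) (y : I2 n N) :
    DD q n N x y = wt q y.1.val * (wt q x.1.val)⁻¹ * CC q n N (y.2, y.1) (x.2, x.1) := by
  unfold CC DD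
  rw [Finset.mul_sum]
  refine Finset.sum_congr rfl fun i _ => ?_
  by_cases h : x.1 = y.1.add i ∧ x.2 = y.2.add i
  · rw [if_pos h, if_pos h.symm, h.1]
    have h1 : wt q (y.1.add i).val = wt q y.1.val * q ^ ((n : ℤ) - 1 - 2 * (i : ℕ)) :=
      wt_add hq y.1.val i
    have h2 := wt_ne hq y.1.val
    have h3 : q ^ ((n : ℤ) - 1 - 2 * (i : ℕ)) ≠ 0 := zpow_ne_zero _ hq
    rw [h1]
    field_simp
  · rw [if_neg h, if_neg fun h' => h h'.symm, mul_zero]

/-- Invariance under the rotation by a half turn. -/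
theorem Oh_half (hq : q ≠ 0) (f : ℕ → ℂ) (x y : I2 n N) :
    Oh q n N f x y = wt q y.1.val * (wt q x.1.val)⁻¹ * Oh q n N f (y.2, y.1) (x.2, x.1) := by
  have h1 : ∀ (c : ℂ) (N : ℕ) (x y : I2 n N), (c • (1 : Matrix (I2 n N) (I2 n N) ℂ)) x y =
      wt q y.1.val * (wt q x.1.val)⁻¹ *
        (c • (1 : Matrix (I2 n N) (I2 n N) ℂ)) (y.2, y.1) (x.2, x.1) := by
    intro c N x y
    have hx := wt_ne hq x.1.val
    simp only [Matrix.smul_apply, Matrix.one_apply, smul_eq_mul]
    by_cases h : x = y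
    · subst h
      rw [if_pos rfl, if_pos rfl, mul_inv_cancel₀ hx, one_mul]
    · rw [if_neg h, if_neg, mul_zero, mul_zero]
      intro h'
      apply h
      have h2 := congrArg Prod.fst h'
      have h3 := congrArg Prod.snd h'
      simp only at h2 h3
      exact Prod.ext h3.symm h2.symm
  induction N generalizing f with
  | zero => exact h1 _ _ _ _
  | succ N ih =>
    simp only [Oh]
    rw [Matrix.add_apply, Matrix.add_apply, h1 (f (N + 1)) (N + 1) x y, mul_add]
    congr 1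
    rw [Matrix.mul_apply, Matrix.mul_apply, Finset.mul_sum]
    simp only [Matrix.mul_apply, Finset.sum_mul, Finset.mul_sum]
    rw [Finset.sum_comm, ← Equiv.sum_comp (Equiv.prodComm (Vn n N) (Vn n N))]
    refine Finset.sum_congr rfl fun z _ => ?_
    rw [← Equiv.sum_comp (Equiv.prodComm (Vn n N) (Vn n N))]
    refine Finset.sum_congr rfl fun w _ => ?_
    obtain ⟨z1, z2⟩ := z
    obtain ⟨w1, w2⟩ := w
    simp only [Equiv.prodComm_apply, Prod.swap_prod_mk]
    rw [Flip_DD hq x, Flip_CC hq _ y, ih]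
    have hz1 := wt_ne hq z1.val
    have hz2 := wt_ne hq z2.val
    have hw1 := wt_ne hq w1.val
    have hw2 := wt_ne hq w2.val
    simp only
    field_simp

end Pool.Agent.OR
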