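import Pool.Agent.OR.A.Defs

/-! # The rotation by a quarter turn, all orientations -/

namespace Pool.Agent.OR

open Pool.Agent.H63.VC7 Pool.Agent.H63.VC8 Pool.Agent.H63.VC11 Matrix

variable {n N : ℕ} {q : ℂ}

/-- The factor of a minimum. -/
noncomputable def kc (q : ℂ) (l : Bool) (a : Fin n → ℕ) : ℂ := if l then 1 else (wt q a)⁻¹

/-- The factor of a maximum. -/
noncomputable def lc (q : ℂ) (l : Bool) (a : Fin n → ℕ) : ℂ := if l then wt q a else 1

/-- The rotation by a quarter turn on matrices. -/
noncomputable def rotB (q : ℂ) (c d : Bool) (B : Matrix (I2 n N) (I2 n N) ℂ) :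
    Matrix (I2 n N) (I2 n N) ℂ :=
  fun x y => kc q c x.1.val * lc q d y.2.val * B (x.2, y.2) (x.1, y.1)

theorem act_cup (l : Bool) (i : ℕ) (ψ : List (Fin n → ℕ) → ℂ) (p r : List (Fin n → ℕ))
    (a b : Fin n → ℕ) (hp : p.length = i) :
    act q n N (cup l i) ψ (p ++ a :: b :: r) =
      if a = b ∧ ∑ j, a j = N then kc q l a * ψ (p ++ r) else 0 := by
  cases l
  · simp only [cup, kc, Bool.false_eq_true, if_false, act, List.drop_left' hp,
      List.take_left' hp]
  · simp only [cup, kc, if_true, act, List.drop_left' hp, List.take_left' hp, one_mul]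

theorem act_cap (l : Bool) (i : ℕ) (ψ : List (Fin n → ℕ) → ℂ) (p r : List (Fin n → ℕ))
    (hp : p.length = i) :
    act q n N (cap l i) ψ (p ++ r) =
      ∑ a : Vn n N, lc q l a.val * ψ (p ++ a.val :: a.val :: r) := by
  cases l
  · simp only [cap, lc, Bool.false_eq_true, if_false, act, List.drop_left' hp,
      List.take_left' hp, sum_Vn, one_mul]
  · simp only [cap, lc, if_true, act, List.drop_left' hp, List.take_left' hp, sum_Vn]

/-- The rotation by a quarter turn. -/
theorem Acts_rot {i : ℕ} {w : List Piece} {B : Matrix (I2 n N) (I2 n N) ℂ} (c d : Bool)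
    (h : Acts q w (i + 1) B) :
    Acts q (cup c i :: (w ++ [cap d (i + 2)])) i (rotB q c d B) := by
  intro ψ p s x hp
  have e1 : eval q n N (cup c i :: (w ++ [cap d (i + 2)])) ψ =
      act q n N (cap d (i + 2)) (eval q n N w (act q n N (cup c i) ψ)) := by
    change eval q n N (w ++ [cap d (i + 2)]) (act q n N (cup c i) ψ) = _
    rw [eval_append]
    rfl
  rw [e1]
  have hl : p ++ x.1.val :: x.2.val :: s = (p ++ [x.1.val, x.2.val]) ++ s := by simp
  have hlen : (p ++ [x.1.val, x.2.val]).length = i + 2 := by simp [hp]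
  rw [hl, act_cap d (i + 2) _ _ _ hlen]
  have key : ∀ a : Vn n N, eval q n N w (act q n N (cup c i) ψ)
      (p ++ [x.1.val, x.2.val] ++ a.val :: a.val :: s) =
      ∑ z : Vn n N, B (x.2, a) (x.1, z) * (kc q c x.1.val * ψ (p ++ z.val :: a.val :: s)) := by
    intro a
    have e2 : p ++ [x.1.val, x.2.val] ++ a.val :: a.val :: s =
        (p ++ [x.1.val]) ++ ((x.2, a) : I2 n N).1.val :: ((x.2, a) : I2 n N).2.val ::
          a.val :: s := by simp
    rw [e2, h (act q n N (cup c i) ψ) (p ++ [x.1.val]) (a.val :: s) (x.2, a) (by simp [hp]),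
      Fintype.sum_prod_type, Finset.sum_eq_single x.1]
    · refine Finset.sum_congr rfl fun z _ => ?_
      congr 1
      have e3 : (p ++ [x.1.val]) ++ ((x.1, z) : I2 n N).1.val :: ((x.1, z) : I2 n N).2.val ::
          a.val :: s = p ++ x.1.val :: x.1.val :: (z.val :: a.val :: s) := by simp
      rw [e3, act_cup c i _ _ _ _ _ hp, if_pos ⟨rfl, x.1.sum⟩]
    · intro b _ hb
      refine Finset.sum_eq_zero fun z _ => ?_
      have e3 : (p ++ [x.1.val]) ++ ((b, z) : I2 n N).1.val :: ((b, z) : I2 n N).2.val ::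
          a.val :: s = p ++ x.1.val :: b.val :: (z.val :: a.val :: s) := by simp
      rw [e3, act_cup c i _ _ _ _ _ hp, if_neg, mul_zero]
      rintro ⟨hc, _⟩
      exact hb (Vn.ext hc).symm
    · intro hne
      exact absurd (Finset.mem_univ _) hne
  simp only [key, Fintype.sum_prod_type, rotB]
  simp only [Finset.mul_sum]
  rw [Finset.sum_comm]
  refine Finset.sum_congr rfl fun y _ => ?_
  refine Finset.sum_congr rfl fun z _ => ?_
  ring

theorem rotB_true_true (B : Matrix (I2 n N) (I2 n N) ℂ) : rotB q true true B = rotU q B := by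
  funext x y
  simp only [rotB, kc, lc, if_true, rotU, one_mul]

theorem rotB_false_true (B : Matrix (I2 n N) (I2 n N) ℂ) : rotB q false true B = X1b q B := by
  funext x y
  simp only [rotB, kc, lc, if_true, Bool.false_eq_true, if_false, X1b]

theorem rotB_true_false (B : Matrix (I2 n N) (I2 n N) ℂ) :
    rotB q true false B = fun x y => B (x.2, y.2) (x.1, y.1) := by
  funext x y
  simp only [rotB, kc, lc, if_true, Bool.false_eq_true, if_false, one_mul]

theorem rotB_false_false (B : Matrix (I2 n N) (I2 n N) ℂ) :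
    rotB q false false B = fun x y => (wt q x.1.val)⁻¹ * B (x.2, y.2) (x.1, y.1) := by
  funext x y
  simp only [rotB, kc, lc, Bool.false_eq_true, if_false, mul_one]

/-- The crossing of two strands oriented downwards. -/
theorem Acts_half {i : ℕ} {w : List Piece} {B : Matrix (I2 n N) (I2 n N) ℂ}
    (h : Acts q w (i + 2) B) :
    Acts q (Piece.cupDU i :: (Piece.cupDU (i + 1) :: (w ++ [Piece.capUD (i + 3)]) ++
      [Piece.capUD (i + 2)])) i (fun x y => (wt q x.1.val)⁻¹ * (wt q x.2.val)⁻¹ *
        wt q y.1.val * wt q y.2.val * B (y.2, y.1) (x.2, x.1)) := by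
  have h1 := Acts_rot (q := q) false true (Acts_rot (q := q) (i := i + 1) false true h)
  have h2 : rotB q false true (rotB q false true B) =
      fun x y => (wt q x.1.val)⁻¹ * (wt q x.2.val)⁻¹ * wt q y.1.val * wt q y.2.val *
        B (y.2, y.1) (x.2, x.1) := by
    funext x y
    rw [rotB_false_true, rotB_false_true]
    simp only [X1b]
    ring
  rw [h2] at h1
  exact h1

end Pool.Agent.OR
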