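import Pool.Agent.OR.A.Defs

/-! # The sum over the channels of a tree as a recursion -/

namespace Pool.Agent.OR

open Pool.Agent.H63.VC7 Pool.Agent.H63.VC8 Pool.Agent.H63.VC11 Pool.Agent.S4

variable {m : ℕ}

/-- The sum over the channels of the subtree at a node, given the channel of the node; the first
argument is a bound for the height. -/
noncomputable def GT (n : ℕ) (q : ℂ) (N : ℕ) (a : ℤ) (par : Fin m → Fin (m + 1))
    (P : Fin (m + 1) → Bool) (w : Fin (m + 1) → ℕ → ℂ) : ℕ → Fin (m + 1) → ℕ → ℂ
  | 0, _, _ => 1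
  | k + 1, v, x => w v x * ∏ j ∈ Finset.univ.filter (fun j => par j = v),
      TL n q N a (P v) (P j.succ) (GT n q N a par P w k j.succ) x

theorem TL_congr {n : ℕ} {q : ℂ} {N : ℕ} {a : ℤ} {P P' : Bool} {w w' : ℕ → ℂ}
    (h : ∀ X ≤ N, w X = w' X) (X : ℕ) : TL n q N a P P' w X = TL n q N a P P' w' X := by
  unfold TL
  refine Finset.sum_congr rfl fun Z hZ => ?_
  rw [h Z (by have := Finset.mem_range.1 hZ; omega)]

/-- independence of the height bound -/
theorem GT_stable (n : ℕ) (q : ℂ) (N : ℕ) (a : ℤ) (par : Fin m → Fin (m + 1))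
    (hpar : ∀ j, par j ≤ j.castSucc) (P : Fin (m + 1) → Bool) (w : Fin (m + 1) → ℕ → ℂ) (k : ℕ) :
    ∀ (v : Fin (m + 1)) (x : ℕ), m + 1 ≤ (v : ℕ) + k →
      GT n q N a par P w (k + 1) v x = GT n q N a par P w k v x := by
  induction k with
  | zero =>
    intro v x h
    have := v.isLt
    omega
  | succ k ih =>
    intro v x h
    rw [GT, GT]
    congr 1
    refine Finset.prod_congr rfl fun j hj => ?_
    refine TL_congr (fun y _ => ?_) x
    rw [ih j.succ y]
    have h1 : par j = v := (Finset.mem_filter.1 hj).2
    have h2 := hpar j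
    rw [h1, Fin.le_def] at h2
    simp only [Fin.val_castSucc] at h2
    rw [Fin.val_succ]
    omega

/-- the last node is a leaf -/
theorem GT_last (n : ℕ) (q : ℂ) (N : ℕ) (a : ℤ) (par : Fin m → Fin (m + 1))
    (hpar : ∀ j, par j ≤ j.castSucc) (P : Fin (m + 1) → Bool) (w : Fin (m + 1) → ℕ → ℂ) (k : ℕ)
    (hk : 1 ≤ k) (y : ℕ) : GT n q N a par P w k (Fin.last m) y = w (Fin.last m) y := by
  obtain ⟨k, rfl⟩ : ∃ k', k = k' + 1 := ⟨k - 1, by omega⟩
  rw [GT]
  have : Finset.univ.filter (fun j : Fin m => par j = Fin.last m) = ∅ := by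
    rw [Finset.filter_eq_empty_iff]
    intro j _ h
    have h2 := hpar j
    rw [h, Fin.le_def] at h2
    simp only [Fin.val_castSucc, Fin.val_last] at h2
    have := j.isLt
    omega
  rw [this]
  simp

/-- removing the last node -/
theorem GT_remove (n : ℕ) (q : ℂ) (N : ℕ) (a : ℤ) (par : Fin (m + 1) → Fin (m + 2))
    (hpar : ∀ j, par j ≤ j.castSucc) (P : Fin (m + 2) → Bool) (w : Fin (m + 2) → ℕ → ℂ) (k : ℕ) :
    ∀ (v : Fin (m + 1)) (x : ℕ), m + 2 ≤ (v : ℕ) + k →
      GT n q N a par P w k v.castSucc x = GT n q N a (parI par hpar) (fun i => P i.castSucc)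
        (fun i X => w i.castSucc X * (if i = parL par hpar then
          TL n q N a (P (parL par hpar).castSucc) (P (Fin.last (m + 1))) (w (Fin.last (m + 1))) X
          else 1)) k v x := by
  induction k with
  | zero =>
    intro v x h
    have := v.isLt
    omega
  | succ k ih =>
    intro v x h
    rw [GT, GT, Finset.prod_filter, Finset.prod_filter, Fin.prod_univ_castSucc]
    have h1 : ∀ j : Fin m, (if par j.castSucc = v.castSucc then
        TL n q N a (P v.castSucc) (P j.castSucc.succ) (GT n q N a par P w k j.castSucc.succ) x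
          else 1) =
        if parI par hpar j = v then TL n q N a (P v.castSucc) (P j.succ.castSucc)
          (GT n q N a (parI par hpar) (fun i => P i.castSucc)
        (fun i X => w i.castSucc X * (if i = parL par hpar then
          TL n q N a (P (parL par hpar).castSucc) (P (Fin.last (m + 1))) (w (Fin.last (m + 1))) X
          else 1)) k j.succ) x else 1 := by
      intro j
      rw [← castSucc_parI par hpar j]
      by_cases hj : parI par hpar j = v
      · rw [if_pos (by rw [hj]), if_pos hj, Fin.succ_castSucc]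
        refine TL_congr (fun y _ => ?_) x
        rw [ih j.succ y]
        have h2 := parI_le par hpar j
        rw [hj, Fin.le_def] at h2
        simp only [Fin.val_castSucc] at h2
        rw [Fin.val_succ]
        omega
      · rw [if_neg (fun h3 => hj (Fin.castSucc_injective _ h3)), if_neg hj]
    have h2 : (if par (Fin.last m) = v.castSucc then
        TL n q N a (P v.castSucc) (P (Fin.last m).succ) (GT n q N a par P w k (Fin.last m).succ) x
          else 1) =
        if v = parL par hpar then TL n q N a (P (parL par hpar).castSucc) (P (Fin.last (m + 1)))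
          (w (Fin.last (m + 1))) x else 1 := by
      rw [← castSucc_parL par hpar]
      by_cases hj : parL par hpar = v
      · rw [if_pos (by rw [hj]), if_pos hj.symm, Fin.succ_last, hj]
        refine TL_congr (fun y _ => ?_) x
        rw [GT_last n q N a par hpar P w k]
        have := v.isLt
        omega
      · rw [if_neg (fun h3 => hj (Fin.castSucc_injective _ h3)), if_neg (fun h3 => hj h3.symm)]
    rw [Finset.prod_congr rfl fun j _ => h1 j, h2]
    ring

theorem GT_eq (n : ℕ) (q : ℂ) (N : ℕ) (a : ℤ) (m : ℕ) (par : Fin m → Fin (m + 1))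
    (hpar : ∀ j, par j ≤ j.castSucc) (P : Fin (m + 1) → Bool) (w : Fin (m + 1) → ℕ → ℂ) :
    ∑ x ∈ Finset.range (N + 1), GT n q N a par P w (m + 1) 0 x = TS n q N a par P w := by
  induction m with
  | zero =>
    have h1 : ∀ x, GT n q N a par P w (0 + 1) 0 x = w 0 x := by
      intro x
      rw [GT]
      simp
    rw [Finset.sum_congr rfl fun x _ => h1 x]
    unfold TS
    simp only [Finset.univ_eq_empty, Finset.prod_empty, mul_one, Fin.prod_univ_succ]
    symm
    refine Finset.sum_nbij' (fun X : Fin 1 → ℕ => X 0) (fun x _ => x) ?_ ?_ ?_ ?_ ?_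
    · intro X hX
      rw [Fintype.mem_piFinset] at hX
      exact hX 0
    · intro x hx
      rw [Fintype.mem_piFinset]
      intro _
      exact hx
    · intro X _
      funext i
      have hi : i = (0 : Fin 1) := Fin.ext (by have := i.isLt; simp only [Fin.val_zero]; omega)
      rw [hi]
    · intro x _
      rfl
    · intro X _
      rfl
  | succ m ih =>
    rw [TS_succ n q N a par hpar P w, ← ih (parI par hpar) (parI_le par hpar)]
    refine Finset.sum_congr rfl fun x _ => ?_
    have h2 := GT_remove n q N a par hpar P w (m + 1 + 1) 0 x (by simp)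
    rw [Fin.castSucc_zero] at h2
    rw [h2]
    exact GT_stable n q N a (parI par hpar) (parI_le par hpar) _ _ (m + 1) 0 x (by simp)

end Pool.Agent.OR
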