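import Pool.Agent.OR.A.TSum
import Pool.Agent.OR.A.Acts
import Pool.Agent.OR.A.Close
import Pool.Agent.H63.VC11.PhEq11
import Pool.Agent.H63.VC11.Brac11

/-! # The invariants of the oriented diagrams of a tree -/

namespace Pool.Agent.OR

open Pool.Agent.H63
open Pool.Agent.H63.VC7 Pool.Agent.H63.VC8 Pool.Agent.H63.VC11 Pool.Agent.S4

variable {n N m : ℕ} {q : ℂ} {a : ℤ}

theorem ActsT_crs (hg : Gen q n N) (hn : 2 ≤ n) (p P : Bool) (i k : ℕ) :
    ∀ l : Bool, ActsT q n N (crs p k l (if P then l else !l) i) i P l
      (if P then l else (l ^^ decide (Odd k))) (fun X => hw q n N p P X ^ k) := by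
  induction k with
  | zero =>
    intro l
    have h := ActsT_nil hg hn i P l
    have h1 : (if P then l else (l ^^ decide (Odd 0))) = l := by cases P <;> simp
    rw [h1, crs]
    exact ActsT_congr h (fun X _ => pow_zero _)
  | succ k ih =>
    intro l
    have h1 := ActsT_cross hg hn p P l i
    have h2 := ih (if P then l else !l)
    have h3 : (if P then (if P then l else !l) else !(if P then l else !l)) = l := by
      cases P <;> cases l <;> rfl
    rw [h3] at h2
    have h4 : (if P then (if P then l else !l) else ((if P then l else !l) ^^ decide (Odd k))) =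
        if P then l else (l ^^ decide (Odd (k + 1))) := by
      cases P <;> cases l <;> by_cases hk : Odd k <;> simp [hk, Nat.odd_add_one]
    rw [h4] at h2
    rw [crs]
    refine ActsT_congr (ActsT_append hg hn h1 h2) fun X _ => ?_
    rw [pow_succ']

theorem hw_pow (P : Bool) (b : ℤ) (X : ℕ) :
    hw q n N (decide (0 < b)) P X ^ b.natAbs = hw q n N true P X ^ b := by
  by_cases hb : 0 < b
  · rw [decide_eq_true hb, ← zpow_natCast, Int.natAbs_of_nonneg hb.le]
  · have h1 : ((b.natAbs : ℕ) : ℤ) = -b := Int.ofNat_natAbs_of_nonpos (by omega)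
    rw [decide_eq_false hb, ← zpow_natCast, h1]
    unfold hw
    cases P <;>
      simp only [Bool.false_eq_true, if_false, if_true, zpow_one, zpow_neg_one, inv_zpow', neg_neg]

theorem ActsT_blks (hg : Gen q n N) (hn : 2 ≤ n) (ha : IsA n N a) (P : Fin (m + 1) → Bool)
    (T : Fin m → Bool → ℕ → List Piece) (pv : Bool) (F : Fin m → ℕ → ℂ) (i : ℕ)
    (js : List (Fin m)) :
    (∀ j ∈ js, ¬ (pv = true ∧ P j.succ = true)) →
    (∀ j ∈ js, ∀ l : Bool, ∀ i, ActsT q n N (T j (if P j.succ then l else !l) (i + 1)) (i + 1)
      (P j.succ) (if P j.succ then l else !l) (if P j.succ then l else if pv then l else !l)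
      (F j)) →
    ∀ l : Bool, ActsT q n N (blks P T pv js l i) i pv l
      (if pv then l else (l ^^ decide (Odd (js.countP fun j => P j.succ))))
      (fun X => (js.map fun j => kerF q n N a pv (P j.succ) (F j) X).prod) := by
  induction js with
  | nil =>
    intro _ _ l
    have h1 : (if pv then l else (l ^^ decide (Odd (([] : List (Fin m)).countP
        fun j => P j.succ)))) = l := by cases pv <;> simp
    rw [h1, blks]
    exact ActsT_congr (ActsT_nil hg hn i pv l) (fun X _ => by simp)
  | cons j js ih =>
    intro h1 h2 l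
    have h3 := ActsT_blk hg hn ha (h1 j List.mem_cons_self) (h2 j List.mem_cons_self l i)
    have h4 := ih (fun j' hj' => h1 j' (List.mem_cons_of_mem _ hj'))
      (fun j' hj' => h2 j' (List.mem_cons_of_mem _ hj')) (if pv then l else (l ^^ P j.succ))
    have h5 : (if pv then (if pv then l else (l ^^ P j.succ)) else
        ((if pv then l else (l ^^ P j.succ)) ^^ decide (Odd (js.countP fun j => P j.succ)))) =
        if pv then l else (l ^^ decide (Odd ((j :: js).countP fun j => P j.succ))) := by
      rw [List.countP_cons]
      cases pv <;> cases hj : P j.succ <;> cases l <;>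
        by_cases hk : Odd (js.countP fun j => P j.succ) <;> simp [hk, Nat.odd_add_one]
    rw [h5] at h4
    rw [blks]
    refine ActsT_congr (ActsT_append hg hn h3 h4) fun X _ => ?_
    rw [List.map_cons, List.prod_cons]

/-- The number of the children with parallel strands. -/
def nch (par : Fin m → Fin (m + 1)) (P : Fin (m + 1) → Bool) (v : Fin (m + 1)) : ℕ :=
  ((List.finRange m).filter (fun j => par j = v)).countP fun j => P j.succ

theorem nch_eq (par : Fin m → Fin (m + 1)) (P : Fin (m + 1) → Bool) (v : Fin (m + 1)) :
    nch par P v = (Finset.univ.filter fun j => par j = v ∧ P j.succ = true).card := by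
  unfold nch
  rw [List.countP_eq_length_filter, List.filter_filter]
  have h1 : (Finset.univ.filter fun j => par j = v ∧ P j.succ = true).card =
      ((List.finRange m).filter fun j => decide (par j = v ∧ P j.succ = true)).length := rfl
  rw [h1]
  congr 1
  refine List.filter_congr fun j _ => ?_
  cases P j.succ <;> by_cases h : par j = v <;> simp [h]

theorem snT_zero (par : Fin m → Fin (m + 1)) (P : Fin (m + 1) → Bool) (h : P 0 = false) :
    snT par P 0 = nch par P 0 := by
  rw [nch_eq]
  unfold snT ieT inc
  congr 1
  ext j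
  simp only [Finset.mem_filter, Finset.mem_univ, true_and, etT]
  constructor
  · rintro ⟨h1 | h1, h2⟩
    · rw [h1, h, Bool.false_or] at h2
      exact ⟨h1, h2⟩
    · exact absurd h1 (Fin.succ_ne_zero j)
  · rintro ⟨h1, h2⟩
    exact ⟨Or.inl h1, by rw [h1, h, h2]; rfl⟩

theorem snT_succ (par : Fin m → Fin (m + 1)) (hpar : ∀ j, par j ≤ j.castSucc)
    (P : Fin (m + 1) → Bool) (j : Fin m) (h : P j.succ = false) :
    snT par P j.succ = nch par P j.succ + if P (par j) then 1 else 0 := by
  rw [nch_eq]
  unfold snT ieT inc
  have h1 : (Finset.univ.filter fun j' => par j' = j.succ ∨ j'.succ = j.succ).filter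
      (fun j' => etT par P j' = true) =
      (Finset.univ.filter fun j' => par j' = j.succ ∧ P j'.succ = true) ∪
        (if P (par j) then {j} else ∅) := by
    ext j'
    simp only [Finset.mem_filter, Finset.mem_univ, true_and, etT, Finset.mem_union]
    constructor
    · rintro ⟨h1 | h1, h2⟩
      · rw [h1, h, Bool.false_or] at h2
        exact Or.inl ⟨h1, h2⟩
      · right
        have h3 : j' = j := Fin.succ_injective m h1
        subst h3
        rw [h, Bool.or_false] at h2
        rw [if_pos h2]
        exact Finset.mem_singleton_self _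
    · rintro (⟨h1, h2⟩ | h1)
      · exact ⟨Or.inl h1, by rw [h1, h, h2]; rfl⟩
      · by_cases h3 : P (par j) = true
        · rw [if_pos h3] at h1
          have h4 : j' = j := Finset.mem_singleton.1 h1
          subst h4
          exact ⟨Or.inr rfl, by rw [h3]; rfl⟩
        · rw [if_neg h3] at h1
          simp at h1
  rw [h1, Finset.card_union_of_disjoint]
  · congr 1
    by_cases h3 : P (par j) = true
    · rw [if_pos h3, if_pos h3, Finset.card_singleton]
    · rw [if_neg h3, if_neg h3, Finset.card_empty]
  · by_cases h3 : P (par j) = true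
    · rw [if_pos h3, Finset.disjoint_singleton_right]
      intro h4
      have h5 := (Finset.mem_filter.1 h4).2.1
      have h6 := hpar j
      rw [h5, Fin.le_def] at h6
      simp at h6
    · rw [if_neg h3]
      exact Finset.disjoint_empty_right _

/-- The direction of the upper end of the left strand of the tangle of a subtree. -/
theorem top_eq (par : Fin m → Fin (m + 1)) (hpar : ∀ j, par j ≤ j.castSucc)
    (P : Fin (m + 1) → Bool) (b : Fin (m + 1) → ℤ) (hA : Adm par P b) (j : Fin m) (l pv : Bool)
    (hv : P (par j) = pv) :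
    (if P j.succ then (if P j.succ then l else !l) else
      ((if P j.succ then l else !l) ^^ decide (Odd (b j.succ)) ^^
        decide (Odd (nch par P j.succ)))) =
      if P j.succ then l else if pv then l else !l := by
  cases h : P j.succ with
  | true => simp
  | false =>
    have h1 := hA.even j.succ h
    rw [snT_succ par hpar P j h, hv] at h1
    push_cast at h1
    rw [Int.even_add, Int.even_add, Int.even_coe_nat] at h1
    by_cases h2 : Odd (b j.succ) <;> by_cases h3 : Odd (nch par P j.succ) <;> cases l <;>
      cases pv <;> simp_all [← Int.not_odd_iff_even, ← Nat.not_odd_iff_even]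

theorem top_zero (par : Fin m → Fin (m + 1)) (P : Fin (m + 1) → Bool) (b : Fin (m + 1) → ℤ)
    (hA : Adm par P b) (l : Bool) :
    (if P 0 then l else ((l ^^ decide (Odd (b 0))) ^^ decide (Odd (nch par P 0)))) = l := by
  cases h : P 0 with
  | true => simp
  | false =>
    have h1 := hA.even 0 h
    rw [snT_zero par P h] at h1
    rw [Int.even_add, Int.even_coe_nat] at h1
    by_cases h2 : Odd (b 0) <;> by_cases h3 : Odd (nch par P 0) <;> cases l <;>
      simp_all [← Int.not_odd_iff_even, ← Nat.not_odd_iff_even]

theorem prod_filter_finRange (p : Fin m → Prop) [DecidablePred p] (f : Fin m → ℂ) :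
    (((List.finRange m).filter (fun j => p j)).map f).prod =
      ∏ j ∈ Finset.univ.filter (fun j => p j), f j := by
  rfl

/-- The tangle of a subtree. -/
theorem ActsT_otan (hg : Gen q n N) (hn : 2 ≤ n) (ha : IsA n N a) (par : Fin m → Fin (m + 1))
    (hpar : ∀ j, par j ≤ j.castSucc) (P : Fin (m + 1) → Bool) (b : Fin (m + 1) → ℤ)
    (hA : Adm par P b) (k : ℕ) :
    ∀ (v : Fin (m + 1)) (l : Bool) (i : ℕ), m + 1 ≤ (v : ℕ) + k →
      ActsT q n N (otan par b P k v l i) i (P v) l
        (if P v then l else ((l ^^ decide (Odd (b v))) ^^ decide (Odd (nch par P v))))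
        (fT q n N a par P b k v) := by
  induction k with
  | zero =>
    intro v l i h
    have := v.isLt
    omega
  | succ k ih =>
    intro v l i h
    have h1 := ActsT_crs hg hn (decide (0 < b v)) (P v) i (b v).natAbs l
    have h2 : decide (Odd (b v).natAbs) = decide (Odd (b v)) := by
      rw [decide_eq_decide, Int.natAbs_odd]
    rw [h2] at h1
    have hj : ∀ j ∈ (List.finRange m).filter (fun j => par j = v), par j = v := by
      intro j hj
      simpa using (List.mem_filter.1 hj).2
    have h3 := ActsT_blks hg hn ha P (fun j => otan par b P k j.succ) (P v)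
      (fun j => fT q n N a par P b k j.succ) i ((List.finRange m).filter (fun j => par j = v))
      (fun j hj' => by rw [← hj j hj']; exact hA.adj j)
      (fun j hj' l' i' => by
        have h4 := ih j.succ (if P j.succ then l' else !l') (i' + 1) (by
          have h5 := hpar j
          rw [hj j hj', Fin.le_def] at h5
          simp only [Fin.val_castSucc] at h5
          rw [Fin.val_succ]
          omega)
        rw [top_eq par hpar P b hA j l' (P v) (by rw [hj j hj'])] at h4
        exact h4)
      (if P v then l else (l ^^ decide (Odd (b v))))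
    have h5 : (if P v then (if P v then l else (l ^^ decide (Odd (b v)))) else
        ((if P v then l else (l ^^ decide (Odd (b v)))) ^^
          decide (Odd (((List.finRange m).filter (fun j => par j = v)).countP
            fun j => P j.succ)))) =
        if P v then l else ((l ^^ decide (Odd (b v))) ^^ decide (Odd (nch par P v))) := by
      unfold nch
      cases P v <;> simp
    rw [h5] at h3
    rw [otan]
    refine ActsT_congr (ActsT_append hg hn h1 h3) fun X _ => ?_
    rw [hw_pow, prod_filter_finRange (fun j => par j = v)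
      (fun j => kerF q n N a (P v) (P j.succ) (fT q n N a par P b k j.succ) X), fT]

/-- The bracket of the oriented diagram of a tree. -/
theorem bracket_odiag (hg : Gen q n N) (hn : 2 ≤ n) (ha : IsA n N a) (par : Fin m → Fin (m + 1))
    (hpar : ∀ j, par j ≤ j.castSucc) (P : Fin (m + 1) → Bool) (b : Fin (m + 1) → ℤ)
    (hA : Adm par P b) (l : Bool) :
    bracket q n N (odiag par b P l) = ∑ X ∈ Finset.range (N + 1),
      (if P 0 then dimT n N q X else dimA n q X) * fT q n N a par P b (m + 1) 0 X := by
  have h1 := ActsT_otan hg hn ha par hpar P b hA (m + 1) 0 l 0 (by simp)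
  rw [top_zero par P b hA l] at h1
  exact ActsT_close hg hn h1

/-! ### The sum -/

/-- The dimensions. -/
noncomputable def dmT (q : ℂ) (n N : ℕ) (P : Bool) (X : ℕ) : ℂ :=
  (if P then dimT n N q X else dimA n q X) / dimS n N q

theorem kerF_TL (hg : Gen q n N) (hn : 2 ≤ n) {pv pc : Bool} (h : ¬ (pv = true ∧ pc = true))
    (f : ℕ → ℂ) (X : ℕ) :
    kerF q n N a pv pc f X = TL n q N a pv pc (fun Y => dmT q n N pc Y * f Y) X := by
  unfold kerF TL dmT
  cases pv <;> cases pc
  · simp only [Bool.false_eq_true, if_false]
    rw [Ph_eq q n N hg hn]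
    refine Finset.sum_congr rfl fun Y _ => ?_
    rw [ker]
    ring
  · simp only [Bool.false_eq_true, if_false, if_true]
    unfold Ro
    refine Finset.sum_congr rfl fun Y _ => ?_
    rw [ker]
    ring
  · simp only [Bool.false_eq_true, if_false, if_true]
    unfold Rt
    refine Finset.sum_congr rfl fun Y _ => ?_
    rw [ker]
    ring
  · exact absurd ⟨rfl, rfl⟩ h

theorem fT_GT (hg : Gen q n N) (hn : 2 ≤ n) (par : Fin m → Fin (m + 1))
    (hpar : ∀ j, par j ≤ j.castSucc) (P : Fin (m + 1) → Bool) (b : Fin (m + 1) → ℤ)
    (hA : Adm par P b) (k : ℕ) :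
    ∀ (v : Fin (m + 1)) (X : ℕ), m + 1 ≤ (v : ℕ) + k →
      dmT q n N (P v) X * fT q n N a par P b k v X = GT n q N a par P
        (fun v X => dmT q n N (P v) X * hw q n N true (P v) X ^ b v) k v X := by
  induction k with
  | zero =>
    intro v X h
    have := v.isLt
    omega
  | succ k ih =>
    intro v X h
    rw [fT, GT, ← mul_assoc]
    congr 1
    refine Finset.prod_congr rfl fun j hj => ?_
    have h1 : par j = v := (Finset.mem_filter.1 hj).2
    rw [kerF_TL hg hn (by rw [← h1]; exact hA.adj j)]
    refine TL_congr (fun Y _ => ?_) X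
    refine ih j.succ Y ?_
    have h2 := hpar j
    rw [h1, Fin.le_def] at h2
    simp only [Fin.val_castSucc] at h2
    rw [Fin.val_succ]
    omega

/-! ### The writhe -/

theorem writhe_cross (p l r : Bool) (i : ℕ) :
    writhe (cross p l r i) = (if p then 1 else -1) * if l = r then 1 else -1 := by
  cases p <;> cases l <;> cases r <;> simp [cross, crossUD, crossDU, writhe]

theorem writhe_crs (p : Bool) (k : ℕ) :
    ∀ (l r : Bool) (i : ℕ), writhe (crs p k l r i) =
      k * ((if p then 1 else -1) * if l = r then 1 else -1) := by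
  induction k with
  | zero => intro l r i; simp [crs, writhe]
  | succ k ih =>
    intro l r i
    rw [crs, Bra11_writhe_append, writhe_cross, ih r l i]
    have h1 : (if r = l then (1 : ℤ) else -1) = if l = r then 1 else -1 := by
      cases l <;> cases r <;> rfl
    rw [h1]
    push_cast
    ring

theorem writhe_blk (T : Bool → ℕ → List Piece) (pv pc l : Bool) (i : ℕ) :
    writhe (blk T pv pc l i) = writhe (T (if pc then l else !l) (i + 1)) := by
  unfold blk cup cap
  cases pv <;> cases pc <;> cases l <;> simp [writhe, Bra11_writhe_append]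

theorem writhe_blks (P : Fin (m + 1) → Bool) (T : Fin m → Bool → ℕ → List Piece) (pv : Bool)
    (c : Fin m → ℤ) (js : List (Fin m)) :
    (∀ j ∈ js, ∀ l i, writhe (T j l i) = c j) → ∀ (l : Bool) (i : ℕ),
      writhe (blks P T pv js l i) = (js.map c).sum := by
  induction js with
  | nil => intro _ l i; simp [blks, writhe]
  | cons j js ih =>
    intro h l i
    rw [blks, Bra11_writhe_append, writhe_blk, h j List.mem_cons_self,
      ih (fun j' hj' => h j' (List.mem_cons_of_mem _ hj')), List.map_cons, List.sum_cons]

theorem writhe_otan (par : Fin m → Fin (m + 1)) (b : Fin (m + 1) → ℤ) (P : Fin (m + 1) → Bool)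
    (k : ℕ) : ∀ (v : Fin (m + 1)) (l : Bool) (i : ℕ), writhe (otan par b P k v l i) =
      Bra11_ws par (fun i => if P i then b i else -b i) k v := by
  induction k with
  | zero => intro v l i; simp [otan, writhe, Bra11_ws]
  | succ k ih =>
    intro v l i
    rw [otan, Bra11_writhe_append, writhe_crs, writhe_blks P _ (P v)
      (fun j => Bra11_ws par (fun i => if P i then b i else -b i) k j.succ) _
      (fun j _ l i => ih j.succ l i), Bra11_ws, Bra11_sum_filter]
    congr 1
    by_cases hb : 0 < b v
    · rw [decide_eq_true hb, if_pos rfl, Int.natAbs_of_nonneg hb.le]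
      cases P v <;> simp
    · have h1 : ((b v).natAbs : ℤ) = -b v := Int.ofNat_natAbs_of_nonpos (by omega)
      rw [decide_eq_false hb, h1]
      cases P v <;> simp

theorem writhe_odiag (par : Fin m → Fin (m + 1)) (hpar : ∀ j, par j ≤ j.castSucc)
    (b : Fin (m + 1) → ℤ) (P : Fin (m + 1) → Bool) (l : Bool) :
    writhe (odiag par b P l) = ∑ i, if P i then b i else -b i := by
  unfold odiag
  rw [Bra11_writhe_append, Bra11_writhe_append, writhe_otan, Bra11_ws_eq par hpar]
  unfold cup cap
  cases l <;> cases P 0 <;> simp [writhe]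

/-! ### The invariants -/

theorem prod_zpow_sum {ι : Type*} (s : Finset ι) {x : ℂ} (hx : x ≠ 0) (r : ι → ℤ) :
    ∏ i ∈ s, x ^ r i = x ^ ∑ i ∈ s, r i := by
  classical
  induction s using Finset.induction_on with
  | empty => simp
  | insert i s hi ih => rw [Finset.prod_insert hi, Finset.sum_insert hi, zpow_add₀ hx, ih]

theorem TS_smul (par : Fin m → Fin (m + 1)) (P : Fin (m + 1) → Bool) (c : Fin (m + 1) → ℂ)
    (w : Fin (m + 1) → ℕ → ℂ) :
    TS n q N a par P (fun i X => c i * w i X) = (∏ i, c i) * TS n q N a par P w := by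
  unfold TS
  rw [Finset.mul_sum]
  refine Finset.sum_congr rfl fun X _ => ?_
  rw [Finset.prod_mul_distrib]
  ring

/-- The factor of a crossing. -/
noncomputable def cf (q : ℂ) (n N : ℕ) (P : Bool) : ℂ :=
  if P then q ^ ((N : ℤ) * ((N : ℤ) + n - 1)) * (ka q n N)⁻¹
  else q ^ (-((N : ℤ) * ((N : ℤ) + n - 1)))

theorem hw_vw (P : Bool) (b : ℤ) (X : ℕ) :
    dmT q n N P X * hw q n N true P X ^ b = cf q n N P ^ b * vw n q N P b X := by
  unfold dmT hw cf
  cases P
  · simp only [Bool.false_eq_true, if_false, if_true, zpow_one, vw]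
    rw [mul_zpow]
    ring
  · simp only [if_true, zpow_one, vw]
    rw [mul_zpow _ (twS q X)]
    ring

/-- The invariants of the oriented diagrams of a tree. -/
theorem coloredSU_odiag (hg : Gen q n N) (hn : 2 ≤ n) (ha : IsA n N a)
    (par : Fin m → Fin (m + 1)) (hpar : ∀ j, par j ≤ j.castSucc) (P : Fin (m + 1) → Bool)
    (b : Fin (m + 1) → ℤ) (hA : Adm par P b) (l : Bool) :
    coloredSU (odiag par b P l) n N q =
      ka q n N ^ (-∑ i, if P i then b i else 0) * mixT n q N a par P b := by
  have hq : q ≠ 0 := hg.1
  have hd := Brac11_dimS_ne q n N hg hn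
  have hk : ka q n N ≠ 0 := by
    unfold ka
    exact mul_ne_zero (pow_ne_zero _ (by norm_num)) (zpow_ne_zero _ hq)
  have h1 : bracket q n N (odiag par b P l) / dimS n N q =
      (∏ i, cf q n N (P i) ^ b i) * mixT n q N a par P b := by
    rw [bracket_odiag hg hn ha par hpar P b hA l, mixT_TS, ← TS_smul, Finset.sum_div]
    have h2 : ∀ X, (if P 0 then dimT n N q X else dimA n q X) * fT q n N a par P b (m + 1) 0 X /
        dimS n N q = GT n q N a par P
        (fun v X => cf q n N (P v) ^ b v * vw n q N (P v) (b v) X) (m + 1) 0 X := by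
      intro X
      have h3 := fT_GT (a := a) hg hn par hpar P b hA (m + 1) 0 X (by simp)
      simp only [hw_vw] at h3
      rw [← h3, dmT]
      ring
    rw [Finset.sum_congr rfl fun X _ => h2 X, GT_eq n q N a m par hpar P]
  have h4 : ∏ i, cf q n N (P i) ^ b i =
      q ^ ((N : ℤ) * ((N : ℤ) + n - 1) * ∑ i, if P i then b i else -b i) *
        ka q n N ^ (-∑ i, if P i then b i else 0) := by
    rw [← Finset.sum_neg_distrib, ← prod_zpow_sum _ hk, Finset.mul_sum, ← prod_zpow_sum _ hq,
      ← Finset.prod_mul_distrib]
    refine Finset.prod_congr rfl fun i _ => ?_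
    unfold cf
    cases P i
    · simp only [Bool.false_eq_true, if_false, neg_zero, zpow_zero, mul_one]
      rw [← zpow_mul]
      congr 1
      ring
    · simp only [if_true]
      rw [mul_zpow, ← zpow_mul, inv_zpow']
  unfold coloredSU
  rw [writhe_odiag par hpar, mul_div_assoc, h1, h4, ← mul_assoc, ← mul_assoc, ← zpow_add₀ hq,
    neg_add_cancel, zpow_zero, one_mul]

end Pool.Agent.OR
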