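import Pool.Agent.OR.A.Defs
import Pool.Agent.OR.A.Anti

/-! # The normalized half twist of antiparallel strands -/

namespace Pool.Agent.OR

open Pool.Agent.H63.VC7 Pool.Agent.H63.VC8 Pool.Agent.H63.VC11 Pool.Agent.S4 Matrix

variable {n N : ℕ} {q : ℂ} {a : ℤ} {f g : ℕ → ℂ} {M M' : Matrix (I2 n N) (I2 n N) ℂ}

/-- The two forms of the operators. -/
theorem Wh_Uh (hg : Gen q n N) (hn : 2 ≤ n) (f : ℕ → ℂ) :
    An.Wh q n N f = Uh q n N * Oh q n N f := by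
  unfold An.Wh Uh
  rw [Matrix.mul_assoc, Oh_mul q N hg (by omega)]
  congr 1
  refine Oh_congr q N _ _ fun X _ => ?_
  rw [hf_eq hg.1 n N (Or.inl rfl), one_mul]
  ring

theorem Uh_Wh (hg : Gen q n N) (hn : 2 ≤ n) : Uh q n N = An.Wh q n N (fun _ => 1) := by
  rw [Wh_Uh hg hn, Oh_const, one_smul, Matrix.mul_one]

theorem Uh_sq (hg : Gen q n N) (hn : 2 ≤ n) : Uh q n N * Uh q n N = 1 := by
  rw [Uh_Wh hg hn, An.Wh_mul_Wh hg hn]
  simp only [mul_one]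
  rw [Oh_const, one_smul]

theorem Uh_Oh (hg : Gen q n N) (hn : 2 ≤ n) (f : ℕ → ℂ) :
    Uh q n N * Oh q n N f = Oh q n N f * Uh q n N := by
  rw [Uh_Wh hg hn, An.Wh_mul_Oh hg (by omega), An.Oh_mul_Wh hg (by omega)]
  exact An.Wh_congr q _ _ fun X _ => by ring

theorem Ym_Uh (hg : Gen q n N) (hn : 2 ≤ n) {e : ℤ} (he : e = 1 ∨ e = -1) :
    Ym q n N e = Uh q n N * Oh q n N (fun X => q ^ (e * ((N : ℤ) * ((N : ℤ) + n - 1))) *
      twA q n X ^ (-e)) := by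
  rw [An.Ym_Wh hg hn he, Wh_Uh hg hn]
  rfl

theorem Uh_DD (hg : Gen q n (N + 1)) (hn : 2 ≤ n) :
    Uh q n (N + 1) * DD q n N = DD q n N * Uh q n N := by
  have hn1 : 1 ≤ n := by omega
  have hgN : Gen q n N := hg.mono (Nat.le_succ N)
  have hq := hg.1
  -- `Oh (N + 1) f * DD = DD * Oh N f`
  have h1 : ∀ f : ℕ → ℂ, Oh q n (N + 1) f * DD q n N = DD q n N * Oh q n N f := by
    intro f
    have h2 : Oh q n (N + 1) f = f (N + 1) • 1 + DD q n N * Oh q n N (dv q n N f) * CC q n N := rfl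
    rw [h2, Matrix.add_mul, Matrix.smul_mul, Matrix.one_mul, Matrix.mul_assoc, CD_Oh q N hg hn1,
      Matrix.mul_assoc, Oh_mul q N hgN hn1]
    have h3 : f (N + 1) • DD q n N = DD q n N * Oh q n N (fun _ => f (N + 1)) := by
      rw [Oh_const, Matrix.mul_smul, Matrix.mul_one]
    rw [h3, ← Matrix.mul_add, ← Oh_add]
    congr 1
    refine Oh_congr q N _ _ fun X hX => ?_
    have hE := E1_ne (X := X) hg hn1 (by omega)
    unfold dv
    field_simp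
    ring
  have h4 := Ym_Uh hg hn (e := 1) (Or.inl rfl)
  have h5 := Ym_Uh hgN hn (e := 1) (Or.inl rfl)
  have h6 : ∀ X, hf q n (N + 1) 1 X = q ^ (1 * (2 * (N : ℤ) + n)) * hf q n N 1 X :=
    fun X => hf_succ hq n N 1 X
  have hne : ∀ (M X : ℕ), hf q n M 1 X ≠ 0 := fun M X h0 => by
    have := hf_neg hq n M 1 X
    rw [h0, zero_mul] at this
    exact zero_ne_one this
  -- `Uh = Ym 1 * Oh (hf 1)⁻¹`
  have h7 : ∀ {M : ℕ}, Gen q n M → Uh q n M = Ym q n M 1 * Oh q n M (fun X => (hf q n M 1 X)⁻¹) := by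
    intro M hM
    rw [Ym_Uh hM hn (e := 1) (Or.inl rfl), Matrix.mul_assoc, Oh_mul q M hM hn1]
    have h8 : Oh q n M (fun X => q ^ (1 * ((M : ℤ) * ((M : ℤ) + n - 1))) *
        twA q n X ^ (-(1 : ℤ)) * (hf q n M 1 X)⁻¹) = 1 := by
      rw [← one_smul ℂ (1 : Matrix (I2 n M) (I2 n M) ℂ), ← Oh_const]
      exact Oh_congr q M _ _ fun X _ => mul_inv_cancel₀ (hne M X)
    rw [h8, Matrix.mul_one]
  rw [h7 hg, h7 hgN, Matrix.mul_assoc, h1, ← Matrix.mul_assoc, Y_DD q N 1 (Or.inl rfl) hg hn1,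
    Matrix.smul_mul, Matrix.mul_assoc, ← Matrix.mul_smul, ← Matrix.mul_smul, ← Oh_smul]
  congr 2
  refine Oh_congr q N _ _ fun X _ => ?_
  have h9 := hne N X
  have h10 : q ^ (1 * (2 * (N : ℤ) + n)) ≠ 0 := zpow_ne_zero _ hq
  rw [h6]
  field_simp

end Pool.Agent.OR
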